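import Pool.Agent.Lib.MP_7cdc3e_gt.C.Defs
import Pool.Agent.Lib.MP_7cdc3e_gt.C.D1.Spec

/-!
# MP_7cdc3e_gt, C32: from the output of D1 to the input of D2 (helper43)

* `ppt_of_psd`: if the cell of `z` is the linear image of the cone of positive semidefinite matrices then
  `z` is a `PPt`;
* `fgc_of_cn`: if the cell is simplicial then it is finitely generated.
-/

open HoloConj

namespace TightRP

namespace C3

open Ver

/-- a positive semidefinite matrix is a sum of three squares -/
theorem psd_sum (c : Matrix (Fin 3) (Fin 3) ℝ) (hc : PSD c) :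
    ∃ y : Fin 3 → Fin 3 → ℝ, ∀ i j, c i j = ∑ k, y k i * y k j := by
  have hH : c.IsHermitian := by
    rw [Matrix.IsHermitian, Matrix.conjTranspose_eq_transpose_of_trivial]
    exact hc.1
  have hps : c.PosSemidef := by
    refine .of_dotProduct_mulVec_nonneg hH fun x => ?_
    have h1 := hc.2 x
    have h2 : star x ⬝ᵥ c.mulVec x = qf c x := by
      simp only [dotProduct, Matrix.mulVec, qf, Pi.star_apply, star_trivial, Finset.mul_sum]
      refine Finset.sum_congr rfl fun i _ => Finset.sum_congr rfl fun j _ => ?_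
      ring
    rw [h2]
    exact h1
  have h0 := hps.eigenvalues_nonneg
  have h3 := hH.spectral_theorem
  rw [Unitary.conjStarAlgAut_apply] at h3
  refine ⟨fun k i => Real.sqrt (hH.eigenvalues k) * (hH.eigenvectorUnitary : Matrix _ _ ℝ) i k,
    fun i j => ?_⟩
  have h4 := congrFun (congrFun h3 i) j
  rw [h4, Matrix.mul_apply]
  refine Finset.sum_congr rfl fun k _ => ?_
  rw [Matrix.mul_diagonal]
  have h5 := Real.mul_self_sqrt (h0 k)
  simp only [Function.comp_apply, Matrix.star_apply, star_trivial, RCLike.ofReal_real_eq_id, id]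
  have : Real.sqrt (hH.eigenvalues k) * (hH.eigenvectorUnitary : Matrix _ _ ℝ) i k *
     (Real.sqrt (hH.eigenvalues k) * (hH.eigenvectorUnitary : Matrix _ _ ℝ) j k) =
     (Real.sqrt (hH.eigenvalues k) * Real.sqrt (hH.eigenvalues k)) *
     ((hH.eigenvectorUnitary : Matrix _ _ ℝ) i k * (hH.eigenvectorUnitary : Matrix _ _ ℝ) j k) := by
    ring
  rw [this, h5]
  ring

/-- the symmetric product of two vectors -/
noncomputable def sy (p r : R3) : Matrix (Fin 3) (Fin 3) ℝ := fun i j => (p i * r j + p j * r i) / 2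

/-- the square of a vector -/
def sqm (p : R3) : Matrix (Fin 3) (Fin 3) ℝ := fun i j => p i * p j

theorem psd_sqm (p : R3) : PSD (sqm p) := by
  refine ⟨?_, fun y => ?_⟩
  · ext i j
    exact mul_comm _ _
  · have : qf (sqm p) y = (∑ i, p i * y i) * (∑ i, p i * y i) := by
      rw [Finset.sum_mul_sum]
      simp only [qf, sqm]
      refine Finset.sum_congr rfl fun i _ => Finset.sum_congr rfl fun j _ => ?_
      ring
    rw [this]
    exact mul_self_nonneg _

theorem sy_self (p : R3) : sy p p = sqm p := by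
  funext i j
  simp only [sy, sqm]
  ring

theorem sy_polar (p r : R3) : sy p r = (1 / 4 : ℝ) • (sqm (p + r) - sqm (p - r)) := by
  funext i j
  simp only [sy, sqm, Matrix.smul_apply, Matrix.sub_apply, Pi.add_apply, Pi.sub_apply,
    smul_eq_mul]
  ring

/-- a positive semidefinite form, given by its bilinear form: Cauchy Schwarz -/
theorem cs_bil (b : R3 →ₗ[ℝ] R3 →ₗ[ℝ] ℝ) (hs : ∀ p r, b p r = b r p) (h0 : ∀ p, 0 ≤ b p p)
    (p y : R3) (hp : 0 < b p p) : b p y * b p y ≤ b p p * b y y := by
  have h1 := h0 (b p p • y - b p y • p)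
  simp only [map_sub, map_smul, LinearMap.sub_apply, LinearMap.smul_apply, smul_eq_mul] at h1
  rw [hs y p] at h1
  have h2 : b p p * (b p p * b y y - b p y * b p y) =
      b p p * (b p p * b y y - b p y * b p y) - b p y * (b p p * b p y - b p y * b p p) := by
    ring
  have h3 : 0 ≤ b p p * (b p p * b y y - b p y * b p y) := by
    rw [h2]
    linarith
  by_contra hcon
  push Not at hcon
  have := mul_neg_of_pos_of_neg hp (by linarith : b p p * b y y - b p y * b p y < 0)
  linarith

/-- a nonzero positive semidefinite form with a face of dimension at least two is a square -/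
theorem sq_of (b : R3 →ₗ[ℝ] R3 →ₗ[ℝ] ℝ) (hs : ∀ p r, b p r = b r p) (h0 : ∀ p, 0 ≤ b p p)
    (h : ∀ v : R3, ¬ ∀ y : R3, b y y = 0 → ∃ s : ℝ, y = s • v) :
    ∃ u : R3 →ₗ[ℝ] ℝ, ∀ p r, b p r = u p * u r := by
  by_cases hz : ∀ p, b p p = 0
  · refine ⟨0, fun p r => ?_⟩
    have h1 := hz (p + r)
    simp only [map_add, LinearMap.add_apply] at h1
    rw [hz p, hz r, hs r p] at h1
    rw [LinearMap.zero_apply, zero_mul]
    linarith
  · push Not at hz
    obtain ⟨p, hp⟩ := hz
    have hpp : 0 < b p p := lt_of_le_of_ne (h0 p) (Ne.symm hp)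
    by_cases hq : ∀ q, b p p * b q q - b p q * b p q = 0
    · have hsq := Real.mul_self_sqrt (h0 p)
      have hsq0 : 0 < Real.sqrt (b p p) := Real.sqrt_pos.2 hpp
      refine ⟨(Real.sqrt (b p p))⁻¹ • b p, fun q r => ?_⟩
      have h1 := hq (q + r)
      have h2 := hq q
      have h3 := hq r
      simp only [map_add, LinearMap.add_apply] at h1
      rw [hs r q] at h1
      have h4 : b p p * b q r = b p q * b p r := by linarith
      simp only [LinearMap.smul_apply, smul_eq_mul]
      have h5 : (Real.sqrt (b p p))⁻¹ * (b p) q * ((Real.sqrt (b p p))⁻¹ * (b p) r) =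
          (Real.sqrt (b p p))⁻¹ * (Real.sqrt (b p p))⁻¹ * (b p q * b p r) := by ring
      rw [h5, ← h4, ← mul_inv, hsq, ← mul_assoc, inv_mul_cancel₀ hpp.ne', one_mul]
    · exfalso
      push Not at hq
      obtain ⟨q, hq⟩ := hq
      have hcs := cs_bil b hs h0 p q hpp
      have hdet : 0 < b p p * b q q - b p q * b p q := lt_of_le_of_ne (by linarith) (Ne.symm hq)
      have hqq : 0 < b q q := by
        by_contra hcon
        push Not at hcon
        have := mul_nonpos_of_nonneg_of_nonpos hpp.le hcon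
        have := mul_self_nonneg (b p q)
        linarith
      let g : R3 →ₗ[ℝ] ℝ × ℝ := (b p).prod (b q)
      have hg : ∀ y, g y = (b p y, b q y) := fun y => rfl
      have hsurj : Function.Surjective g := by
        rintro ⟨s, t⟩
        refine ⟨((s * b q q - t * b p q) / (b p p * b q q - b p q * b p q)) • p +
          ((t * b p p - s * b p q) / (b p p * b q q - b p q * b p q)) • q, ?_⟩
        rw [hg]
        simp only [map_add, map_smul, smul_eq_mul]
        rw [hs q p]
        have hD0 : b p p * b q q - b p q * b p q ≠ 0 := hdet.ne'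
        refine Prod.ext ?_ ?_
        · have e1 : (s * b q q - t * b p q) / (b p p * b q q - b p q * b p q) * b p p +
              (t * b p p - s * b p q) / (b p p * b q q - b p q * b p q) * b p q =
              (s * (b p p * b q q - b p q * b p q)) / (b p p * b q q - b p q * b p q) := by
            ring
          exact e1.trans (mul_div_cancel_right₀ _ hD0)
        · have e1 : (s * b q q - t * b p q) / (b p p * b q q - b p q * b p q) * b p q +
              (t * b p p - s * b p q) / (b p p * b q q - b p q * b p q) * b q q =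
              (t * (b p p * b q q - b p q * b p q)) / (b p p * b q q - b p q * b p q) := by
            ring
          exact e1.trans (mul_div_cancel_right₀ _ hD0)
      have hrk := g.finrank_range_add_finrank_ker
      rw [LinearMap.range_eq_top.2 hsurj, finrank_top, Module.finrank_prod,
        Module.finrank_self, Module.finrank_fin_fun] at hrk
      have hk : Module.finrank ℝ (LinearMap.ker g) = 1 := by omega
      obtain ⟨v, _, hv⟩ := finrank_eq_one_iff'.1 hk
      refine h (v : R3) fun y hy => ?_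
      have e1 : b p y = 0 := by
        have := cs_bil b hs h0 p y hpp
        rw [hy, mul_zero] at this
        exact mul_self_eq_zero.1 (le_antisymm this (mul_self_nonneg _))
      have e2 : b q y = 0 := by
        have := cs_bil b hs h0 q y hqq
        rw [hy, mul_zero] at this
        exact mul_self_eq_zero.1 (le_antisymm this (mul_self_nonneg _))
      obtain ⟨s, hs'⟩ := hv ⟨y, by rw [LinearMap.mem_ker, hg, e1, e2]; rfl⟩
      refine ⟨s, ?_⟩
      have := congrArg Subtype.val hs'
      simpa using this.symm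

section main

variable {ev : W →ₗ[ℝ] (RP3 → ℝ)} {z : RP3}

/-- the input of D1 at the point `z` -/
def SysAt (ev : W →ₗ[ℝ] (RP3 → ℝ)) (z : RP3) : Prop :=
  D1.Sys (E := Submodule.span ℝ (Nf ev z)) {k | (k : W) ∈ Nf ev z}
    {k | (k : W) = 0 ∨ (k : W) ∈ T2set ev}

/-- a point with the cell `PSD_3` is a `PPt` -/
theorem ppt_core (hinj : Function.Injective ev) (hS : SysAt ev z)
    (hOut : ∀ y, y ∉ Xz ev (Nf ev z) → ∃ g ∈ Nf ev z, ev g y = 0 ∧ g ≠ 0 ∧ g ∉ T2set ev)
    (Φ : Matrix (Fin 3) (Fin 3) ℝ →ₗ[ℝ] W)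
    (h1 : ∀ c, c.IsSymm → Φ c = 0 → c = 0)
    (h2 : ∀ l : W, l ∈ Nf ev z ↔ ∃ c, D1.PSD3 c ∧ l = Φ c) :
    Nonempty (PPt (LinearMap.range ev) z) := by
  let T : Matrix (Fin 3) (Fin 3) ℝ →ₗ[ℝ] (RP3 → ℝ) := ev ∘ₗ Φ
  have hT : ∀ c, T c = ev (Φ c : W) := fun c => rfl
  have hN : ∀ c, PSD c → (Φ c : W) ∈ Nf ev z := fun c hc => (h2 _).2 ⟨c, hc, rfl⟩
  let S : R3 →ₗ[ℝ] R3 →ₗ[ℝ] (RP3 → ℝ) := LinearMap.mk₂ ℝ (fun p r => T (sy p r))
    (by
      intro p p' r
      rw [← map_add]
      congr 1
      funext i j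
      simp only [sy, Matrix.add_apply, Pi.add_apply]
      ring)
    (by
      intro t p r
      rw [← map_smul]
      congr 1
      funext i j
      simp only [sy, Matrix.smul_apply, Pi.smul_apply, smul_eq_mul]
      ring)
    (by
      intro p r r'
      rw [← map_add]
      congr 1
      funext i j
      simp only [sy, Matrix.add_apply, Pi.add_apply]
      ring)
    (by
      intro t p r
      rw [← map_smul]
      congr 1
      funext i j
      simp only [sy, Matrix.smul_apply, Pi.smul_apply, smul_eq_mul]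
      ring)
  have hSa : ∀ p r, S p r = T (sy p r) := fun p r => rfl
  have hSself : ∀ p, S p p = T (sqm p) := fun p => by rw [hSa, sy_self]
  have hpolar : ∀ x, (∀ g ∈ Nf ev z, ev g x = 0) → ∀ p r, S p r x = 0 := by
    intro x hx p r
    rw [hSa, sy_polar, map_smul, map_sub, Pi.smul_apply, Pi.sub_apply, hT, hT,
      hx _ (hN _ (psd_sqm _)), hx _ (hN _ (psd_sqm _)), sub_zero, smul_zero]
  have hsum : ∀ c : Matrix (Fin 3) (Fin 3) ℝ, c.IsSymm →
      ∑ i, ∑ j, c i j • S (Pi.single i 1) (Pi.single j 1) = T c := by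
    intro c hc
    have e1 : c = ∑ i, ∑ j, c i j • sy (Pi.single i 1) (Pi.single j 1) := by
      funext k l
      have e2 : (∑ i, ∑ j, c i j • sy (Pi.single i 1) (Pi.single j 1)) k l =
          ∑ i, ∑ j, c i j * (((Pi.single i 1 : R3) k * (Pi.single j 1 : R3) l +
            (Pi.single i 1 : R3) l * (Pi.single j 1 : R3) k) / 2) := by
        simp only [Matrix.sum_apply, Matrix.smul_apply, smul_eq_mul, sy]
      rw [e2]
      have s1 : c 1 0 = c 0 1 := hc.apply 0 1
      have s2 : c 2 0 = c 0 2 := hc.apply 0 2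
      have s3 : c 2 1 = c 1 2 := hc.apply 1 2
      fin_cases k <;> fin_cases l <;> simp [Fin.sum_univ_three, Pi.single_apply] <;> linarith
    conv_rhs => rw [e1]
    simp only [map_sum, map_smul, hSa]
  refine ⟨{
    S := S
    mem := fun p r => ⟨(Φ (sy p r) : W), rfl⟩
    rk := ?_
    ata := hpolar z fun g hg => hg.2
    indep := ?_
    nonneg := ?_ }⟩
  · intro x
    by_cases hx : x ∈ Xz ev (Nf ev z)
    · exact ⟨0, fun p r => by rw [hpolar x hx, LinearMap.zero_apply, zero_mul]⟩
    obtain ⟨g, hg, hgx, hg0, hgT⟩ := hOut x hx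
    set Fx : Set (Submodule.span ℝ (Nf ev z)) := {k | (k : W) ∈ Nf ev z ∧ ev (k : W) x = 0}
      with hFx
    have hface : D1.Face {k : Submodule.span ℝ (Nf ev z) | (k : W) ∈ Nf ev z} Fx := by
      refine ⟨⟨?_, ?_, ?_⟩, fun k hk => hk.1, ?_⟩
      · refine ⟨hS.cpc.cone.zero, ?_⟩
        rw [Submodule.coe_zero, map_zero, Pi.zero_apply]
      · intro k hk l hl
        refine ⟨hS.cpc.cone.add _ hk.1 _ hl.1, ?_⟩
        rw [Submodule.coe_add, map_add, Pi.add_apply, hk.2, hl.2, add_zero]
      · intro t ht k hk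
        refine ⟨hS.cpc.cone.smul t ht _ hk.1, ?_⟩
        rw [Submodule.coe_smul, map_smul, Pi.smul_apply, hk.2, smul_zero]
      · intro k hk l hl hkl
        refine ⟨hk, ?_⟩
        have e1 := hkl.2
        rw [Submodule.coe_add, map_add, Pi.add_apply] at e1
        have e2 := hk.1 x
        have e3 := hl.1 x
        linarith
    have hnZ : ¬ Fx ⊆ {k | (k : W) = 0 ∨ (k : W) ∈ T2set ev} := by
      intro hsub
      have e1 := hsub (a := (⟨g, Submodule.subset_span hg⟩ : Submodule.span ℝ (Nf ev z)))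
        ⟨hg, hgx⟩
      rcases e1 with e1 | e1
      · exact hg0 e1
      · exact hgT e1
    obtain ⟨G, hGF, hGL⟩ := hS.line _ hface hnZ
    have hb : ∃ u : R3 →ₗ[ℝ] ℝ, ∀ p r, (S.compr₂ (LinearMap.proj x)) p r = u p * u r := by
      refine sq_of _ ?_ ?_ ?_
      · intro p r
        rw [LinearMap.compr₂_apply, LinearMap.compr₂_apply, hSa, hSa]
        have : sy p r = sy r p := by
          funext i j
          simp only [sy]
          ring
        rw [this]
      · intro p
        rw [LinearMap.compr₂_apply, LinearMap.proj_apply, hSself, hT]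
        exact (hN _ (psd_sqm p)).1 x
      · intro v hv
        have hle : Submodule.span ℝ G ≤ Submodule.span ℝ
            {(⟨Φ (sqm v), Submodule.subset_span (hN _ (psd_sqm v))⟩ :
              Submodule.span ℝ (Nf ev z))} := by
          refine Submodule.span_le.2 fun k hk => ?_
          obtain ⟨hkN, hkx⟩ := hGF hk
          obtain ⟨c, hc, hkc⟩ := (h2 (k : W)).1 hkN
          obtain ⟨y, hy⟩ := psd_sum c hc
          have hcs : c = ∑ i, sqm (y i) := by
            funext i j
            rw [hy, Matrix.sum_apply]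
            rfl
          have hnn : ∀ i, 0 ≤ T (sqm (y i)) x := fun i => (hN _ (psd_sqm _)).1 x
          have hs0 : ∑ i, T (sqm (y i)) x = 0 := by
            rw [← hkx, hkc, ← hT, hcs, map_sum, Finset.sum_apply]
          have hi0 : ∀ i, T (sqm (y i)) x = 0 := fun i =>
            (Finset.sum_eq_zero_iff_of_nonneg fun i _ => hnn i).1 hs0 i (Finset.mem_univ i)
          choose s hs using fun i => hv (y i) (by
            rw [LinearMap.compr₂_apply, LinearMap.proj_apply, hSself]
            exact hi0 i)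
          have e1 : c = (∑ i, s i ^ 2) • sqm v := by
            rw [hcs, Finset.sum_smul]
            refine Finset.sum_congr rfl fun i _ => ?_
            funext k l
            rw [hs i]
            simp only [sqm, Pi.smul_apply, Matrix.smul_apply, smul_eq_mul]
            ring
          refine Submodule.mem_span_singleton.2 ⟨∑ i, s i ^ 2, ?_⟩
          apply Subtype.ext
          rw [hkc, e1, map_smul]
          rfl
        have e2 := Submodule.finrank_mono hle
        have e3 : Module.finrank ℝ (Submodule.span ℝ G) = 3 := hGL.2.2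
        have e4 := finrank_span_le_card (R := ℝ)
          ({(⟨Φ (sqm v), Submodule.subset_span (hN _ (psd_sqm v))⟩ :
            Submodule.span ℝ (Nf ev z))} : Set (Submodule.span ℝ (Nf ev z)))
        simp only [Set.toFinset_singleton, Finset.card_singleton] at e4
        omega
    obtain ⟨u, hu⟩ := hb
    exact ⟨u, fun p r => hu p r⟩
  · intro c hc h0
    rw [hsum c hc, hT] at h0
    exact h1 c hc (hinj (by rw [h0, map_zero]))
  · rintro l ⟨g, rfl⟩ hgz hgn
    obtain ⟨c, hc, he⟩ := (h2 g).1 ⟨hgn, hgz⟩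
    refine ⟨c, hc, ?_⟩
    rw [hsum c hc.1, hT, ← he]

/-- the version for maps to the span -/
theorem ppt_of_psd (hinj : Function.Injective ev) (hS : SysAt ev z)
    (hOut : ∀ y, y ∉ Xz ev (Nf ev z) → ∃ g ∈ Nf ev z, ev g y = 0 ∧ g ≠ 0 ∧ g ∉ T2set ev)
    (Φ : Matrix (Fin 3) (Fin 3) ℝ →ₗ[ℝ] Submodule.span ℝ (Nf ev z))
    (h1 : ∀ c, c.IsSymm → Φ c = 0 → c = 0)
    (h2 : ∀ l : Submodule.span ℝ (Nf ev z), (l : W) ∈ Nf ev z ↔ ∃ c, D1.PSD3 c ∧ l = Φ c) :
    Nonempty (PPt (LinearMap.range ev) z) := by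
  refine ppt_core hinj hS hOut ((Submodule.span ℝ (Nf ev z)).subtype ∘ₗ Φ)
    (fun c hc h0 => h1 c hc (Subtype.ext h0)) fun l => ⟨fun hl => ?_, ?_⟩
  · obtain ⟨c, hc, he⟩ := (h2 ⟨l, Submodule.subset_span hl⟩).1 hl
    exact ⟨c, hc, congrArg Subtype.val he⟩
  · rintro ⟨c, hc, rfl⟩
    exact (h2 _).2 ⟨c, hc, rfl⟩

/-- a simplicial cell is finitely generated -/
theorem fgc_of_cn {n : ℕ} (g : Fin n → Submodule.span ℝ (Nf ev z))
    (h : {k : Submodule.span ℝ (Nf ev z) | (k : W) ∈ Nf ev z} = D1.cn g) :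
    FGc (LinearMap.range ev) z := by
  have hg : ∀ i, (g i : W) ∈ Nf ev z := by
    intro i
    have h1 : g i ∈ D1.cn g := by
      classical
      refine ⟨Pi.single i 1, fun j => ?_, ?_⟩
      · rw [Pi.single_apply]
        split_ifs
        · exact zero_le_one
        · exact le_rfl
      · simp [Pi.single_apply]
    rw [← h] at h1
    exact h1
  refine ⟨n, fun i => ev (g i : W), fun i => ⟨⟨_, rfl⟩, (hg i).2, (hg i).1⟩, ?_⟩
  rintro l ⟨k, rfl⟩ hkz hkn
  have h1 : (⟨k, Submodule.subset_span ⟨hkn, hkz⟩⟩ : Submodule.span ℝ (Nf ev z)) ∈ D1.cn g := by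
    rw [← h]
    exact ⟨hkn, hkz⟩
  obtain ⟨c, hc, he⟩ := h1
  refine ⟨c, hc, ?_⟩
  have h2 := congrArg Subtype.val he
  simp only [Submodule.coe_sum, Submodule.coe_smul] at h2
  rw [h2, map_sum]
  exact Finset.sum_congr rfl fun i _ => map_smul _ _ _

/-- D1 at the point `z` gives the input of D2 -/
theorem dich (hD1 : D1.D1Stmt) (hO : OutStmt) {F : Type} [Field F] (h : CSys F ev)
    (hz : Reg ev z) (hS : SysAt ev z) :
    Nonempty (PPt (LinearMap.range ev) z) ∨ FGc (LinearMap.range ev) z := by
  rcases hD1 _ _ _ hS with ⟨g, _, hg, _⟩ | ⟨Φ, h1, h2⟩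
  · exact Or.inr (fgc_of_cn g hg)
  · exact Or.inl (ppt_of_psd h.inj hS (hO F ev h z hz) Φ h1 h2)

end main

end C3

end TightRP
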