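import Pool.Agent.Lib.MP_7cdc3e_gt.C.T7

/-!
# MP_7cdc3e_gt, C32: the interface of the sections T4, T5, T6 and T7

`KK ev z`: the span of `Nf ev z`, a space of dimension six if `z` is regular; `LK`, `ZK`: the cone and the
functions of rank one in it.  `T4Stmt`: what section T4 proves; `d1_at`: section T5 applied to it.
-/

set_option autoImplicit false

open Module

namespace TightRP

namespace C3

/-- the span of the cone of `z` -/
abbrev KK (ev : W →ₗ[ℝ] (RP3 → ℝ)) (z : RP3) : Submodule ℝ W := Submodule.span ℝ (Nf ev z)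

/-- the cone of `z` in its span -/
def LK (ev : W →ₗ[ℝ] (RP3 → ℝ)) (z : RP3) : Set (KK ev z) := {k | (k : W) ∈ Nf ev z}

/-- the functions of rank one, and zero -/
def ZK (ev : W →ₗ[ℝ] (RP3 → ℝ)) (z : RP3) : Set (KK ev z) := {k | k ≠ 0 → (k : W) ∈ T2set ev}

/-- what section T4 has to prove -/
def T4Stmt : Prop := ∀ (F : Type) [Field F] (ev : W →ₗ[ℝ] (RP3 → ℝ)), CSys F ev →
  ∀ z, Reg ev z → D1.Sys (LK ev z) (ZK ev z)

/-- the second alternative of section T5: the cone of `z` is the cone of positive semidefinite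
matrices -/
def PsdAt (ev : W →ₗ[ℝ] (RP3 → ℝ)) (z : RP3) : Prop :=
  ∃ Φ : Matrix (Fin 3) (Fin 3) ℝ →ₗ[ℝ] W, (∀ c, c.IsSymm → Φ c = 0 → c = 0) ∧
    ∀ l, l ∈ Nf ev z ↔ ∃ c, D1.PSD3 c ∧ l = Φ c

section

variable {ev : W →ₗ[ℝ] (RP3 → ℝ)} {z : RP3}

theorem coe_sum_smul (g : Fin 6 → KK ev z) (c : Fin 6 → ℝ) :
    ((∑ i, c i • g i : KK ev z) : W) = ∑ i, c i • (g i : W) := by
  rw [Submodule.coe_sum]
  rfl

/-- the result of section T5 in the language of `W` -/
theorem d1_at (hD1 : D1.D1Stmt) (hS : D1.Sys (LK ev z) (ZK ev z)) :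
    (∃ g, Simp ev z g) ∨ PsdAt ev z := by
  classical
  rcases hD1 (KK ev z) (LK ev z) (ZK ev z) hS with ⟨g, hg, hL, hA, hB, hC⟩ | ⟨Φ, hΦ, hL⟩
  · left
    have hcnS : ∀ σ : Finset (Fin 6), D1.cnS g σ ⊆ ZK ev z →
        ∀ x ∈ D1.cnS (fun i => (g i : W)) σ, x ≠ 0 → x ∈ T2set ev := by
      rintro σ hσ x ⟨c, hc, hc0, hx⟩ hx0
      have h1 : (∑ i, c i • g i : KK ev z) ∈ ZK ev z := hσ ⟨c, hc, hc0, rfl⟩
      have h2 : ((∑ i, c i • g i : KK ev z) : W) = x := by rw [coe_sum_smul, hx]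
      have h3 : (∑ i, c i • g i : KK ev z) ≠ 0 := by
        intro h4
        apply hx0
        rw [← h2, h4]
        rfl
      have h5 := h1 h3
      rwa [h2] at h5
    refine ⟨fun i => (g i : W), ?_, ?_, ?_, ?_⟩
    · exact hg.map' (KK ev z).subtype (Submodule.ker_subtype _)
    · ext x
      constructor
      · intro hx
        have h1 : (⟨x, Submodule.subset_span hx⟩ : KK ev z) ∈ LK ev z := hx
        rw [hL] at h1
        obtain ⟨c, hc, hxc⟩ := h1
        refine ⟨c, hc, ?_⟩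
        have h2 := congrArg (fun k : KK ev z => (k : W)) hxc
        have h3 : x = ((∑ i, c i • g i : KK ev z) : W) := h2
        rw [h3, coe_sum_smul]
      · rintro ⟨c, hc, hx⟩
        have h1 : (∑ i, c i • g i : KK ev z) ∈ LK ev z := by
          rw [hL]
          exact ⟨c, hc, rfl⟩
        have h2 : ((∑ i, c i • g i : KK ev z) : W) ∈ Nf ev z := h1
        rwa [coe_sum_smul, ← hx] at h2
    · intro σ hσ
      exact hcnS σ (hC σ hσ)
    · intro i
      -- a set of four elements which contains `i`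
      obtain ⟨τ, hiτ, -, hτ⟩ : ∃ τ : Finset (Fin 6), {i} ⊆ τ ∧ τ ⊆ Finset.univ ∧ τ.card = 4 :=
        Finset.exists_subsuperset_card_eq (Finset.subset_univ _) (by simp) (by simp)
      have hiτ' : i ∈ τ := hiτ (Finset.mem_singleton_self i)
      obtain ⟨σ₁, σ₂, hne, h1, h2, hc1, hc2, hodd⟩ := hB τ hτ
      have key : ∀ σ : Finset (Fin 6), σ ⊆ τ → σ.card = 3 → ¬ D1.cnS g σ ⊆ ZK ev z → i ∈ σ →
          ∃ σ' : Finset (Fin 6), σ'.card = 3 ∧ i ∉ σ' ∧
            ∀ x ∈ D1.cnS (fun i => (g i : W)) σ', x ≠ 0 → x ∈ T2set ev := by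
        intro σ _ hcard hod hi
        refine ⟨σᶜ, ?_, ?_, ?_⟩
        · rw [Finset.card_compl, hcard]
          rfl
        · rw [Finset.mem_compl, not_not]
          exact hi
        · refine hcnS _ ?_
          by_contra hcon
          exact hod ((hA σ hcard).2 hcon)
      by_cases hi1 : i ∈ σ₁
      · exact key σ₁ h1 hc1 ((hodd σ₁ h1 hc1).2 (Or.inl rfl)) hi1
      · by_cases hi2 : i ∈ σ₂
        · exact key σ₂ h2 hc2 ((hodd σ₂ h2 hc2).2 (Or.inr rfl)) hi2
        · exfalso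
          apply hne
          have h3 : ∀ σ : Finset (Fin 6), σ ⊆ τ → σ.card = 3 → i ∉ σ → σ = τ.erase i := by
            intro σ hσ hcard hi
            refine Finset.eq_of_subset_of_card_le (fun j hj => ?_) ?_
            · exact Finset.mem_erase.2 ⟨fun h => hi (h ▸ hj), hσ hj⟩
            · rw [Finset.card_erase_of_mem hiτ', hτ, hcard]
          rw [h3 σ₁ h1 hc1 hi1, h3 σ₂ h2 hc2 hi2]
  · right
    refine ⟨(KK ev z).subtype ∘ₗ Φ, fun c hc h0 => hΦ c hc ?_, fun l => ?_⟩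
    · exact Subtype.ext h0
    · constructor
      · intro hl
        obtain ⟨c, hc, hlc⟩ := (hL ⟨l, Submodule.subset_span hl⟩).1 hl
        exact ⟨c, hc, congrArg (fun k : KK ev z => (k : W)) hlc⟩
      · rintro ⟨c, hc, rfl⟩
        exact (hL (Φ c)).2 ⟨c, hc, rfl⟩

/-- simplicial cones are finitely generated -/
theorem Simp.fgc {g : Fin 6 → W} (h : Simp ev z g) : Ver.FGc (LinearMap.range ev) z := by
  refine ⟨6, fun i => ev (g i), fun i => ⟨LinearMap.mem_range_self ev _, (h.mem i).2,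
    (h.mem i).1⟩, ?_⟩
  rintro _ ⟨l, rfl⟩ hlz hl
  have h1 : l ∈ D1.cn g := h.gen ▸ (⟨hl, hlz⟩ : l ∈ Nf ev z)
  obtain ⟨c, hc, hlc⟩ := h1
  refine ⟨c, hc, ?_⟩
  rw [hlc, map_sum]
  exact Finset.sum_congr rfl fun i _ => map_smul _ _ _

end

end C3

end TightRP
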