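import Pool.Agent.Lib.MP_7cdc3e_gt.C.Conv
import Pool.Agent.Lib.MP_7cdc3e_gt.C.T45

/-!
# MP_7cdc3e_gt, C32: the second alternative of D1 is the input of D2 (helper43)
-/

open HoloConj

namespace TightRP

namespace C3

variable {ev : W →ₗ[ℝ] (RP3 → ℝ)} {z : RP3}

/-- a point with the cell `PSD_3` is a `PPt`, in the language of `C/T45` -/
theorem ppt_of_psdAt (hO : OutStmt) {F : Type} [Field F] (h : CSys F ev) (hz : Reg ev z)
    (hS : D1.Sys (LK ev z) (ZK ev z)) (hP : PsdAt ev z) :
    Nonempty (Ver.PPt (LinearMap.range ev) z) := by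
  obtain ⟨Φ, h1, h2⟩ := hP
  have hZ : ZK ev z = {k : Submodule.span ℝ (Nf ev z) | (k : W) = 0 ∨ (k : W) ∈ T2set ev} := by
    ext k
    constructor
    · intro hk
      by_cases h0 : k = 0
      · exact Or.inl (by rw [h0]; rfl)
      · exact Or.inr (hk h0)
    · rintro (hk | hk) h0
      · exact absurd (Subtype.ext hk) h0
      · exact hk
  have hS' : SysAt ev z := by
    rw [SysAt, ← hZ]
    exact hS
  exact ppt_core h.inj hS' (hO F ev h z hz) Φ h1 h2

end C3

end TightRP
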