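import Pool.Agent.Lib.MP_7cdc3e_gt.C.Def

/-!
# MP_7cdc3e_gt, C: next to a cell `PSD_3` no cell is finitely generated

Paper proof: `T6.md`, sections 5 and 3'.
-/

namespace TightRP

namespace Ver

variable {M : Type} {V : Submodule ℝ (M → ℝ)} {a b : M}

private theorem fg_par (c : Matrix (Fin 3) (Fin 3) ℝ) (y z : R3) :
    qf c (y + z) + qf c (y - z) = 2 * qf c y + 2 * qf c z := by
  simp only [qf, Fin.sum_univ_three, Pi.add_apply, Pi.sub_apply]
  ring

private theorem fg_zero (c : Matrix (Fin 3) (Fin 3) ℝ) (hc : c.IsSymm) (h : ∀ v, qf c v = 0) :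
    c = 0 := by
  have hs : ∀ i j, c i j = c j i := fun i j => by
    have := congrFun (congrFun hc j) i
    simpa [Matrix.transpose_apply] using this
  have h0 := h ![1, 0, 0]
  have h1 := h ![0, 1, 0]
  have h2 := h ![0, 0, 1]
  have h01 := h ![1, 1, 0]
  have h02 := h ![1, 0, 1]
  have h12 := h ![0, 1, 1]
  simp [qf, Fin.sum_univ_three] at h0 h1 h2 h01 h02 h12
  have e01 := hs 1 0
  have e02 := hs 2 0
  have e12 := hs 2 1
  ext i j
  fin_cases i <;> fin_cases j <;> simp <;> linarith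

/-- a positive semidefinite form which vanishes on two planes is zero -/
private theorem fg_two (c : Matrix (Fin 3) (Fin 3) ℝ) (hc : PSD c) (q q' : R3)
    (hq : ∀ y : R3, q 0 * y 0 + q 1 * y 1 + q 2 * y 2 = 0 → qf c y ≤ 0)
    (hq' : ∀ y : R3, q' 0 * y 0 + q' 1 * y 1 + q' 2 * y 2 = 0 → qf c y ≤ 0)
    (hD : 0 < (q 1 * q' 2 - q 2 * q' 1) ^ 2 + (q 2 * q' 0 - q 0 * q' 2) ^ 2 +
      (q 0 * q' 1 - q 1 * q' 0) ^ 2) : c = 0 := by
  apply fg_zero c hc.1
  intro v
  set D := (q 1 * q' 2 - q 2 * q' 1) ^ 2 + (q 2 * q' 0 - q 0 * q' 2) ^ 2 +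
    (q 0 * q' 1 - q 1 * q' 0) ^ 2 with hDd
  set α := (v 0 * q' 0 + v 1 * q' 1 + v 2 * q' 2) / D with hα
  have hαD : α * D = v 0 * q' 0 + v 1 * q' 1 + v 2 * q' 2 := div_mul_cancel₀ _ hD.ne'
  set w : R3 := fun i => α * ((q 0 ^ 2 + q 1 ^ 2 + q 2 ^ 2) * q' i -
    (q 0 * q' 0 + q 1 * q' 1 + q 2 * q' 2) * q i) with hw
  have h1 : qf c w ≤ 0 := by
    apply hq
    simp only [hw]
    ring
  have h2 : qf c (v - w) ≤ 0 := by
    apply hq'
    simp only [hw, Pi.sub_apply]
    have : q' 0 * (v 0 - α * ((q 0 ^ 2 + q 1 ^ 2 + q 2 ^ 2) * q' 0 -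
        (q 0 * q' 0 + q 1 * q' 1 + q 2 * q' 2) * q 0)) +
        q' 1 * (v 1 - α * ((q 0 ^ 2 + q 1 ^ 2 + q 2 ^ 2) * q' 1 -
        (q 0 * q' 0 + q 1 * q' 1 + q 2 * q' 2) * q 1)) +
        q' 2 * (v 2 - α * ((q 0 ^ 2 + q 1 ^ 2 + q 2 ^ 2) * q' 2 -
        (q 0 * q' 0 + q 1 * q' 1 + q 2 * q' 2) * q 2)) =
        (v 0 * q' 0 + v 1 * q' 1 + v 2 * q' 2) - α * D := by
      rw [hDd]
      ring
    rw [this, hαD, sub_self]
  have h3 := fg_par c w (v - w)
  have h4 : w + (v - w) = v := by abel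
  rw [h4] at h3
  have h5 := hc.2 (w - (v - w))
  have h6 := hc.2 v
  linarith

/-- two vectors in the kernel of a linear form -/
private theorem fg_ker (u : R3 →ₗ[ℝ] ℝ) (hu : u ≠ 0) : ∃ p r : R3, u p = 0 ∧ u r = 0 ∧
    0 < (p 1 * r 2 - p 2 * r 1) ^ 2 + (p 2 * r 0 - p 0 * r 2) ^ 2 +
      (p 0 * r 1 - p 1 * r 0) ^ 2 := by
  have hform : ∀ d : R3, u d = d 0 * u (Pi.single 0 1) + d 1 * u (Pi.single 1 1) +
      d 2 * u (Pi.single 2 1) := by
    intro d
    have hs : d = ∑ i, d i • (Pi.single i 1 : R3) := by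
      ext k
      simp [Finset.sum_apply, Pi.single_apply]
    conv_lhs => rw [hs]
    simp only [map_add, map_smul, smul_eq_mul, Fin.sum_univ_three]
  set x := u (Pi.single 0 1) with hx
  set y := u (Pi.single 1 1) with hy
  set z := u (Pi.single 2 1) with hz
  have hne : x ≠ 0 ∨ y ≠ 0 ∨ z ≠ 0 := by
    by_contra h
    push Not at h
    apply hu
    refine LinearMap.ext fun d => ?_
    rw [hform, h.1, h.2.1, h.2.2]
    simp
  rcases hne with h | h | h
  · refine ⟨![-y, x, 0], ![-z, 0, x], ?_, ?_, ?_⟩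
    · rw [hform]
      simp
      ring
    · rw [hform]
      simp
      ring
    · have h1 : 0 < (x * x) ^ 2 := by positivity
      simp
      nlinarith [sq_nonneg (x * z), sq_nonneg (y * x), sq_nonneg (x * y)]
  · refine ⟨![y, -x, 0], ![0, -z, y], ?_, ?_, ?_⟩
    · rw [hform]
      simp
      ring
    · rw [hform]
      simp
      ring
    · have h1 : 0 < (y * y) ^ 2 := by positivity
      simp
      nlinarith [sq_nonneg (x * y), sq_nonneg (y * z), sq_nonneg (y * x)]
  · refine ⟨![z, 0, -x], ![0, z, -y], ?_, ?_, ?_⟩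
    · rw [hform]
      simp
      ring
    · rw [hform]
      simp
      ring
    · have h1 : 0 < (z * z) ^ 2 := by positivity
      simp
      nlinarith [sq_nonneg (x * z), sq_nonneg (y * z), sq_nonneg (z * x), sq_nonneg (z * y)]

/-- a nonnegative function below a square is a multiple of it: the matrix vanishes on a plane -/
private theorem fg_below (A : PPt V a) (q : R3) (g : M → ℝ) (hgV : g ∈ V) (hg0 : ∀ x, 0 ≤ g x)
    (s : ℝ) (hs : 0 < s) (hle : ∀ x, s * g x ≤ A.S q q x) :
    ∃ c : Matrix (Fin 3) (Fin 3) ℝ, PSD c ∧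
      g = ∑ i, ∑ j, c i j • A.S (Pi.single i 1) (Pi.single j 1) ∧
      ∀ y : R3, q 0 * y 0 + q 1 * y 1 + q 2 * y 2 = 0 → qf c y ≤ 0 := by
  have hga : g a = 0 := by
    have h1 := hle a
    rw [A.ata] at h1
    have h2 := hg0 a
    nlinarith
  obtain ⟨c, hc, he⟩ := A.nonneg g hgV hga hg0
  refine ⟨c, hc, he, ?_⟩
  have hpsd : PSD (sq q - s • c) := by
    apply A.psd_of_nonneg
    · refine Matrix.IsSymm.sub ?_ (hc.1.smul s)
      ext i j
      simp only [Matrix.transpose_apply, sq]
      ring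
    · intro x
      have h1 : (∑ i, ∑ j, (sq q - s • c) i j • A.S (Pi.single i 1) (Pi.single j 1)) =
          A.S q q - s • g := by
        rw [A.expand q q, he]
        simp only [Matrix.sub_apply, Matrix.smul_apply, sq, sub_smul, Finset.sum_sub_distrib,
          Finset.smul_sum, smul_smul, smul_eq_mul]
      rw [h1]
      change 0 ≤ A.S q q x - s * g x
      linarith [hle x]
  intro y hy
  have h1 := hpsd.2 y
  have h2 : qf (sq q - s • c) y = (q 0 * y 0 + q 1 * y 1 + q 2 * y 2) ^ 2 - s * qf c y := by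
    simp only [qf, Fin.sum_univ_three, Matrix.sub_apply, Matrix.smul_apply, sq, smul_eq_mul]
    ring
  rw [h2, hy] at h1
  have h3 := hc.2 y
  nlinarith

/-- if `b` is not in the cell of `a` then the cone of `b` is not finitely generated -/
theorem not_fg (A : PPt V a) (hAb : ∃ p, A.S p p b ≠ 0) : ¬ FGc V b := by
  rintro ⟨n, g, hg, hgen⟩
  obtain ⟨u, hu⟩ := A.rk b
  have hu0 : u ≠ 0 := by
    rintro rfl
    obtain ⟨p, hp⟩ := hAb
    exact hp (by rw [hu]; simp)
  obtain ⟨p, r, hp, hr, hD⟩ := fg_ker u hu0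
  -- for every `t` there is a generator
  have hstep : ∀ t : ℝ, ∃ i : Fin n, g i ≠ 0 ∧ ∃ s : ℝ, 0 < s ∧
      ∀ x, s * g i x ≤ A.S (p + t • r) (p + t • r) x := by
    intro t
    have hqt : u (p + t • r) = 0 := by rw [map_add, map_smul, hp, hr, smul_zero, add_zero]
    obtain ⟨c, hc, he⟩ := hgen (A.S (p + t • r) (p + t • r)) (A.mem _ _)
      (by rw [hu, hqt, mul_zero]) (fun x => A.nn _ x)
    have hne : A.S (p + t • r) (p + t • r) ≠ 0 := by
      intro h0
      have h1 : sq (p + t • r) = 0 := by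
        apply A.indep
        · ext i j
          simp only [Matrix.transpose_apply, sq]
          ring
        · have := A.expand (p + t • r) (p + t • r)
          rw [h0] at this
          exact this.symm
      have h2 : p + t • r = 0 := by
        ext i
        have h3 : sq (p + t • r) i i = 0 := by rw [h1]; rfl
        exact mul_self_eq_zero.1 h3
      have h4 : ∀ i, p i = -(t * r i) := by
        intro i
        have := congrFun h2 i
        simp only [Pi.add_apply, Pi.smul_apply, smul_eq_mul, Pi.zero_apply] at this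
        linarith
      rw [h4 0, h4 1, h4 2] at hD
      ring_nf at hD
      exact lt_irrefl _ hD
    have hex : ∃ i, 0 < c i ∧ g i ≠ 0 := by
      by_contra hno
      push Not at hno
      apply hne
      rw [he]
      refine Finset.sum_eq_zero fun i _ => ?_
      rcases (hc i).lt_or_eq with h1 | h1
      · rw [hno i h1, smul_zero]
      · rw [← h1, zero_smul]
    obtain ⟨i, hi, hgi⟩ := hex
    refine ⟨i, hgi, c i, hi, fun x => ?_⟩
    have h1 := congrFun he x
    simp only [Finset.sum_apply, Pi.smul_apply, smul_eq_mul] at h1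
    rw [h1]
    exact Finset.single_le_sum (f := fun i => c i * g i x)
      (fun j _ => mul_nonneg (hc j) ((hg j).2.2 x)) (Finset.mem_univ i)
  choose i hi s hs hle using hstep
  obtain ⟨t, t', htt, hit⟩ := Finite.exists_ne_map_eq_of_infinite i
  obtain ⟨c, hc, he, hy⟩ := fg_below A _ (g (i t)) (hg _).1 (hg _).2.2 (s t) (hs t) (hle t)
  obtain ⟨c', hc', he', hy'⟩ := fg_below A _ (g (i t')) (hg _).1 (hg _).2.2 (s t') (hs t') (hle t')
  have hcc : c = c' := by
    apply sub_eq_zero.1
    apply A.indep _ (hc.1.sub hc'.1)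
    simp only [Matrix.sub_apply, sub_smul, Finset.sum_sub_distrib]
    rw [← he, ← he', hit, sub_self]
  subst hcc
  have h0 : c = 0 := by
    refine fg_two c hc _ _ hy hy' ?_
    have e : ((p + t • r) 1 * (p + t' • r) 2 - (p + t • r) 2 * (p + t' • r) 1) ^ 2 +
        ((p + t • r) 2 * (p + t' • r) 0 - (p + t • r) 0 * (p + t' • r) 2) ^ 2 +
        ((p + t • r) 0 * (p + t' • r) 1 - (p + t • r) 1 * (p + t' • r) 0) ^ 2 =
        (t' - t) ^ 2 * ((p 1 * r 2 - p 2 * r 1) ^ 2 + (p 2 * r 0 - p 0 * r 2) ^ 2 +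
          (p 0 * r 1 - p 1 * r 0) ^ 2) := by
      simp only [Pi.add_apply, Pi.smul_apply, smul_eq_mul]
      ring
    rw [e]
    have h1 : t' - t ≠ 0 := sub_ne_zero.2 htt.symm
    positivity
  apply hi t
  rw [he, h0]
  simp

/-- the symmetric matrices -/
private def symMat : Submodule ℝ (Matrix (Fin 3) (Fin 3) ℝ) where
  carrier := {c | c.IsSymm}
  add_mem' := fun h h' => h.add h'
  zero_mem' := Matrix.isSymm_zero
  smul_mem' := fun t _ h => h.smul t

/-- the functions of the symmetric matrices -/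
private noncomputable def evMap (A : PPt V a) : symMat →ₗ[ℝ] (M → ℝ) where
  toFun c := ∑ i, ∑ j, c.1 i j • A.S (Pi.single i 1) (Pi.single j 1)
  map_add' c d := by
    simp only [Submodule.coe_add, Matrix.add_apply, add_smul, Finset.sum_add_distrib]
  map_smul' t c := by
    simp only [Submodule.coe_smul, Matrix.smul_apply, smul_assoc, Finset.smul_sum,
      RingHom.id_apply]

private theorem evMap_inj (A : PPt V a) : Function.Injective (evMap A) := by
  rw [injective_iff_map_eq_zero]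
  intro c hc
  exact Subtype.ext (A.indep c.1 c.2 hc)

/-- the relation `b is not in the cell of a` is symmetric -/
theorem sep_symm (A : PPt V a) (B : PPt V b) (hAb : ∃ p, A.S p p b ≠ 0) :
    ∃ p, B.S p p a ≠ 0 := by
  by_contra hno
  push Not at hno
  have hdiag : ∀ p, B.S p p ∈ LinearMap.range (evMap A) := by
    intro p
    obtain ⟨c, hc, he⟩ := A.nonneg (B.S p p) (B.mem _ _) (hno p) (fun x => B.nn _ x)
    exact ⟨⟨c, hc.1⟩, he.symm⟩
  have hall : ∀ p r, B.S p r ∈ LinearMap.range (evMap A) := by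
    intro p r
    have h1 : B.S p r = (1 / 2 : ℝ) • (B.S (p + r) (p + r) - B.S p p - B.S r r) := by
      simp only [map_add, LinearMap.add_apply, B.symm r p]
      module
    rw [h1]
    exact Submodule.smul_mem _ _ (Submodule.sub_mem _ (Submodule.sub_mem _ (hdiag _) (hdiag _))
      (hdiag _))
  have hle : LinearMap.range (evMap B) ≤ LinearMap.range (evMap A) := by
    rintro _ ⟨c, rfl⟩
    change (∑ i, ∑ j, c.1 i j • B.S (Pi.single i 1) (Pi.single j 1)) ∈ LinearMap.range (evMap A)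
    exact Submodule.sum_mem _ fun i _ => Submodule.sum_mem _ fun j _ =>
      Submodule.smul_mem _ _ (hall _ _)
  have heq : LinearMap.range (evMap B) = LinearMap.range (evMap A) := by
    apply Submodule.eq_of_le_of_finrank_eq hle
    rw [LinearMap.finrank_range_of_inj (evMap_inj A), LinearMap.finrank_range_of_inj (evMap_inj B)]
  obtain ⟨p, hp⟩ := hAb
  apply hp
  have h1 : A.S p p ∈ LinearMap.range (evMap B) := by
    rw [heq]
    refine ⟨⟨sq p, ?_⟩, (A.expand p p).symm⟩
    change (sq p).IsSymm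
    ext i j
    simp only [Matrix.transpose_apply, sq]
    ring
  obtain ⟨c, hc⟩ := h1
  rw [← hc]
  change (∑ i, ∑ j, c.1 i j • B.S (Pi.single i 1) (Pi.single j 1)) b = 0
  simp only [Finset.sum_apply, Pi.smul_apply, B.ata, smul_zero, Finset.sum_const_zero]

end Ver

end TightRP
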