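import Pool.Agent.Lib.MP_7cdc3e_gt.C.PQ
import Pool.Agent.Lib.MP_7cdc3e_gt.C.Fg

/-!
# MP_7cdc3e_gt, C: one cell `PSD_3` and a dense set of good points give ten functions `u_i u_j`

Paper proof: `T6.md`.
-/

namespace TightRP

namespace Ver

variable {M : Type} [TopologicalSpace M] {V : Submodule ℝ (M → ℝ)}

omit [TopologicalSpace M] in
private theorem d2_pos {a : M} (A : PPt V a) (p : R3) (hp : p ≠ 0) : ∃ x, 0 < A.S p p x := by
  by_contra hno
  push Not at hno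
  have h0 : A.S p p = 0 := by
    funext x
    exact le_antisymm (hno x) (A.nn p x)
  have h1 : sq p = 0 := by
    apply A.indep
    · ext i j
      simp only [Matrix.transpose_apply, sq]
      ring
    · have := A.expand p p
      rw [h0] at this
      exact this.symm
  apply hp
  ext i
  have h3 : sq p i i = 0 := by rw [h1]; rfl
  exact mul_self_eq_zero.1 h3

omit [TopologicalSpace M] in
private theorem d2_sep {b c : M} (B : PPt V b) (l : M → ℝ) (hl : l ∈ V) (hlb : l b = 0)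
    (hl0 : ∀ x, 0 ≤ l x) (hlc : l c ≠ 0) : ∃ q, B.S q q c ≠ 0 := by
  by_contra hno
  push Not at hno
  obtain ⟨k, -, he⟩ := B.nonneg l hl hlb hl0
  obtain ⟨u, hu⟩ := B.rk c
  have h1 : ∀ p, u p = 0 := fun p => mul_self_eq_zero.1 (by rw [← hu]; exact hno p)
  apply hlc
  rw [he]
  simp only [Finset.sum_apply, Pi.smul_apply, hu, h1, zero_mul, smul_zero, Finset.sum_const_zero]

/-- `D2`: the main statement -/
theorem d2 (hV : HSys V) (h10 : Module.finrank ℝ V = 10) (Reg : Set M) (hReg : Dense Reg)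
    (h : ∀ z ∈ Reg, Nonempty (PPt V z) ∨ FGc V z) {a : M} (A : PPt V a) :
    ∃ e : Fin 4 → Fin 4 → M → ℝ, Quad V e := by
  have hopen : ∀ p, IsOpen {x | 0 < A.S p p x} := fun p =>
    isOpen_lt continuous_const (hV.cont _ (A.mem _ _))
  -- the second point
  obtain ⟨x₁, hx₁⟩ := d2_pos A (Pi.single 0 1) (by
    intro h0
    have := congrFun h0 0
    simp at this)
  obtain ⟨b, hb, hbR⟩ := hReg.exists_mem_open (hopen _) ⟨x₁, hx₁⟩
  have hAb : ∃ p, A.S p p b ≠ 0 := ⟨_, (ne_of_gt hbR)⟩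
  obtain ⟨B⟩ : Nonempty (PPt V b) := (h b hb).resolve_right (not_fg A hAb)
  -- the third point
  obtain ⟨u, hu⟩ := A.rk b
  obtain ⟨p, hp0, hp⟩ : ∃ p : R3, p ≠ 0 ∧ u p = 0 := by
    have h1 := LinearMap.ker_ne_bot_of_finrank_lt (f := u) (by simp)
    obtain ⟨p, hp, hp0⟩ := (Submodule.ne_bot_iff _).1 h1
    exact ⟨p, hp0, LinearMap.mem_ker.1 hp⟩
  obtain ⟨x₂, hx₂⟩ := d2_pos A p hp0
  obtain ⟨c, hc, hcR⟩ := hReg.exists_mem_open (hopen p) ⟨x₂, hx₂⟩
  have hcp : A.S p p c ≠ 0 := ne_of_gt hcR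
  have hbp : A.S p p b = 0 := by rw [hu, hp, mul_zero]
  have hAc : ∃ p, A.S p p c ≠ 0 := ⟨p, hcp⟩
  obtain ⟨C⟩ : Nonempty (PPt V c) := (h c hc).resolve_right (not_fg A hAc)
  have hBc : ∃ q, B.S q q c ≠ 0 := d2_sep B _ (A.mem p p) hbp (fun x => A.nn p x) hcp
  obtain ⟨e, P, hQ⟩ := ptrip A B C hAb (sep_symm A B hAb) hAc (sep_symm A C hAc) hBc
    (sep_symm B C hBc) ⟨p, hbp, hcp⟩
  exact ⟨e, quad_of hV h10 hQ⟩

/-- a tight system has connected half-spaces -/
theorem hsys_of (hConn : ConnStmt) {F : Type} [Field F] (hV : TSys F M V) : HSys V :=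
  ⟨hV.cpt, hV.cont, hV.const, fun l hl => (hConn F M V hV l hl).1⟩

end Ver

end TightRP
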