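import Pool.Agent.Lib.MP_7cdc3e_gt.A.Spec

/-!
# MP_7cdc3e_gt, C: points whose cell is the cone of positive semidefinite matrices

Paper proof: `T6.md` in this folder.
-/

namespace TightRP

namespace Ver

/-- the nonnegative functions of `V` which vanish at `a` are the positive semidefinite quadratic forms in
three functions, defined up to a common sign.  Here `S p r = u(p) u(r)` for linear forms `p`, `r`. -/
structure PPt {M : Type} (V : Submodule ℝ (M → ℝ)) (a : M) where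
  S : R3 →ₗ[ℝ] R3 →ₗ[ℝ] (M → ℝ)
  mem : ∀ p r, S p r ∈ V
  rk : ∀ x, ∃ u : R3 →ₗ[ℝ] ℝ, ∀ p r, S p r x = u p * u r
  ata : ∀ p r, S p r a = 0
  indep : ∀ c : Matrix (Fin 3) (Fin 3) ℝ, c.IsSymm →
    ∑ i, ∑ j, c i j • S (Pi.single i 1) (Pi.single j 1) = 0 → c = 0
  nonneg : ∀ l ∈ V, l a = 0 → (∀ x, 0 ≤ l x) → ∃ c : Matrix (Fin 3) (Fin 3) ℝ, PSD c ∧
    l = ∑ i, ∑ j, c i j • S (Pi.single i 1) (Pi.single j 1)

/-- the convex cone of the nonnegative functions of `V` which vanish at `a` is finitely generated -/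
def FGc {M : Type} (V : Submodule ℝ (M → ℝ)) (a : M) : Prop :=
  ∃ (n : ℕ) (g : Fin n → M → ℝ), (∀ i, g i ∈ V ∧ g i a = 0 ∧ ∀ x, 0 ≤ g i x) ∧
    ∀ l ∈ V, l a = 0 → (∀ x, 0 ≤ l x) → ∃ c : Fin n → ℝ, (∀ i, 0 ≤ c i) ∧ l = ∑ i, c i • g i

namespace PPt

variable {M : Type} {V : Submodule ℝ (M → ℝ)} {a : M}

theorem symm (A : PPt V a) (p r : R3) : A.S p r = A.S r p := by
  funext x
  obtain ⟨u, hu⟩ := A.rk x
  rw [hu, hu, mul_comm]

theorem nn (A : PPt V a) (p : R3) (x : M) : 0 ≤ A.S p p x := by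
  obtain ⟨u, hu⟩ := A.rk x
  rw [hu]
  exact mul_self_nonneg _

theorem expand (A : PPt V a) (p r : R3) :
    A.S p r = ∑ i, ∑ j, (p i * r j) • A.S (Pi.single i 1) (Pi.single j 1) := by
  have hs : ∀ q : R3, q = ∑ i, q i • (Pi.single i 1 : R3) := by
    intro q
    ext k
    simp [Finset.sum_apply, Pi.single_apply]
  conv_lhs => rw [hs p, hs r]
  simp only [map_sum, map_smul, LinearMap.sum_apply, LinearMap.smul_apply, Finset.smul_sum, smul_smul]
  rw [Finset.sum_comm]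
  refine Finset.sum_congr rfl fun i _ => Finset.sum_congr rfl fun j _ => ?_
  rw [mul_comm]

theorem ev_apply (A : PPt V a) (x : M) (u : R3 →ₗ[ℝ] ℝ) (hu : ∀ p r, A.S p r x = u p * u r)
    (c : Matrix (Fin 3) (Fin 3) ℝ) :
    (∑ i, ∑ j, c i j • A.S (Pi.single i 1) (Pi.single j 1)) x = qf c (fun i => u (Pi.single i 1)) := by
  simp only [qf, Finset.sum_apply, Pi.smul_apply, hu, smul_eq_mul]

theorem ev_mem (A : PPt V a) (c : Matrix (Fin 3) (Fin 3) ℝ) :
    (∑ i, ∑ j, c i j • A.S (Pi.single i 1) (Pi.single j 1)) ∈ V :=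
  Submodule.sum_mem _ fun _ _ => Submodule.sum_mem _ fun _ _ => V.smul_mem _ (A.mem _ _)

/-- a symmetric matrix whose function is nonnegative is positive semidefinite -/
theorem psd_of_nonneg (A : PPt V a) (c : Matrix (Fin 3) (Fin 3) ℝ) (hc : c.IsSymm)
    (h : ∀ x, 0 ≤ (∑ i, ∑ j, c i j • A.S (Pi.single i 1) (Pi.single j 1)) x) : PSD c := by
  obtain ⟨c', hc', he⟩ := A.nonneg _ (A.ev_mem c) (by
    simp only [Finset.sum_apply, Pi.smul_apply, A.ata, smul_zero, Finset.sum_const_zero]) h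
  have h0 : c - c' = 0 := by
    apply A.indep _ (hc.sub hc'.1)
    simp only [Matrix.sub_apply, sub_smul, Finset.sum_sub_distrib]
    rw [← he, sub_self]
  rw [sub_eq_zero.1 h0]
  exact hc'

end PPt

end Ver

end TightRP
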