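import Pool.Agent.Lib.MP_7cdc3e_gt.C.Def
import Pool.Agent.Lib.MP_7cdc3e_gt.A.Sys
import Pool.Agent.Lib.MP_7cdc3e_gt.RPTop
import Pool.Agent.Lib.MP_7cdc3e_gt.RPHom
import Pool.Agent.Lib.MP_7cdc3e_gt.H0Path
import Pool.Agent.Lib.MP_7cdc3e_gt.Contr
import Pool.Agent.Lib.MP_7cdc3e_gt.MVUp
import Pool.Agent.Lib.MP_7cdc3e_gt.Homeo
import Pool.Agent.Lib.MP_7cdc3e_gt.H0Low
import Pool.Agent.Lib.MP_7cdc3e_gt.Q.Sys2
import Pool.Agent.Lib.AS.Pm
import Pool.Agent.Lib.AS.SpecCup

/-!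
# MP_7cdc3e_gt, C32: common definitions of the sections T1 to T7

The system of a tight map `f : RP³ → E⁹`: the space `W` of dimension ten and the injective linear map
`ev : W → (RP³ → ℝ)` whose range is the space of the functions `l ∘ f + c`.

* `Cn ev`: the cone of the `g` with `ev g ≥ 0`;  `Nf ev z`: the `g ∈ Cn ev` with `ev g z = 0`;
* `IsFace ev Φ`: faces of `Cn ev` (algebraic);  `Xz ev Φ`: the common zeros;  `Fc ev g`: the smallest
  face which contains `g`;  `dm Φ`: the dimension of the span;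
* `up A`: the preimage in the sphere `Sp` of a subset `A` of `RP³`;  `Even A`: the double cover
  `S³ → RP³` is trivial over `A`;
* `R3 ev g` (rank three, type 0), `R1 ev g` (rank one, type 2), `T2set ev`, `Reg ev z`.
-/

set_option autoImplicit false

open HoloConj Pool.Agent.Lib.SingHom Module

namespace TightRP

namespace C3

/-- Euclidean four-space -/
abbrev E4 : Type := EuclideanSpace ℝ (Fin 4)

/-- the space of functions -/
abbrev W : Type := EuclideanSpace ℝ (Fin 10)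

/-! ## The system -/

theorem cptRP3 : CompactSpace RP3 := inferInstanceAs (CompactSpace (Quotient antipodal))

/-- the system of a tight map from `RP³` to `E⁹`, over a field of characteristic two -/
structure CSys (F : Type) [Field F] (ev : W →ₗ[ℝ] (RP3 → ℝ)) : Prop where
  char2 : (2 : F) = 0
  cont : ∀ g, Continuous (ev g)
  inj : Function.Injective ev
  one : ∃ u, ev u = fun _ => 1
  loc : ∀ x : RP3, ∃ U ∈ nhds x, ∀ y ∈ U, ∀ z ∈ U, (∀ g, ev g y = ev g z) → y = z
  tight : ∀ g, ∀ n ≤ 1, HInj F {x | 0 < ev g x} n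
  tight2 : ∀ g, HInj F {x | 0 < ev g x} 2

/-- `range ev` is a tight space of functions in the sense of part A -/
theorem CSys.tsys {F : Type} [Field F] {ev : W →ₗ[ℝ] (RP3 → ℝ)} (h : CSys F ev) :
    Ver.TSys F RP3 (LinearMap.range ev) := by
  have hdim : finrank ℝ (LinearMap.range ev) = 10 := by
    rw [LinearMap.finrank_range_of_inj h.inj, finrank_euclideanSpace_fin]
  obtain ⟨u, hu⟩ := h.one
  exact {
    t2 := rTop.1
    cpt := cptRP3
    pc := rTop.2.2
    euc := rTop.2.1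
    rk1 := rHom tContr tH0Path (tMVUp tContr tH0Path) tHomeo F
    fin := inferInstance
    dim := hdim.ge
    cont := by
      rintro _ ⟨g, rfl⟩
      exact h.cont g
    const := fun c => ⟨c • u, by
      rw [map_smul, hu]
      funext x
      simp⟩
    inj := by
      rintro _ ⟨g, rfl⟩ n hn
      exact h.tight g n hn
    loc := by
      intro x
      obtain ⟨U, hU, h1⟩ := h.loc x
      refine ⟨U, hU, fun y hy z hz hyz => h1 y hy z hz fun g => hyz _ ⟨g, rfl⟩⟩ }

/-- the system of a tight map -/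
theorem exists_csys {F : Type} [Field F] (hF : (2 : F) = 0) {f : RP3 → EuclideanSpace ℝ (Fin 9)}
    (hf : Continuous f) (hi : LocInj f) (hs : Substantial f) (ht2 : TightUpTo 2 F f) :
    ∃ ev : W →ₗ[ℝ] (RP3 → ℝ), CSys F ev ∧ LinearMap.range ev = Ver.aff f := by
  have i1 := rTop.1
  have i2 := cptRP3
  have i3 := rTop.2.2
  have ht : TightUpTo 1 F f := fun l c hl n hn => ht2 l c hl n (hn.trans (by norm_num))
  obtain ⟨hV, hfin⟩ := Ver.tSys F RP3 rTop.2.1
    (rHom tContr tH0Path (tMVUp tContr tH0Path) tHomeo F) 9 f le_rfl hf hi hs ht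
  have i4 : FiniteDimensional ℝ (Ver.aff f) := hV.fin
  have e : W ≃ₗ[ℝ] Ver.aff f := LinearEquiv.ofFinrankEq _ _ (by
    rw [hfin, finrank_euclideanSpace_fin])
  have hr : LinearMap.range ((Ver.aff f).subtype ∘ₗ e.toLinearMap) = Ver.aff f := by
    rw [LinearMap.range_comp, LinearEquiv.range, Submodule.map_top, Submodule.range_subtype]
  refine ⟨(Ver.aff f).subtype ∘ₗ e.toLinearMap, ?_, hr⟩
  exact {
    char2 := hF
    cont := fun g => hV.cont _ (e g).2
    inj := fun x y hxy => e.injective (Subtype.ext hxy)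
    one := by
      refine ⟨e.symm ⟨fun _ => 1, hV.const 1⟩, ?_⟩
      simp
    loc := by
      intro x
      obtain ⟨U, hU, h1⟩ := hV.loc x
      refine ⟨U, hU, fun y hy z hz hyz => h1 y hy z hz fun l hl => ?_⟩
      have h2 := hyz (e.symm ⟨l, hl⟩)
      simpa using h2
    tight := fun g n hn => hV.inj _ (e g).2 n hn
    tight2 := by
      intro g
      obtain ⟨l, c, hlc⟩ := (e g).2
      have h1 := ((Q.qSys2 tH0Low tH0Path) F RP3 9 f hf ht2).2 l (-c) 2 le_rfl
      have h2 : {x | 0 < ((Ver.aff f).subtype ∘ₗ e.toLinearMap) g x} = Q.Hs f l (-c) := by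
        ext x
        have h3 : ((Ver.aff f).subtype ∘ₗ e.toLinearMap) g x = l (f x) + c := congrFun hlc x
        show 0 < ((Ver.aff f).subtype ∘ₗ e.toLinearMap) g x ↔ -c < l (f x)
        rw [h3]
        constructor
        · intro h4; linarith
        · intro h4; linarith
      rw [h2]
      exact h1 }

/-! ## Cones and faces -/

section cones

variable (ev : W →ₗ[ℝ] (RP3 → ℝ))

/-- the cone of the nonnegative functions -/
def Cn : Set W := {g | ∀ x, 0 ≤ ev g x}

/-- the nonnegative functions which vanish at `z` -/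
def Nf (z : RP3) : Set W := {g | g ∈ Cn ev ∧ ev g z = 0}

/-- the common zeros -/
def Xz (Φ : Set W) : Set RP3 := {x | ∀ g ∈ Φ, ev g x = 0}

/-- `Φ` is a face of the cone `Cn ev` -/
structure IsFace (Φ : Set W) : Prop where
  sub : Φ ⊆ Cn ev
  zero : (0 : W) ∈ Φ
  add : ∀ g ∈ Φ, ∀ h ∈ Φ, g + h ∈ Φ
  smul : ∀ (t : ℝ), 0 ≤ t → ∀ g ∈ Φ, t • g ∈ Φ
  ext : ∀ g ∈ Cn ev, ∀ h ∈ Cn ev, g + h ∈ Φ → g ∈ Φ

/-- the smallest face which contains `g ∈ Cn ev` -/
def Fc (g : W) : Set W := {h | h ∈ Cn ev ∧ ∃ t : ℝ, 0 < t ∧ g - t • h ∈ Cn ev}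

/-- `g` is in the relative interior of the face `Φ` -/
def RI (Φ : Set W) (g : W) : Prop := g ∈ Φ ∧ ∀ h ∈ Φ, ∃ t : ℝ, 0 < t ∧ g - t • h ∈ Φ

end cones

/-- the dimension of a cone -/
noncomputable def dm (Φ : Set W) : ℕ := finrank ℝ (Submodule.span ℝ Φ)

/-! ## The sphere and the projective space -/

/-- the unit sphere of `ℝ⁴` -/
abbrev Sp : Set E4 := Metric.sphere (0 : E4) 1

theorem single_mem_Sp : (EuclideanSpace.single 0 1 : E4) ∈ Sp := by
  rw [mem_sphere_zero_iff_norm, PiLp.norm_single, norm_one]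

open Classical in
/-- the projection `S³ → RP³` (with an arbitrary value outside the sphere) -/
noncomputable def pj (x : E4) : RP3 :=
  if h : x ∈ Sp then Quotient.mk antipodal ⟨x, h⟩
  else Quotient.mk antipodal ⟨EuclideanSpace.single 0 1, single_mem_Sp⟩

theorem pj_mk {x : E4} (h : x ∈ Sp) : pj x = Quotient.mk antipodal ⟨x, h⟩ := dif_pos h

theorem neg_mem_Sp {x : E4} (h : x ∈ Sp) : -x ∈ Sp := by
  rw [mem_sphere_zero_iff_norm] at h ⊢
  rw [norm_neg, h]

theorem ne_zero_of_mem_Sp {x : E4} (h : x ∈ Sp) : x ≠ 0 := by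
  rintro rfl
  rw [mem_sphere_zero_iff_norm, norm_zero] at h
  exact zero_ne_one h

theorem pj_neg {x : E4} (h : x ∈ Sp) : pj (-x) = pj x := by
  rw [pj_mk h, pj_mk (neg_mem_Sp h)]
  exact Quotient.sound (Or.inr rfl)

theorem pj_eq_iff {x y : E4} (hx : x ∈ Sp) (hy : y ∈ Sp) : pj x = pj y ↔ x = y ∨ x = -y := by
  rw [pj_mk hx, pj_mk hy]
  constructor
  · intro h
    exact Quotient.exact h
  · intro h
    exact Quotient.sound h

theorem pj_surj (z : RP3) : ∃ x ∈ Sp, pj x = z := by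
  obtain ⟨⟨x, hx⟩, rfl⟩ := Quotient.exists_rep z
  exact ⟨x, hx, pj_mk hx⟩

theorem pj_cont : ContinuousOn pj Sp := by
  rw [continuousOn_iff_continuous_domRestrict]
  have h : Sp.domRestrict pj = fun x : Sp => (Quotient.mk antipodal x : RP3) := by
    funext x
    exact pj_mk x.2
  rw [h]
  exact continuous_quotient_mk'

/-- the preimage in the sphere of a set in the projective space -/
def up (A : Set RP3) : Set E4 := {x | x ∈ Sp ∧ pj x ∈ A}

theorem up_sub (A : Set RP3) : up A ⊆ Sp := fun _ h => h.1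

theorem up_mono {A B : Set RP3} (h : A ⊆ B) : up A ⊆ up B := fun _ hx => ⟨hx.1, h hx.2⟩

theorem up_inter (A B : Set RP3) : up (A ∩ B) = up A ∩ up B := by
  ext x
  exact ⟨fun h => ⟨⟨h.1, h.2.1⟩, h.1, h.2.2⟩, fun h => ⟨h.1.1, h.1.2, h.2.2⟩⟩

theorem up_union (A B : Set RP3) : up (A ∪ B) = up A ∪ up B := by
  ext x
  constructor
  · rintro ⟨h, h1 | h1⟩
    · exact Or.inl ⟨h, h1⟩
    · exact Or.inr ⟨h, h1⟩
  · rintro (⟨h, h1⟩ | ⟨h, h1⟩)
    · exact ⟨h, Or.inl h1⟩
    · exact ⟨h, Or.inr h1⟩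

theorem up_univ : up Set.univ = Sp := by
  ext x
  exact ⟨fun h => h.1, fun h => ⟨h, trivial⟩⟩

theorem up_empty : up ∅ = ∅ := by
  ext x
  exact ⟨fun h => h.2, fun h => h.elim⟩

theorem neg_mem_up {A : Set RP3} {x : E4} (h : x ∈ up A) : -x ∈ up A :=
  ⟨neg_mem_Sp h.1, by rw [pj_neg h.1]; exact h.2⟩

theorem zero_notMem_up (A : Set RP3) : (0 : E4) ∉ up A := fun h => ne_zero_of_mem_Sp h.1 rfl

theorem zero_notMem_Sp : (0 : E4) ∉ Sp := fun h => ne_zero_of_mem_Sp h rfl

theorem up_iv (A : Set RP3) : AS.IvS (AS.Pm E4) (up A) :=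
  AS.ivS_Pm.mpr fun _ hx => neg_mem_up hx

theorem up_closed {A : Set RP3} (hA : IsClosed A) : IsClosed (up A) := by
  have h : up A = Sp ∩ pj ⁻¹' A := rfl
  rw [h]
  exact pj_cont.preimage_isClosed_of_isClosed Metric.isClosed_sphere hA

theorem up_compact {A : Set RP3} (hA : IsClosed A) : IsCompact (up A) :=
  (isCompact_sphere (0 : E4) 1).of_isClosed_subset (up_closed hA) (up_sub A)

theorem neg_ne {x : E4} (hx : x ≠ 0) : -x ≠ x := by
  intro h1
  have h2 : x + x = 0 := by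
    nth_rewrite 1 [← h1]
    exact neg_add_cancel x
  rw [← two_smul ℝ x, smul_eq_zero] at h2
  rcases h2 with h2 | h2
  · norm_num at h2
  · exact hx h2

theorem fr_Pm {C : Set E4} (hC : (0 : E4) ∉ C) : AS.Fr (AS.Pm E4) C := by
  rintro g (rfl | rfl) x hx h
  · rfl
  · exact (neg_ne (fun h2 => hC (h2 ▸ hx)) h).elim

theorem up_ok {A : Set RP3} (hA : IsClosed A) : AS.Ok (AS.Pm E4) (up A) :=
  ⟨up_compact hA, up_iv A, fr_Pm (zero_notMem_up A)⟩

/-- the double cover `S³ → RP³` is trivial over `A`: an open set contains exactly one of `x`, `-x` for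
all `x` over `A` -/
def Even (A : Set RP3) : Prop := ∃ U : Set E4, IsOpen U ∧ ∀ x ∈ up A, (x ∈ U ↔ -x ∉ U)

theorem Even.mono {A B : Set RP3} (h : Even B) (hAB : A ⊆ B) : Even A := by
  obtain ⟨U, hU, h1⟩ := h
  exact ⟨U, hU, fun x hx => h1 x (up_mono hAB hx)⟩

/-! ## Ranks, regular points -/

section ranks

variable (ev : W →ₗ[ℝ] (RP3 → ℝ))

/-- the zero set of a function -/
def Zr (g : W) : Set RP3 := {x | ev g x = 0}

/-- rank three (type 0): a nonnegative function with a nonempty even zero set -/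
def Rk3 (g : W) : Prop := g ∈ Cn ev ∧ (Zr ev g).Nonempty ∧ Even (Zr ev g)

/-- rank one (type 2): the functions `g ≥ 0` with a zero, `g ≠ 0`, such that `{g > 0}` is even -/
def T2set : Set W := {g | g ∈ Cn ev ∧ g ≠ 0 ∧ (Zr ev g).Nonempty ∧ Even {x | 0 < ev g x}}

/-- regular points: `Nf z` has dimension six and contains a function with even zero set -/
def Reg (z : RP3) : Prop := (∃ g ∈ Nf ev z, Even (Zr ev g)) ∧ dm (Nf ev z) = 6

end ranks

/-! ## What T1 and T2 export -/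

/-- (S0): every point is a zero of a function of rank three -/
def S0Stmt : Prop := ∀ (F : Type) [Field F] (ev : W →ₗ[ℝ] (RP3 → ℝ)), CSys F ev →
  ∀ z, ∃ g ∈ Nf ev z, Even (Zr ev g)

/-- the functions separate the points -/
def SepStmt : Prop := ∀ (F : Type) [Field F] (ev : W →ₗ[ℝ] (RP3 → ℝ)), CSys F ev →
  ∀ y z, (∀ g, ev g y = ev g z) → y = z

/-- (FILL): even zero sets are mapped to convex sets -/
def FillStmt : Prop := ∀ (F : Type) [Field F] (ev : W →ₗ[ℝ] (RP3 → ℝ)), CSys F ev →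
  ∀ g, Rk3 ev g → ∀ x ∈ Zr ev g, ∀ y ∈ Zr ev g, ∀ s t : ℝ, 0 ≤ s → 0 ≤ t → s + t = 1 →
    ∃ z ∈ Zr ev g, ∀ h, ev h z = s * ev h x + t * ev h y

/-- (J3): faces of rank three have dimension at least six -/
def J3Stmt : Prop := ∀ (F : Type) [Field F] (ev : W →ₗ[ℝ] (RP3 → ℝ)), CSys F ev →
  ∀ Φ, IsFace ev Φ → (∃ g ∈ Φ, Rk3 ev g) → 6 ≤ dm Φ

/-- (2c): for a regular point `z` and `y` outside of the cell of `z` the face `Nf z ∩ Nf y` is not thin -/
def OutStmt : Prop := ∀ (F : Type) [Field F] (ev : W →ₗ[ℝ] (RP3 → ℝ)), CSys F ev →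
  ∀ z, Reg ev z → ∀ y, y ∉ Xz ev (Nf ev z) → ∃ g ∈ Nf ev z, ev g y = 0 ∧ g ≠ 0 ∧ g ∉ T2set ev

/-! ## Products with the sphere -/

section product

variable (B : Type) [MetricSpace B]

/-- the antipodal map on the second factor -/
def ng2 : (B × E4) ≃ᵢ (B × E4) where
  toFun p := (p.1, -p.2)
  invFun p := (p.1, -p.2)
  left_inv p := by simp
  right_inv p := by simp
  isometry_toFun := by
    rw [isometry_iff_dist_eq]
    intro p q
    rw [Prod.dist_eq, Prod.dist_eq, dist_neg_neg]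

variable {B} in
theorem ng2_apply (p : B × E4) : ng2 B p = (p.1, -p.2) := rfl

theorem ng2_mul_self : ng2 B * ng2 B = 1 := by
  ext p
  · rfl
  · show (-(-p.2)) _ = _
    rw [neg_neg]
    rfl

/-- the group `{1, -1}` acting on the second factor -/
def Pm2 : Subgroup ((B × E4) ≃ᵢ (B × E4)) where
  carrier := {g | g = 1 ∨ g = ng2 B}
  one_mem' := Or.inl rfl
  mul_mem' := by
    rintro a b (rfl | rfl) (rfl | rfl)
    · exact Or.inl (one_mul _)
    · exact Or.inr (one_mul _)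
    · exact Or.inr (mul_one _)
    · exact Or.inl (ng2_mul_self B)
  inv_mem' := by
    rintro a (rfl | rfl)
    · exact Or.inl inv_one
    · exact Or.inr (inv_eq_of_mul_eq_one_left (ng2_mul_self B))

variable {B}

theorem mem_Pm2 {g : (B × E4) ≃ᵢ (B × E4)} : g ∈ Pm2 B ↔ g = 1 ∨ g = ng2 B := Iff.rfl

theorem ng2_mem : ng2 B ∈ Pm2 B := Or.inr rfl

/-- subsets of `B × S³`, invariant under the antipodal map of the second factor -/
structure In2 (E : Set (B × E4)) : Prop where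
  sub : ∀ p ∈ E, p.2 ∈ Sp
  neg : ∀ p ∈ E, (p.1, -p.2) ∈ E

theorem In2.iv {E : Set (B × E4)} (h : In2 E) : AS.IvS (Pm2 B) E := by
  rintro g (rfl | rfl) p hp
  · exact hp
  · exact h.neg p hp

theorem In2.fr {E : Set (B × E4)} (h : In2 E) : AS.Fr (Pm2 B) E := by
  rintro g (rfl | rfl) p hp h1
  · rfl
  · exact (neg_ne (ne_zero_of_mem_Sp (h.sub p hp)) (congrArg Prod.snd h1)).elim

theorem In2.ok {E : Set (B × E4)} (h : In2 E) (hc : IsCompact E) : AS.Ok (Pm2 B) E :=
  ⟨hc, h.iv, h.fr⟩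

/-- the second projection is admissible -/
theorem adm_snd {E : Set (B × E4)} {C : Set E4} (D : Set E4) (h : ∀ p ∈ E, p.2 ∈ C) :
    AS.Adm (Pm2 B) (Prod.snd ⁻¹' D) E (AS.Pm E4) D C (Prod.snd : B × E4 → E4) := by
  refine ⟨h, fun p _ hp => hp, fun ε hε => ⟨ε, hε, fun p _ q _ hd => ?_⟩, ?_⟩
  · exact (le_max_right _ _).trans_lt hd
  · rintro g (rfl | rfl)
    · exact ⟨1, Or.inl rfl, fun p => rfl⟩
    · exact ⟨AS.ng E4, Or.inr rfl, fun p => rfl⟩

/-- the first projection is admissible -/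
theorem adm_fst {E : Set (B × E4)} {C : Set B} (D : Set B) (h : ∀ p ∈ E, p.1 ∈ C) :
    AS.Adm (Pm2 B) (Prod.fst ⁻¹' D) E (⊥ : Subgroup (B ≃ᵢ B)) D C (Prod.fst : B × E4 → B) := by
  refine ⟨h, fun p _ hp => hp, fun ε hε => ⟨ε, hε, fun p _ q _ hd => ?_⟩, ?_⟩
  · exact (le_max_left _ _).trans_lt hd
  · rintro g (rfl | rfl)
    · exact ⟨1, Subgroup.one_mem _, fun p => rfl⟩
    · exact ⟨1, Subgroup.one_mem _, fun p => rfl⟩

end product

end C3

end TightRP
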