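import Pool.Agent.Lib.MP_7cdc3e_gt.T0.Exp
import Pool.Agent.Lib.AS.R3.Dic

/-!
# MP_7cdc3e_gt, C32: topology of even sets

* `even_nbhd`: a closed even set has an open even neighbourhood;
* `even_le`: if `{f ≤ 0}` is even then `{f ≤ d}` is even for some `d > 0`;
* `not_even_of_conn`: a connected subset of `up A` which contains `x` and `-x` shows that `A` is odd;
* `exists_conn`: if `V` is open, connected and odd then there is such a compact connected set;
* `odd_ge`: if `{f > 0}` is connected and odd then `{f ≥ d}` is odd for some `d > 0`.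
-/

set_option autoImplicit false

open HoloConj Pool.Agent.Lib.SingHom Module

namespace TightRP

namespace C3

open AS.R3 (rad rad_cont rad_S rad_mem rad_smul)

theorem pj_neg_all (x : E4) : pj (-x) = pj x := by
  by_cases hx : x ∈ Sp
  · exact pj_neg hx
  · have h1 : -x ∉ Sp := fun h => hx (by
      have := neg_mem_Sp h
      rwa [neg_neg] at this)
    rw [pj, pj, dif_neg hx, dif_neg h1]

/-- `A` is even if it is covered by `N` and `-N`, where `N` is open and disjoint from `-N` -/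
theorem even_of_disj {A : Set RP3} {N : Set E4} (hN : IsOpen N) (h1 : ∀ x, x ∈ N → -x ∉ N)
    (h2 : ∀ x ∈ up A, x ∈ N ∨ -x ∈ N) : Even A := by
  refine ⟨N, hN, fun x hx => ⟨h1 x, fun h => ?_⟩⟩
  rcases h2 x hx with h3 | h3
  · exact h3
  · exact (h h3).elim

theorem exists_disj {A : Set RP3} (hA : IsClosed A) (hE : Even A) :
    ∃ N : Set E4, IsOpen N ∧ (∀ x, x ∈ N → -x ∉ N) ∧ ∀ x ∈ up A, x ∈ N ∨ -x ∈ N := by
  obtain ⟨U, hU, h1⟩ := hE
  have hc : IsCompact (up A) := up_compact hA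
  -- the two halves
  have e1 : up A ∩ U = up A ∩ {x | -x ∉ U} := by
    ext x
    constructor
    · rintro ⟨h2, h3⟩
      exact ⟨h2, (h1 x h2).mp h3⟩
    · rintro ⟨h2, h3⟩
      exact ⟨h2, (h1 x h2).mpr h3⟩
  have e2 : IsClosed {x : E4 | -x ∉ U} := hU.isClosed_compl.preimage continuous_neg
  have c1 : IsCompact (up A ∩ U) := by
    rw [e1]
    exact hc.inter_right e2
  have c2 : IsCompact (up A ∩ Uᶜ) := hc.inter_right hU.isClosed_compl
  have hd : Disjoint (up A ∩ U) (up A ∩ Uᶜ) :=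
    Set.disjoint_left.mpr fun x hx hx' => hx'.2 hx.2
  obtain ⟨O₁, O₂, o1, o2, s1, s2, hO⟩ := SeparatedNhds.of_isCompact_isCompact c1 c2 hd
  refine ⟨O₁ ∩ (fun x : E4 => -x) ⁻¹' O₂, o1.inter (o2.preimage continuous_neg), ?_, ?_⟩
  · rintro x ⟨hx1, -⟩ ⟨-, hx4⟩
    have h3 : x ∈ O₂ := by
      have h4 : - -x ∈ O₂ := hx4
      rwa [neg_neg] at h4
    exact Set.disjoint_left.mp hO hx1 h3
  · have key : ∀ x ∈ up A, x ∈ U → x ∈ O₁ ∩ (fun x : E4 => -x) ⁻¹' O₂ := fun x hx hxU =>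
      ⟨s1 ⟨hx, hxU⟩, s2 ⟨neg_mem_up hx, (h1 x hx).mp hxU⟩⟩
    intro x hx
    by_cases hxU : x ∈ U
    · exact Or.inl (key x hx hxU)
    · right
      refine key (-x) (neg_mem_up hx) ?_
      by_contra h3
      exact hxU ((h1 x hx).mpr h3)

theorem pj_preimage_closed {A : Set RP3} (h : IsClosed (up A)) : IsClosed A := by
  have h1 : A = pj '' (up A) := by
    ext z
    constructor
    · intro hz
      obtain ⟨x, hx, rfl⟩ := pj_surj z
      exact ⟨x, ⟨hx, hz⟩, rfl⟩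
    · rintro ⟨x, hx, rfl⟩
      exact hx.2
  have h2 : IsCompact (up A) := (isCompact_sphere (0 : E4) 1).of_isClosed_subset h (up_sub A)
  have i1 : T2Space RP3 := rTop.1
  rw [h1]
  exact (h2.image_of_continuousOn (pj_cont.mono (up_sub A))).isClosed

/-- a closed even set has an open even neighbourhood -/
theorem even_nbhd {A : Set RP3} (hA : IsClosed A) (hE : Even A) :
    ∃ O : Set RP3, IsOpen O ∧ A ⊆ O ∧ Even O := by
  obtain ⟨N, hN, h1, h2⟩ := exists_disj hA hE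
  -- the complement of the neighbourhood
  let B : Set RP3 := {z | ∃ x ∈ Sp, pj x = z ∧ (x ∈ N ∨ -x ∈ N)}
  have hB : up Bᶜ = Sp ∩ (Nᶜ ∩ (fun x : E4 => -x) ⁻¹' Nᶜ) := by
    ext x
    constructor
    · rintro ⟨h3, h4⟩
      exact ⟨h3, fun h5 => h4 ⟨x, h3, rfl, Or.inl h5⟩, fun h5 => h4 ⟨x, h3, rfl, Or.inr h5⟩⟩
    · rintro ⟨h3, h4, h5⟩
      refine ⟨h3, ?_⟩
      rintro ⟨y, hy, h6, h7⟩
      rcases (pj_eq_iff hy h3).mp h6 with rfl | rfl
      · rcases h7 with h7 | h7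
        · exact h4 h7
        · exact h5 h7
      · rw [neg_neg] at h7
        rcases h7 with h7 | h7
        · exact h5 h7
        · exact h4 h7
  have hBc : IsClosed (up Bᶜ) := by
    rw [hB]
    exact Metric.isClosed_sphere.inter
      (hN.isClosed_compl.inter (hN.isClosed_compl.preimage continuous_neg))
  refine ⟨B, ?_, ?_, ?_⟩
  · rw [← isClosed_compl_iff]
    exact pj_preimage_closed hBc
  · intro z hz
    obtain ⟨x, hx, rfl⟩ := pj_surj z
    exact ⟨x, hx, rfl, h2 x ⟨hx, hz⟩⟩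
  · refine even_of_disj hN h1 ?_
    rintro x ⟨hx, y, hy, h3, h4⟩
    rcases (pj_eq_iff hy hx).mp h3 with rfl | rfl
    · exact h4
    · rw [neg_neg] at h4
      exact h4.symm

/-- sublevel sets near an even sublevel set are even -/
theorem even_le {f : RP3 → ℝ} (hf : Continuous f) (hE : Even {x | f x ≤ 0}) :
    ∃ d > 0, Even {x | f x ≤ d} := by
  obtain ⟨O, hO, h1, h2⟩ := even_nbhd (isClosed_le hf continuous_const) hE
  have i1 : CompactSpace RP3 := cptRP3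
  have hc : IsCompact Oᶜ := hO.isClosed_compl.isCompact
  rcases Set.eq_empty_or_nonempty Oᶜ with he | hne
  · refine ⟨1, one_pos, h2.mono fun x _ => ?_⟩
    by_contra h3
    have h4 : x ∈ Oᶜ := h3
    rw [he] at h4
    exact h4
  obtain ⟨x₀, hx₀, hmin⟩ := hc.exists_isMinOn hne hf.continuousOn
  have h3 : 0 < f x₀ := by
    by_contra h4
    exact hx₀ (h1 (not_lt.mp h4))
  refine ⟨f x₀ / 2, half_pos h3, h2.mono fun x hx => ?_⟩
  by_contra h4
  have h5 : f x₀ ≤ f x := hmin h4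
  have h6 : f x ≤ f x₀ / 2 := hx
  linarith

/-- connected sets in the sphere which meet a point and its antipode -/
theorem not_even_of_conn {A : Set RP3} {P : Set E4} (hP : P ⊆ up A) (hc : IsPreconnected P)
    {x : E4} (hx : x ∈ P) (hx' : -x ∈ P) : ¬ Even A := by
  rintro ⟨U, hU, h1⟩
  have hU' : IsOpen ((fun y : E4 => -y) ⁻¹' U) := hU.preimage continuous_neg
  have hcov : P ⊆ U ∪ (fun y : E4 => -y) ⁻¹' U := by
    intro y hy
    by_cases h2 : y ∈ U
    · exact Or.inl h2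
    · right
      by_contra h3
      exact h2 ((h1 y (hP hy)).mpr h3)
  have hne : (P ∩ U).Nonempty ∧ (P ∩ (fun y : E4 => -y) ⁻¹' U).Nonempty := by
    by_cases h2 : x ∈ U
    · refine ⟨⟨x, hx, h2⟩, -x, hx', ?_⟩
      show - -x ∈ U
      rwa [neg_neg]
    · have h3 : -x ∈ U := by
        by_contra h4
        exact h2 ((h1 x (hP hx)).mpr h4)
      exact ⟨⟨-x, hx', h3⟩, x, hx, h3⟩
  obtain ⟨y, hy, h2, h3⟩ := hc U _ hU hU' hcov hne.1 hne.2
  exact (h1 y (hP hy)).mp h2 h3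

/-- the cone over an open subset -/
theorem cone_open {V : Set RP3} (hV : IsOpen V) : IsOpen {y : E4 | y ≠ 0 ∧ rad y ∈ up V} := by
  have h1 : {y : E4 | y ≠ 0 ∧ rad y ∈ up V} = {y : E4 | y ≠ 0} ∩ rad ⁻¹' (up Vᶜ)ᶜ := by
    ext y
    constructor
    · rintro ⟨h2, h3⟩
      exact ⟨h2, fun h4 => h4.2 h3.2⟩
    · rintro ⟨h2, h3⟩
      refine ⟨h2, rad_mem h2, ?_⟩
      by_contra h4
      exact h3 ⟨rad_mem h2, h4⟩
  rw [h1]
  exact rad_cont.isOpen_inter_preimage isOpen_ne (up_closed hV.isClosed_compl).isOpen_compl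

theorem cone_conn {V : Set RP3} (hV : IsPreconnected (up V)) :
    IsPreconnected {y : E4 | y ≠ 0 ∧ rad y ∈ up V} := by
  have h1 : {y : E4 | y ≠ 0 ∧ rad y ∈ up V} =
      (fun p : ℝ × E4 => p.1 • p.2) '' (Set.Ioi (0 : ℝ) ×ˢ up V) := by
    ext y
    constructor
    · rintro ⟨h2, h3⟩
      have h4 : 0 < ‖y‖ := norm_pos_iff.mpr h2
      refine ⟨(‖y‖, rad y), ⟨h4, h3⟩, ?_⟩
      show ‖y‖ • (‖y‖⁻¹ • y) = y
      rw [smul_smul, mul_inv_cancel₀ h4.ne', one_smul]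
    · rintro ⟨⟨t, x⟩, ⟨h2, h3⟩, rfl⟩
      have h5 : (0 : ℝ) < t := h2
      refine ⟨smul_ne_zero h5.ne' (ne_zero_of_mem_Sp h3.1), ?_⟩
      show rad (t • x) ∈ up V
      rw [rad_smul h5, rad_S h3.1]
      exact h3
  rw [h1]
  exact (isPreconnected_Ioi.prod hV).image _ (continuous_fst.smul continuous_snd).continuousOn

/-- compact connected sets which join `x` and `-x` -/
theorem exists_conn {V : Set RP3} (hV : IsOpen V) (hc : IsPreconnected (up V)) {x y : E4}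
    (hx : x ∈ up V) (hy : y ∈ up V) :
    ∃ P : Set E4, IsCompact P ∧ IsPreconnected P ∧ P ⊆ up V ∧ x ∈ P ∧ y ∈ P := by
  have hxC : x ∈ {y : E4 | y ≠ 0 ∧ rad y ∈ up V} :=
    ⟨ne_zero_of_mem_Sp hx.1, by rw [rad_S hx.1]; exact hx⟩
  have hyC : y ∈ {y : E4 | y ≠ 0 ∧ rad y ∈ up V} :=
    ⟨ne_zero_of_mem_Sp hy.1, by rw [rad_S hy.1]; exact hy⟩
  have h1 : IsPathConnected {y : E4 | y ≠ 0 ∧ rad y ∈ up V} :=
    (IsOpen.isConnected_iff_isPathConnected (cone_open hV)).mp ⟨⟨x, hxC⟩, cone_conn hc⟩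
  obtain ⟨γ, hγ⟩ := h1.joinedIn x hxC y hyC
  have h2 : Set.range γ ⊆ {y : E4 | y ≠ 0 ∧ rad y ∈ up V} := by
    rintro _ ⟨t, rfl⟩
    exact hγ t
  have h3 : ContinuousOn rad (Set.range γ) := rad_cont.mono fun y hy => (h2 hy).1
  refine ⟨rad '' Set.range γ, (isCompact_range γ.continuous).image_of_continuousOn h3,
    (isPreconnected_range γ.continuous).image _ h3, ?_, ?_, ?_⟩
  · rintro _ ⟨y, hy, rfl⟩
    exact (h2 hy).2
  · exact ⟨x, ⟨0, γ.source⟩, rad_S hx.1⟩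
  · exact ⟨y, ⟨1, γ.target⟩, rad_S hy.1⟩

theorem not_even_iff (hD : T0.XDic) {V : Set RP3} (hV : IsOpen V) (hn : V.Nonempty)
    (hc : IsPreconnected V) : ¬ Even V ↔ IsPreconnected (up V) := by
  constructor
  · intro h
    exact (hD V hV hc).resolve_left h
  · intro h
    obtain ⟨z, hz⟩ := hn
    obtain ⟨x, hx, rfl⟩ := pj_surj z
    exact not_even_of_conn subset_rfl h (x := x) ⟨hx, hz⟩ (neg_mem_up ⟨hx, hz⟩)

theorem even_empty : Even ∅ := ⟨∅, isOpen_empty, fun _ hx => hx.2.elim⟩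

/-- a connected odd open set contains a compact connected odd set -/
theorem exists_odd (hD : T0.XDic) {V : Set RP3} (hV : IsOpen V) (hc : IsPreconnected V)
    (hE : ¬ Even V) : ∃ P : Set E4, IsCompact P ∧ IsPreconnected P ∧ P ⊆ up V ∧
      ∃ x ∈ P, -x ∈ P := by
  have hn : V.Nonempty := by
    rw [Set.nonempty_iff_ne_empty]
    rintro rfl
    exact hE even_empty
  have h1 := (not_even_iff hD hV hn hc).mp hE
  obtain ⟨z, hz⟩ := hn
  obtain ⟨x, hx, rfl⟩ := pj_surj z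
  have hxV : x ∈ up V := ⟨hx, hz⟩
  obtain ⟨P, p1, p2, p3, p4, p5⟩ := exists_conn hV h1 hxV (neg_mem_up hxV)
  exact ⟨P, p1, p2, p3, x, p4, p5⟩

/-- superlevel sets -/
theorem odd_ge (hD : T0.XDic) {f : RP3 → ℝ} (hf : Continuous f) (hc : IsPreconnected {x | 0 < f x})
    (hE : ¬ Even {x | 0 < f x}) : ∃ d > 0, ¬ Even {x | d ≤ f x} := by
  obtain ⟨P, p1, p2, p3, x, hx, hx'⟩ := exists_odd hD (isOpen_lt continuous_const hf) hc hE
  have h1 : ContinuousOn (fun y => f (pj y)) P :=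
    hf.comp_continuousOn (pj_cont.mono fun y hy => (p3 hy).1)
  obtain ⟨y₀, hy₀, hmin⟩ := p1.exists_isMinOn ⟨x, hx⟩ h1
  refine ⟨f (pj y₀), (p3 hy₀).2, ?_⟩
  exact not_even_of_conn (P := P) (fun y hy => ⟨(p3 hy).1, hmin hy⟩) p2 hx hx'

end C3

end TightRP
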