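import Pool.Agent.Lib.MP_7cdc3e_gt.C.See

/-!
# MP_7cdc3e_gt, C: exposed points at which a given function is positive

Paper proof: `T6.md`, Lemma EXP.
-/

namespace TightRP

namespace Ver

theorem exposed {M : Type} [TopologicalSpace M] {V : Submodule ℝ (M → ℝ)} (hV : HSys V)
    [FiniteDimensional ℝ V] (G : Set M) (hG : IsClosed G) (k : M → ℝ) (hk : k ∈ V) (y₀ : M)
    (hy₀ : y₀ ∈ G) (hky : 0 < k y₀) :
    ∃ h ∈ V, ∃ x ∈ G, h x = 0 ∧ 0 < k x ∧ (∀ y ∈ G, h y ≤ 0) ∧
      ∀ y ∈ G, h y = 0 → ∀ l ∈ V, l y = l x := by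
  have := hV.cpt
  let b := Module.finBasis ℝ V
  set q : M → ℝ := fun y => ∑ i, (b i).1 y ^ 2 with hq
  have hqc : Continuous q := continuous_finsetSum _ fun i _ => (hV.cont _ (b i).2).pow 2
  have hkc : Continuous k := hV.cont _ hk
  obtain ⟨D, hD⟩ := isCompact_univ.exists_bound_of_continuousOn hqc.continuousOn
  have hD' : ∀ y, q y ≤ D := fun y => (le_abs_self _).trans (hD y (Set.mem_univ y))
  have hq0 : ∀ y, 0 ≤ q y := fun y => Finset.sum_nonneg fun i _ => sq_nonneg _
  have hD0 : 0 ≤ D := (hq0 y₀).trans (hD' y₀)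
  set R : ℝ := (D + 1) / k y₀ with hR
  have hR0 : 0 < R := by positivity
  obtain ⟨x, hxG, hx⟩ := hG.isCompact.exists_isMaxOn ⟨y₀, hy₀⟩
    (hqc.add (continuous_const.mul hkc) : Continuous fun y => q y + R * k y).continuousOn
  have hmax : ∀ y ∈ G, q y + R * k y ≤ q x + R * k x := fun y hy => hx hy
  set h : M → ℝ := ∑ i, (2 * (b i).1 x) • ((b i).1 - fun _ => (b i).1 x) +
    R • (k - fun _ => k x) with hh
  have hhV : h ∈ V := by
    refine V.add_mem (V.sum_mem fun i _ => V.smul_mem _ (V.sub_mem (b i).2 (hV.const _)))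
      (V.smul_mem _ (V.sub_mem hk (hV.const _)))
  have hid : ∀ y, h y = (q y + R * k y) - (q x + R * k x) -
      ∑ i, ((b i).1 y - (b i).1 x) ^ 2 := by
    intro y
    have h1 : h y = ∑ i, 2 * (b i).1 x * ((b i).1 y - (b i).1 x) + R * (k y - k x) := by
      simp only [hh, Pi.add_apply, Finset.sum_apply, Pi.smul_apply, Pi.sub_apply, smul_eq_mul]
    have h2 : ∑ i, 2 * (b i).1 x * ((b i).1 y - (b i).1 x) =
        q y - q x - ∑ i, ((b i).1 y - (b i).1 x) ^ 2 := by
      simp only [hq, ← Finset.sum_sub_distrib]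
      refine Finset.sum_congr rfl fun i _ => ?_
      ring
    rw [h1, h2]
    ring
  have hs0 : ∀ y, 0 ≤ ∑ i, ((b i).1 y - (b i).1 x) ^ 2 := fun y =>
    Finset.sum_nonneg fun i _ => sq_nonneg _
  refine ⟨h, hhV, x, hxG, ?_, ?_, ?_, ?_⟩
  · rw [hid]
    simp
  · have h1 := hmax y₀ hy₀
    have h2 : R * k y₀ = D + 1 := div_mul_cancel₀ _ hky.ne'
    have h3 : 0 < R * k x := by
      have := hq0 y₀
      have := hD' x
      linarith
    exact (mul_pos_iff_of_pos_left hR0).1 h3
  · intro y hy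
    rw [hid]
    have := hmax y hy
    have := hs0 y
    linarith
  · intro y hy h0 l hl
    rw [hid] at h0
    have h1 : ∑ i, ((b i).1 y - (b i).1 x) ^ 2 = 0 := by
      have := hmax y hy
      have := hs0 y
      linarith
    have h2 : ∀ i, (b i).1 y = (b i).1 x := by
      intro i
      have := (Finset.sum_eq_zero_iff_of_nonneg fun i _ => sq_nonneg _).1 h1 i (Finset.mem_univ i)
      exact sub_eq_zero.1 (pow_eq_zero_iff two_ne_zero |>.1 this)
    have h3 : l = ∑ i, b.repr ⟨l, hl⟩ i • (b i).1 := by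
      have := congrArg Subtype.val (b.sum_repr ⟨l, hl⟩)
      rw [Submodule.coe_sum] at this
      exact this.symm
    rw [h3]
    simp only [Finset.sum_apply, Pi.smul_apply, h2]

end Ver

end TightRP
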