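import Pool.Agent.Lib.MP_7cdc3e_gt.Fin
import Pool.Agent.Lib.MP_7cdc3e_gt.Contr
import Pool.Agent.Lib.MP_7cdc3e_gt.H0Path
import Pool.Agent.Lib.MP_7cdc3e_gt.H0Low
import Pool.Agent.Lib.MP_7cdc3e_gt.MVKey
import Pool.Agent.Lib.MP_7cdc3e_gt.Mono
import Pool.Agent.Lib.MP_7cdc3e_gt.MVUp
import Pool.Agent.Lib.MP_7cdc3e_gt.Homeo
import Pool.Agent.Lib.MP_7cdc3e_gt.StarContr
import Pool.Agent.Lib.MP_7cdc3e_gt.StarInj
import Pool.Agent.Lib.MP_7cdc3e_gt.SplitStar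
import Pool.Agent.Lib.MP_7cdc3e_gt.StarConn
import Pool.Agent.Lib.MP_7cdc3e_gt.Vertex
import Pool.Agent.Lib.MP_7cdc3e_gt.Imm
import Pool.Agent.Lib.MP_7cdc3e_gt.Facet
import Pool.Agent.Lib.MP_7cdc3e_gt.FlagLin
import Pool.Agent.Lib.MP_7cdc3e_gt.Flag
import Pool.Agent.Lib.MP_7cdc3e_gt.Susp
import Pool.Agent.Lib.MP_7cdc3e_gt.Circle
import Pool.Agent.Lib.MP_7cdc3e_gt.P3
import Pool.Agent.Lib.MP_7cdc3e_gt.LocHom
import Pool.Agent.Lib.MP_7cdc3e_gt.Tri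
import Pool.Agent.Lib.MP_7cdc3e_gt.Small
import Pool.Agent.Lib.MP_7cdc3e_gt.Cyc
import Pool.Agent.Lib.MP_7cdc3e_gt.Del
import Pool.Agent.Lib.MP_7cdc3e_gt.MacLane
import Pool.Agent.Lib.MP_7cdc3e_gt.Planar
import Pool.Agent.Lib.MP_7cdc3e_gt.LinkPlanar
import Pool.Agent.Lib.MP_7cdc3e_gt.LemA
import Pool.Agent.Lib.MP_7cdc3e_gt.LemB
import Pool.Agent.Lib.MP_7cdc3e_gt.Main
import Pool.Agent.Lib.MP_7cdc3e_gt.RPTop
import Pool.Agent.Lib.MP_7cdc3e_gt.RPHom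

/-!
# MP_7cdc3e_gt: no tight polyhedral immersion, as a theorem of the library

The statement of `Results/MP_7cdc3e_gt/Polyhedral.lean`.
-/

set_option autoImplicit false

namespace TightRP

/-- there is no substantial tight polyhedral immersion of `RP³` in `E^N`, `N ≥ 9` -/
theorem noPoly : ∀ (F : Type) [Field F] (N : ℕ), 9 ≤ N →
    ¬ ∃ f : RP3 → EuclideanSpace ℝ (Fin N),
      LocInj f ∧ TightRP.Polyhedral f ∧ Substantial f ∧ TightUpTo 1 F f := by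
  have hCircle : CircleStmt := mCircle tContr tH0Path tH0Low
  have hLoc : LocHomStmt := mLocHom tContr (mP3 (mSusp tContr tH0Path) hCircle)
  have hTri : TriStmt := mTri tContr tHomeo hCircle hLoc
  have hCyc : CycStmt := mCyc cStarContr hLoc mSmall
  have hLP : LinkPlanarStmt := pLinkPlanar hTri hCyc (pPlanar pDel pMacLane)
  have hSC : StarConnStmt := cStarConn tH0Path tH0Low
  have hV : VertexStmt := cVertex (tMVKey tContr tH0Path tH0Low) cStarContr cSplitStar hSC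
  have hMain : MainStmt :=
    mMain (fFlag (fFlagLin fFacet)) iEdge iDir cStarInj hSC hV tMono hLP pLemA pLemB
  exact fin_final hMain tHomeo rTop (rHom tContr tH0Path (tMVUp tContr tH0Path) tHomeo)

end TightRP
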