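import Mathlib
import Pool.Agent.Lib.InvDom.Basic

/-!
# MP_7cdc3e_gt, T3, part 1: a continuous injective image of a ball of dimension three has Hausdorff
dimension at least three

Lipschitz approximation of the inverse and Brouwer's theorem (`InvDom.zero_of_near`).
-/

set_option autoImplicit false

namespace TightRP.Dens

open Set Metric Module Topology

/-- coordinates with the Euclidean norm -/
abbrev E3 : Type := EuclideanSpace ℝ (Fin 3)

/-- uniform approximation of a continuous function on a compact set by Lipschitz functions -/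
theorem lip_approx {X : Type*} [MetricSpace X] (C : Set X) (hC : IsCompact C) (h : X → ℝ)
    (hh : ContinuousOn h C) (ε : ℝ) (hε : 0 < ε) :
    ∃ (K : NNReal) (g : X → ℝ), LipschitzWith K g ∧ ∀ x ∈ C, |g x - h x| ≤ ε := by
  rcases C.eq_empty_or_nonempty with h0 | hne
  · exact ⟨0, fun _ => 0, LipschitzWith.const _, fun x hx => by rw [h0] at hx; exact hx.elim⟩
  obtain ⟨B, hB⟩ := hC.exists_bound_of_continuousOn hh
  have hB0 : 0 ≤ B := by
    obtain ⟨x, hx⟩ := hne
    exact (norm_nonneg _).trans (hB x hx)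
  have huc : UniformContinuousOn h C := hC.uniformContinuousOn_of_continuous hh
  rw [Metric.uniformContinuousOn_iff] at huc
  obtain ⟨δ, hδ, hδ'⟩ := huc ε hε
  let K : NNReal := ⟨2 * B / δ, by positivity⟩
  have hKδ : (K : ℝ) * δ = 2 * B := by
    change 2 * B / δ * δ = 2 * B
    field_simp
  have key : ∀ x ∈ C, ∀ y ∈ C, h x ≤ h y + K * dist x y + ε := by
    intro x hx y hy
    rcases lt_or_ge (dist x y) δ with hd | hd
    · have h1 := hδ' x hx y hy hd
      rw [Real.dist_eq] at h1
      have h2 := (abs_lt.mp h1).2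
      have h3 : 0 ≤ (K : ℝ) * dist x y := by positivity
      linarith
    · have h1 := (abs_le.mp (hB x hx)).2
      have h2 := (abs_le.mp (hB y hy)).1
      have h3 : (K : ℝ) * δ ≤ K * dist x y := mul_le_mul_of_nonneg_left hd K.2
      rw [hKδ] at h3
      linarith
  have : Nonempty C := hne.to_subtype
  have hbdd : ∀ x : X, BddBelow (Set.range fun y : C => h y + K * dist x y) := by
    intro x
    refine ⟨-B, ?_⟩
    rintro _ ⟨y, rfl⟩
    have h2 := (abs_le.mp (hB y y.2)).1
    have h3 : 0 ≤ (K : ℝ) * dist x y := by positivity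
    change -B ≤ h y + K * dist x y
    linarith
  refine ⟨K, fun x => ⨅ y : C, (h y + K * dist x y), ?_, ?_⟩
  · refine LipschitzWith.of_le_add_mul K ?_
    intro x x'
    rw [← sub_le_iff_le_add]
    refine le_ciInf fun y => ?_
    rw [sub_le_iff_le_add]
    refine (ciInf_le (hbdd x) y).trans ?_
    have h1 := dist_triangle x x' y
    have h2 : (K : ℝ) * dist x y ≤ K * (dist x x' + dist x' y) :=
      mul_le_mul_of_nonneg_left h1 K.2
    linarith [h2, mul_add (K : ℝ) (dist x x') (dist x' y)]
  · intro x hx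
    rw [abs_le]
    constructor
    · have h1 : h x - ε ≤ ⨅ y : C, (h y + K * dist x y) := by
        refine le_ciInf fun y => ?_
        linarith [key x hx y y.2]
      linarith
    · have h1 := ciInf_le (hbdd x) ⟨x, hx⟩
      simp only [dist_self, mul_zero, add_zero] at h1
      linarith

/-- a continuous injective image of the closed ball of `ℝ³` in a metric space has Hausdorff
dimension at least three -/
theorem three_le_dimH {Y : Type*} [MetricSpace Y] (c : E3 → Y)
    (hc : ContinuousOn c (closedBall 0 1)) (hinj : InjOn c (closedBall 0 1)) :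
    3 ≤ dimH (c '' closedBall 0 1) := by
  classical
  have hcpt : IsCompact (closedBall (0 : E3) 1) := isCompact_closedBall 0 1
  have : CompactSpace (closedBall (0 : E3) 1) := isCompact_iff_compactSpace.1 hcpt
  set C : Set Y := c '' closedBall 0 1 with hCdef
  have hCc : IsCompact C := hcpt.image_of_continuousOn hc
  let c' : closedBall (0 : E3) 1 → Y := fun x => c x
  have hc' : Continuous c' := continuousOn_iff_continuous_domRestrict.1 hc
  have hinj' : Function.Injective c' := fun x y h => Subtype.ext (hinj x.2 y.2 h)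
  have hemb : IsClosedEmbedding c' := hc'.isClosedEmbedding hinj'
  -- the inverse
  let inv : Y → E3 := fun y => if h : ∃ x : closedBall (0 : E3) 1, c' x = y then (h.choose : E3)
    else 0
  have hinv : ∀ x : closedBall (0 : E3) 1, inv (c' x) = x := by
    intro x
    have h : ∃ x' : closedBall (0 : E3) 1, c' x' = c' x := ⟨x, rfl⟩
    have h1 : inv (c' x) = (h.choose : E3) := dif_pos h
    rw [h1, hinj' h.choose_spec]
  have hinvc : ContinuousOn inv C := by
    rw [continuousOn_iff_continuous_domRestrict]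
    have hhom : Continuous (fun y : Set.range c' => (hemb.toIsEmbedding.toHomeomorph.symm y : E3)) :=
      continuous_subtype_val.comp (Homeomorph.continuous _)
    have hCr : C = Set.range c' := by
      ext y
      constructor
      · rintro ⟨x, hx, rfl⟩
        exact ⟨⟨x, hx⟩, rfl⟩
      · rintro ⟨x, rfl⟩
        exact ⟨x, x.2, rfl⟩
    rw [hCr]
    refine hhom.congr ?_
    intro y
    obtain ⟨y, x, rfl⟩ := y
    have h2 : hemb.toIsEmbedding.toHomeomorph.symm ⟨c' x, x, rfl⟩ = x := by
      rw [Homeomorph.symm_apply_eq]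
      rfl
    change ((hemb.toIsEmbedding.toHomeomorph.symm ⟨c' x, x, rfl⟩ : closedBall (0 : E3) 1) : E3) =
      inv (c' x)
    rw [h2, hinv]
  -- Lipschitz approximation of the coordinates
  have happ : ∀ i : Fin 3, ∃ (K : NNReal) (g : Y → ℝ), LipschitzWith K g ∧
      ∀ y ∈ C, |g y - inv y i| ≤ 1 / 4 := by
    intro i
    refine lip_approx C hCc (fun y => inv y i) ?_ (1 / 4) (by norm_num)
    exact (continuous_apply i).comp_continuousOn
      ((PiLp.continuous_ofLp 2 _).comp_continuousOn hinvc)
  choose K g hg hgi using happ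
  let G0 : Y → (Fin 3 → ℝ) := fun y i => g i y
  have hG0 : LipschitzWith (K 0 ⊔ K 1 ⊔ K 2) G0 := by
    rw [lipschitzWith_iff_dist_le_mul]
    intro x y
    rw [dist_pi_le_iff (by positivity)]
    intro i
    refine ((hg i).dist_le_mul x y).trans (mul_le_mul_of_nonneg_right ?_ dist_nonneg)
    fin_cases i
    · exact le_sup_of_le_left (le_sup_left : K 0 ≤ K 0 ⊔ K 1)
    · exact le_sup_of_le_left (le_sup_right : K 1 ≤ K 0 ⊔ K 1)
    · exact (le_sup_right : K 2 ≤ K 0 ⊔ K 1 ⊔ K 2)
  let e : (Fin 3 → ℝ) ≃L[ℝ] E3 := (EuclideanSpace.equiv (Fin 3) ℝ).symm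
  let G : Y → E3 := fun y => e (G0 y)
  have hG : LipschitzWith (‖(e : (Fin 3 → ℝ) →L[ℝ] E3)‖₊ * (K 0 ⊔ K 1 ⊔ K 2)) G :=
    (e : (Fin 3 → ℝ) →L[ℝ] E3).lipschitz.comp hG0
  have hGi : ∀ y i, G y i = g i y := fun y i => rfl
  have hnear : ∀ x ∈ closedBall (0 : E3) 1, ‖G (c x) - x‖ ≤ 1 / 2 := by
    intro x hx
    have hy : c x ∈ C := ⟨x, hx, rfl⟩
    have hix : inv (c x) = x := hinv ⟨x, hx⟩
    rw [EuclideanSpace.norm_eq, Real.sqrt_le_left (by norm_num), Fin.sum_univ_three]
    have hi : ∀ i : Fin 3, ‖(G (c x) - x) i‖ ^ 2 ≤ 1 / 16 := by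
      intro i
      have h1 := hgi i (c x) hy
      rw [hix] at h1
      have h2 : ‖(G (c x) - x) i‖ ≤ 1 / 4 := h1
      have h3 : 0 ≤ ‖(G (c x) - x) i‖ := norm_nonneg _
      nlinarith
    linarith [hi 0, hi 1, hi 2]
  have hsub : closedBall (0 : E3) (1 / 2) ⊆ G '' C := by
    intro y hy
    obtain ⟨x, hx, h0⟩ := InvDom.zero_of_near (fun x => G (c x) - y)
      ((hG.continuous.comp_continuousOn hc).sub continuousOn_const) (by
        intro x hx
        have h1 := hnear x hx
        rw [mem_closedBall_zero_iff] at hy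
        have h2 : x - (G (c x) - y) = -(G (c x) - x) + y := by abel
        rw [h2]
        refine (norm_add_le _ _).trans ?_
        rw [norm_neg]
        linarith)
    exact ⟨c x, ⟨x, hx, rfl⟩, sub_eq_zero.mp h0⟩
  have h3 : dimH (closedBall (0 : E3) (1 / 2)) = 3 := by
    rw [Real.dimH_of_nonempty_interior]
    · rw [finrank_euclideanSpace, Fintype.card_fin]
      rfl
    · refine ⟨0, ?_⟩
      rw [mem_interior_iff_mem_nhds]
      exact closedBall_mem_nhds 0 (by norm_num)
  rw [← h3]
  exact (dimH_mono hsub).trans (hG.dimH_image_le C)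

end TightRP.Dens
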