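import Mathlib

/-!
# MP_7cdc3e_gt, T3, part 2: points with a large normal cone

The points `x` of a compact set `K` whose normal cone has dimension at least `n - 2` are contained in
countably many compact sets of Hausdorff dimension at most two (images of squares of coordinate
planes under the nearest point map).
-/

set_option autoImplicit false

namespace TightRP.Dens

open Set Metric Module Topology

/-- Euclidean space -/
abbrev En (n : ℕ) : Type := EuclideanSpace ℝ (Fin n)

/-- the normal cone of `K` at `x` -/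
def NC {n : ℕ} (K : Set (En n)) (x : En n) : Set (En n) := {v | ∀ y ∈ K, inner ℝ v (y - x) ≤ 0}

/-- the coordinate vectors and `0` -/
noncomputable def ev {n : ℕ} (i : Option (Fin n)) : En n :=
  match i with
  | none => 0
  | some i => EuclideanSpace.single i 1

theorem norm_ev_le {n : ℕ} (i : Option (Fin n)) : ‖ev i‖ ≤ 1 := by
  rcases i with _ | i
  · change ‖(0 : En n)‖ ≤ 1
    rw [norm_zero]
    exact zero_le_one
  · change ‖EuclideanSpace.single i (1 : ℝ)‖ ≤ 1
    rw [PiLp.norm_single, norm_one]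

/-- the points of `K` which are nearest points of points of a square -/
def Pt {n : ℕ} (K : Set (En n)) (q : En n) (i j : Option (Fin n)) (m : ℕ) : Set (En n) :=
  {x | x ∈ K ∧ ∃ t : ℝ × ℝ, |t.1| ≤ m ∧ |t.2| ≤ m ∧ q + t.1 • ev i + t.2 • ev j - x ∈ NC K x}

theorem near_le {n : ℕ} {K : Set (En n)} {x x' p p' : En n} (hx : x ∈ K) (hx' : x' ∈ K)
    (h : p - x ∈ NC K x) (h' : p' - x' ∈ NC K x') : ‖x - x'‖ ≤ ‖p - p'‖ := by
  have h1 := h x' hx'
  have h2 := h' x hx
  have h3 : ‖x - x'‖ ^ 2 ≤ inner ℝ (p - p') (x - x') := by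
    have e1 : inner ℝ (p - p') (x - x') =
        ‖x - x'‖ ^ 2 - inner ℝ (p - x) (x' - x) - inner ℝ (p' - x') (x - x') := by
      rw [← real_inner_self_eq_norm_sq]
      have e2 : p - p' = (x - x') + (p - x) - (p' - x') := by abel
      rw [e2, inner_sub_left, inner_add_left]
      have e3 : x' - x = -(x - x') := by abel
      rw [e3, inner_neg_right]
      ring
    rw [e1]
    linarith
  have h4 : inner ℝ (p - p') (x - x') ≤ ‖p - p'‖ * ‖x - x'‖ := real_inner_le_norm _ _
  rcases (norm_nonneg (x - x')).eq_or_lt with h5 | h5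
  · rw [← h5]
    exact norm_nonneg _
  · have h6 : ‖x - x'‖ * ‖x - x'‖ ≤ ‖p - p'‖ * ‖x - x'‖ := by nlinarith
    exact le_of_mul_le_mul_right h6 h5

theorem pt_closed {n : ℕ} {K : Set (En n)} (hK : IsCompact K) (q : En n) (i j : Option (Fin n))
    (m : ℕ) : IsClosed (Pt K q i j m) := by
  have h1 : Pt K q i j m = Prod.fst '' ((K ×ˢ (Icc (-(m : ℝ)) m ×ˢ Icc (-(m : ℝ)) m)) ∩
      {z : En n × (ℝ × ℝ) | ∀ y ∈ K, inner ℝ (q + z.2.1 • ev i + z.2.2 • ev j - z.1) (y - z.1) ≤ 0})
      := by
    ext x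
    constructor
    · rintro ⟨hx, t, h1, h2, h3⟩
      exact ⟨(x, t), ⟨⟨hx, abs_le.mp h1, abs_le.mp h2⟩, h3⟩, rfl⟩
    · rintro ⟨⟨x', t⟩, ⟨⟨hx, h1, h2⟩, h3⟩, rfl⟩
      exact ⟨hx, t, abs_le.mpr h1, abs_le.mpr h2, h3⟩
  rw [h1]
  refine IsCompact.isClosed (IsCompact.image ?_ continuous_fst)
  refine (hK.prod (isCompact_Icc.prod isCompact_Icc)).inter_right ?_
  have h2 : {z : En n × (ℝ × ℝ) | ∀ y ∈ K, inner ℝ (q + z.2.1 • ev i + z.2.2 • ev j - z.1)
      (y - z.1) ≤ 0} = ⋂ y ∈ K, {z : En n × (ℝ × ℝ) | inner ℝ (q + z.2.1 • ev i + z.2.2 • ev j - z.1)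
      (y - z.1) ≤ 0} := by
    ext z
    simp only [mem_iInter]
    exact Iff.rfl
  rw [h2]
  refine isClosed_biInter fun y _ => isClosed_le ?_ continuous_const
  fun_prop

theorem pt_dimH {n : ℕ} (K : Set (En n)) (q : En n) (i j : Option (Fin n)) (m : ℕ) :
    dimH (Pt K q i j m) ≤ 2 := by
  have hch : ∀ x : Pt K q i j m, ∃ t : ℝ × ℝ,
      q + t.1 • ev i + t.2 • ev j - (x : En n) ∈ NC K (x : En n) := by
    rintro ⟨x, hx, t, -, -, h⟩
    exact ⟨t, h⟩
  choose t ht using hch
  have hanti : AntilipschitzWith 2 t := by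
    refine AntilipschitzWith.of_le_mul_dist ?_
    intro x y
    have h1 := near_le x.2.1 y.2.1 (ht x) (ht y)
    have h2 : dist x y = ‖(x : En n) - y‖ := by
      rw [← dist_eq_norm]
      rfl
    rw [h2]
    refine h1.trans ?_
    have e1 : q + (t x).1 • ev i + (t x).2 • ev j - (q + (t y).1 • ev i + (t y).2 • ev j) =
        ((t x).1 - (t y).1) • ev i + ((t x).2 - (t y).2) • ev j := by
      rw [sub_smul, sub_smul]
      abel
    rw [e1]
    refine (norm_add_le _ _).trans ?_
    rw [norm_smul, norm_smul]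
    have h3 : ‖(t x).1 - (t y).1‖ ≤ dist (t x) (t y) := by
      rw [← dist_eq_norm]
      exact le_max_left _ _
    have h4 : ‖(t x).2 - (t y).2‖ ≤ dist (t x) (t y) := by
      rw [← dist_eq_norm]
      exact le_max_right _ _
    have h5 := norm_ev_le i
    have h6 := norm_ev_le j
    have h7 : ‖(t x).1 - (t y).1‖ * ‖ev i‖ ≤ dist (t x) (t y) * 1 :=
      mul_le_mul h3 h5 (norm_nonneg _) dist_nonneg
    have h8 : ‖(t x).2 - (t y).2‖ * ‖ev j‖ ≤ dist (t x) (t y) * 1 :=
      mul_le_mul h4 h6 (norm_nonneg _) dist_nonneg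
    have h9 : ((2 : NNReal) : ℝ) = 2 := rfl
    rw [h9]
    linarith
  have h1 : dimH (univ : Set (Pt K q i j m)) ≤ dimH (t '' univ) := hanti.le_dimH_image univ
  have h2 : dimH (t '' univ) ≤ 2 := by
    refine (dimH_mono (subset_univ _)).trans ?_
    rw [Real.dimH_univ_eq_finrank]
    rw [Module.finrank_prod, Module.finrank_self]
    norm_num
  have h3 : dimH (Pt K q i j m) = dimH (univ : Set (Pt K q i j m)) := by
    rw [← isometry_subtype_coe.dimH_image univ, image_univ, Subtype.range_coe]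
  rw [h3]
  exact h1.trans h2

/-- two coordinate vectors complete a subspace of codimension at most two -/
theorem exists_compl {n : ℕ} (U : Submodule ℝ (En n)) (h : n ≤ finrank ℝ U + 2) :
    ∃ i j : Option (Fin n), U ⊔ Submodule.span ℝ {ev i} ⊔ Submodule.span ℝ {ev j} = ⊤ := by
  have hstep : ∀ U' : Submodule ℝ (En n), U' ≠ ⊤ → ∃ i : Option (Fin n),
      finrank ℝ U' + 1 ≤ finrank ℝ ↥(U' ⊔ Submodule.span ℝ {ev i}) := by
    intro U' hU'
    have h1 : ∃ i : Fin n, ev (some i) ∉ U' := by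
      by_contra hcon
      push Not at hcon
      apply hU'
      rw [eq_top_iff]
      intro v _
      have h2 : v = ∑ i, v i • (ev (some i) : En n) := by
        have h3 := (EuclideanSpace.basisFun (Fin n) ℝ).sum_repr v
        rw [← h3]
        refine Finset.sum_congr rfl fun i _ => ?_
        rw [h3]
        rw [EuclideanSpace.basisFun_repr, EuclideanSpace.basisFun_apply]
        rfl
      rw [h2]
      exact Submodule.sum_mem _ fun i _ => Submodule.smul_mem _ _ (hcon i)
    obtain ⟨i, hi⟩ := h1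
    refine ⟨some i, ?_⟩
    have h2 : U' < U' ⊔ Submodule.span ℝ {ev (some i)} := by
      refine lt_of_le_of_ne le_sup_left ?_
      intro h3
      apply hi
      rw [h3]
      exact Submodule.mem_sup_right (Submodule.mem_span_singleton_self _)
    exact Submodule.finrank_lt_finrank_of_lt h2
  have hn : finrank ℝ (En n) = n := by rw [finrank_euclideanSpace, Fintype.card_fin]
  by_cases hU : U = ⊤
  · refine ⟨none, none, ?_⟩
    rw [hU, top_sup_eq, top_sup_eq]
  · obtain ⟨i, hi⟩ := hstep U hU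
    by_cases hU1 : U ⊔ Submodule.span ℝ {ev i} = ⊤
    · refine ⟨i, none, ?_⟩
      rw [hU1, top_sup_eq]
    · obtain ⟨j, hj⟩ := hstep _ hU1
      refine ⟨i, j, ?_⟩
      refine Submodule.eq_top_of_finrank_eq ?_
      refine le_antisymm (Submodule.finrank_le _) ?_
      rw [hn]
      omega

/-- points with a large normal cone are in countably many of the sets `Pt` -/
theorem mem_pt {n : ℕ} (K : Set (En n)) (x : En n) (hx : x ∈ K)
    (h : n ≤ finrank ℝ (Submodule.span ℝ (NC K x)) + 2) :
    ∃ (k : ℕ) (i j : Option (Fin n)) (m : ℕ),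
      x ∈ Pt K (TopologicalSpace.denseSeq (En n) k) i j m := by
  classical
  set U : Submodule ℝ (En n) := Submodule.span ℝ (NC K x) with hU
  obtain ⟨i, j, hij⟩ := exists_compl U h
  let N' : Set U := {u | (u : En n) ∈ NC K x}
  have h0 : (0 : U) ∈ N' := by
    intro y _
    change inner ℝ (0 : En n) (y - x) ≤ 0
    rw [inner_zero_left]
  have hconv : Convex ℝ N' := by
    intro u hu v hv a b ha hb _ y hy
    have h1 := hu y hy
    have h2 := hv y hy
    change inner ℝ (a • (u : En n) + b • (v : En n)) (y - x) ≤ 0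
    rw [inner_add_left, real_inner_smul_left, real_inner_smul_left]
    have h3 := mul_le_mul_of_nonneg_left h1 ha
    have h4 := mul_le_mul_of_nonneg_left h2 hb
    rw [mul_zero] at h3 h4
    exact add_nonpos h3 h4
  have hspan : Submodule.span ℝ N' = ⊤ := Submodule.span_span_coe_preimage
  have haff : affineSpan ℝ N' = ⊤ := by
    have h1 : (affineSpan ℝ (insert 0 N') : Set U) = (Submodule.span ℝ N' : Set U) :=
      affineSpan_insert_zero N'
    rw [insert_eq_of_mem h0, hspan] at h1
    rw [← AffineSubspace.coe_eq_univ_iff, h1]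
    rfl
  have hint : (interior N').Nonempty := hconv.interior_nonempty_iff_affineSpan_eq_top.2 haff
  -- the linear map
  let L : (U × ℝ × ℝ) →ₗ[ℝ] En n :=
    U.subtype.coprod ((LinearMap.toSpanSingleton ℝ (En n) (ev i)).coprod
      (LinearMap.toSpanSingleton ℝ (En n) (ev j)))
  have hL : ∀ z : U × ℝ × ℝ, L z = (z.1 : En n) + (z.2.1 • ev i + z.2.2 • ev j) := fun z => rfl
  have hsurj : Function.Surjective L := by
    intro v
    have hv : v ∈ U ⊔ Submodule.span ℝ {ev i} ⊔ Submodule.span ℝ {ev j} := by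
      rw [hij]
      exact Submodule.mem_top
    obtain ⟨w, hw, b, hb, rfl⟩ := Submodule.mem_sup.mp hv
    obtain ⟨u, hu, a, ha, rfl⟩ := Submodule.mem_sup.mp hw
    obtain ⟨s, rfl⟩ := Submodule.mem_span_singleton.mp ha
    obtain ⟨t, rfl⟩ := Submodule.mem_span_singleton.mp hb
    exact ⟨(⟨u, hu⟩, s, t), by rw [hL]; change u + (s • ev i + t • ev j) = _; abel⟩
  have hopen : IsOpenMap L := L.isOpenMap_of_finiteDimensional hsurj
  have himg : IsOpen ((fun v => x + v) '' (L '' (interior N' ×ˢ univ))) := by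
    refine (Homeomorph.addLeft x).isOpenMap _ (hopen _ ?_)
    exact isOpen_interior.prod isOpen_univ
  have hne : ((fun v => x + v) '' (L '' (interior N' ×ˢ univ))).Nonempty := by
    obtain ⟨u, hu⟩ := hint
    exact ⟨_, _, ⟨(u, 0, 0), ⟨hu, mem_univ _⟩, rfl⟩, rfl⟩
  obtain ⟨_, ⟨_, ⟨⟨u, s, t⟩, ⟨hu, -⟩, rfl⟩, rfl⟩, k, hk⟩ :=
    (TopologicalSpace.denseRange_denseSeq (En n)).inter_open_nonempty _ himg hne
  obtain ⟨m, hm⟩ := exists_nat_ge (max |s| |t|)
  refine ⟨k, i, j, m, hx, (-s, -t), ?_, ?_, ?_⟩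
  · change |-s| ≤ m
    rw [abs_neg]
    exact (le_max_left _ _).trans hm
  · change |-t| ≤ m
    rw [abs_neg]
    exact (le_max_right _ _).trans hm
  · have h0' : u ∈ N' := interior_subset (s := N') hu
    have h1 : (u : En n) ∈ NC K x := h0'
    have h2 : TopologicalSpace.denseSeq (En n) k + (-s) • ev i + (-t) • ev j - x = u := by
      rw [hk]
      change x + L (u, s, t) + (-s) • ev i + (-t) • ev j - x = u
      rw [hL]
      change x + ((u : En n) + (s • ev i + t • ev j)) + (-s) • ev i + (-t) • ev j - x = u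
      rw [neg_smul, neg_smul]
      abel
    change TopologicalSpace.denseSeq (En n) k + (-s) • ev i + (-t) • ev j - x ∈ NC K x
    rw [h2]
    exact h1

end TightRP.Dens
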