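import Pool.Agent.Lib.MP_7cdc3e_gt.Spec
import Pool.Agent.Lib.MP_7cdc3e_gt.C.T3a
import Pool.Agent.Lib.MP_7cdc3e_gt.C.T3b

/-!
# MP_7cdc3e_gt, T3: density of the points whose normal cone has codimension at least four

`M` is a compact three-manifold, `ev : En n →ₗ (M → ℝ)` a finite dimensional space of continuous
functions on `M` which contains the constants and separates points.  For `z : M` let
`N z = {g | ev g ≥ 0, ev g z = 0}`.  Every nonempty open set contains a point `z` with
`finrank (span (N z)) + 4 ≤ n`.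

Proof.  Otherwise (Baire, `mem_pt`, `pt_closed`) an open set is mapped into a set of Hausdorff
dimension at most two (`pt_dimH`) by the embedding `F` of `M` in `En n`, a contradiction to
`three_le_dimH`.
-/

set_option autoImplicit false

namespace TightRP.Dens

open Set Metric Module Topology

/-- a nonempty open set of a space which is locally Euclidean of dimension three contains an
injective continuous image of the closed unit ball -/
theorem exists_ball {M : Type} [TopologicalSpace M] (hM : LocEuc3 M) (O : Set M) (hO : IsOpen O)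
    (hne : O.Nonempty) : ∃ c : E3 → M, Continuous c ∧ Function.Injective c ∧
      c '' closedBall 0 1 ⊆ O := by
  obtain ⟨x, hx⟩ := hne
  obtain ⟨U, hU, hxU, ⟨φ⟩⟩ := hM x
  let ψ : E3 → M := fun y => (φ.symm y : M)
  have hψ : Continuous ψ := continuous_subtype_val.comp φ.symm.continuous
  have hψi : Function.Injective ψ := fun a b h => φ.symm.injective (Subtype.ext h)
  have hx' : ψ (φ ⟨x, hxU⟩) = x := by
    change (φ.symm (φ ⟨x, hxU⟩) : M) = x
    rw [φ.symm_apply_apply]
  have hmem : ψ ⁻¹' O ∈ 𝓝 (φ ⟨x, hxU⟩) := by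
    refine (hO.preimage hψ).mem_nhds ?_
    change ψ (φ ⟨x, hxU⟩) ∈ O
    rw [hx']
    exact hx
  obtain ⟨r, hr, hsub⟩ := Metric.nhds_basis_closedBall.mem_iff.1 hmem
  refine ⟨fun y => ψ (φ ⟨x, hxU⟩ + r • y), hψ.comp (by fun_prop), ?_, ?_⟩
  · intro a b h
    have h1 := hψi h
    have h2 : r • a = r • b := add_left_cancel h1
    exact smul_right_injective E3 hr.ne' h2
  · rintro _ ⟨y, hy, rfl⟩
    apply hsub
    rw [mem_closedBall_iff_norm, add_sub_cancel_left, norm_smul, Real.norm_eq_abs,
      abs_of_pos hr]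
    rw [mem_closedBall_zero_iff] at hy
    nlinarith

/-- T3 -/
theorem dens {M : Type} [TopologicalSpace M] [CompactSpace M] [T2Space M] (hM : LocEuc3 M)
    {n : ℕ} (ev : En n →ₗ[ℝ] (M → ℝ)) (hc : ∀ g, Continuous (ev g)) (u : En n)
    (hu : ∀ x, ev u x = 1) (hsep : ∀ x y, (∀ g, ev g x = ev g y) → x = y) (O : Set M)
    (hO : IsOpen O) (hne : O.Nonempty) :
    ∃ z ∈ O, finrank ℝ (Submodule.span ℝ {g | (∀ x, 0 ≤ ev g x) ∧ ev g z = 0}) + 4 ≤ n := by
  classical
  by_contra hcon
  push Not at hcon
  -- the embedding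
  let F : M → En n := fun z => WithLp.toLp 2 (fun i => ev (EuclideanSpace.single i 1) z)
  have hFinner : ∀ (g : En n) (z : M), inner ℝ g (F z) = ev g z := by
    intro g z
    have h1 : g = ∑ i, g i • EuclideanSpace.single i (1 : ℝ) := by
      have h3 := (EuclideanSpace.basisFun (Fin n) ℝ).sum_repr g
      nth_rewrite 1 [← h3]
      refine Finset.sum_congr rfl fun i _ => ?_
      rw [EuclideanSpace.basisFun_repr, EuclideanSpace.basisFun_apply]
    have h2 : ev g z = ∑ i, g i * ev (EuclideanSpace.single i (1 : ℝ)) z := by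
      nth_rewrite 1 [h1]
      rw [map_sum, Finset.sum_apply]
      refine Finset.sum_congr rfl fun i _ => ?_
      rw [map_smul, Pi.smul_apply, smul_eq_mul]
    rw [h2, PiLp.inner_apply]
    refine Finset.sum_congr rfl fun i _ => ?_
    change inner ℝ (g i) (ev (EuclideanSpace.single i (1 : ℝ)) z) = _
    rw [real_inner_comm]
    simp
  have hFc : Continuous F := by
    refine (PiLp.continuous_toLp 2 _).comp ?_
    exact continuous_pi fun i => hc _
  have hFinj : Function.Injective F := by
    intro x y hxy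
    refine hsep x y fun g => ?_
    rw [← hFinner, ← hFinner, hxy]
  have hKc : IsCompact (range F) := isCompact_range hFc
  -- all points of `O` are bad
  have hbad : ∀ z ∈ O, ∃ (k : ℕ) (i j : Option (Fin n)) (m : ℕ),
      F z ∈ Pt (range F) (TopologicalSpace.denseSeq (En n) k) i j m := by
    intro z hz
    refine mem_pt (range F) (F z) ⟨z, rfl⟩ ?_
    have h1 := hcon z hz
    set S : Submodule ℝ (En n) := Submodule.span ℝ {g | (∀ x, 0 ≤ ev g x) ∧ ev g z = 0} with hS
    have hSz : ∀ g ∈ S, ev g z = 0 := by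
      intro g hg
      have h2 : S ≤ LinearMap.ker ((LinearMap.proj z).comp ev : En n →ₗ[ℝ] ℝ) := by
        rw [hS, Submodule.span_le]
        rintro g ⟨-, h3⟩
        exact h3
      exact h2 hg
    have huS : u ∉ S := by
      intro h2
      have h3 := hSz u h2
      rw [hu z] at h3
      exact one_ne_zero h3
    have h2 : S < S ⊔ Submodule.span ℝ {u} := by
      refine lt_of_le_of_ne le_sup_left ?_
      intro h3
      apply huS
      rw [h3]
      exact Submodule.mem_sup_right (Submodule.mem_span_singleton_self _)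
    have h3 := Submodule.finrank_lt_finrank_of_lt h2
    have h4 : S ⊔ Submodule.span ℝ {u} ≤ Submodule.span ℝ (NC (range F) (F z)) := by
      refine sup_le ?_ ?_
      · rw [hS, Submodule.span_le]
        rintro g ⟨hg1, hg2⟩
        have h5 : -g ∈ NC (range F) (F z) := by
          rintro _ ⟨y, rfl⟩
          rw [inner_sub_right, inner_neg_left, inner_neg_left, hFinner, hFinner, hg2]
          linarith [hg1 y]
        have h6 := Submodule.neg_mem _ (Submodule.subset_span (R := ℝ) h5)
        rw [neg_neg] at h6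
        exact h6
      · rw [Submodule.span_singleton_le_iff_mem]
        refine Submodule.subset_span ?_
        rintro _ ⟨y, rfl⟩
        rw [inner_sub_right, hFinner, hFinner, hu, hu, sub_self]
    have h5 := Submodule.finrank_mono h4
    omega
  -- Baire
  let ι : Type := ℕ × Option (Fin n) × Option (Fin n) × ℕ
  let P : ι → Set (En n) := fun a =>
    Pt (range F) (TopologicalSpace.denseSeq (En n) a.1) a.2.1 a.2.2.1 a.2.2.2
  let D : ι → Set M := fun a => F ⁻¹' P a ∪ Oᶜ
  have hD : ∀ a, IsClosed (D a) := fun a =>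
    ((pt_closed hKc _ _ _ _).preimage hFc).union hO.isClosed_compl
  have hU : ⋃ a, D a = univ := by
    rw [eq_univ_iff_forall]
    intro z
    rw [mem_iUnion]
    by_cases hz : z ∈ O
    · obtain ⟨k, i, j, m, h⟩ := hbad z hz
      exact ⟨(k, i, j, m), Or.inl h⟩
    · exact ⟨(0, none, none, 0), Or.inr hz⟩
  have hdense := dense_iUnion_interior_of_closed hD hU
  obtain ⟨z, hzO, hz⟩ := hdense.inter_open_nonempty O hO hne
  rw [mem_iUnion] at hz
  obtain ⟨a, ha⟩ := hz
  have hsub : O ∩ interior (D a) ⊆ F ⁻¹' P a := by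
    rintro y ⟨hy1, hy2⟩
    rcases interior_subset hy2 with h | h
    · exact h
    · exact absurd hy1 h
  obtain ⟨c, hcc, hci, hcs⟩ := exists_ball hM (O ∩ interior (D a)) (hO.inter isOpen_interior)
    ⟨z, hzO, ha⟩
  have h3 := three_le_dimH (fun y => F (c y)) (hFc.comp hcc).continuousOn
    ((hFinj.comp hci).injOn)
  have h4 : dimH ((fun y => F (c y)) '' closedBall 0 1) ≤ 2 := by
    refine (dimH_mono ?_).trans (pt_dimH (range F) (TopologicalSpace.denseSeq (En n) a.1) a.2.1
      a.2.2.1 a.2.2.2)
    rintro _ ⟨y, hy, rfl⟩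
    exact hsub (hcs ⟨y, hy, rfl⟩)
  have h5 := h3.trans h4
  norm_num at h5

end TightRP.Dens
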