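import Pool.Agent.Lib.MP_7cdc3e_gt.C.Defs
import Pool.Agent.Lib.MP_7cdc3e_gt.C.T3

/-!
# C32, T3: the regular points are dense
-/

set_option autoImplicit false

open HoloConj Pool.Agent.Lib.SingHom Module

namespace TightRP

namespace C3

/-- the nonnegative functions which vanish at `z` are a face -/
theorem isFace_Nf (ev : W →ₗ[ℝ] (RP3 → ℝ)) (z : RP3) : IsFace ev (Nf ev z) where
  sub := fun _ h => h.1
  zero := ⟨fun x => by rw [map_zero]; exact le_rfl, by rw [map_zero]; rfl⟩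
  add := by
    rintro g ⟨hg, hgz⟩ h ⟨hh, hhz⟩
    refine ⟨fun x => ?_, ?_⟩
    · rw [map_add]
      exact add_nonneg (hg x) (hh x)
    · rw [map_add, Pi.add_apply, hgz, hhz, add_zero]
  smul := by
    rintro t ht g ⟨hg, hgz⟩
    refine ⟨fun x => ?_, ?_⟩
    · rw [map_smul]
      exact mul_nonneg ht (hg x)
    · rw [map_smul, Pi.smul_apply, hgz, smul_zero]
  ext := by
    rintro g hg h hh ⟨-, hz⟩
    refine ⟨hg, ?_⟩
    rw [map_add, Pi.add_apply] at hz
    have h1 := hg z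
    have h2 := hh z
    linarith

/-- the regular points are dense (T3) -/
theorem reg_dense (h1 : S0Stmt) (h2 : SepStmt) (h3 : J3Stmt) {F : Type} [Field F]
    {ev : W →ₗ[ℝ] (RP3 → ℝ)} (hev : CSys F ev) (O : Set RP3) (hO : IsOpen O) (hne : O.Nonempty) :
    ∃ z ∈ O, Reg ev z := by
  have i1 := rTop.1
  have i2 := cptRP3
  obtain ⟨u, hu⟩ := hev.one
  obtain ⟨z, hz, hd⟩ := Dens.dens rTop.2.1 ev hev.cont u (fun x => congrFun hu x)
    (fun x y hxy => h2 F ev hev x y hxy) O hO hne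
  refine ⟨z, hz, h1 F ev hev z, ?_⟩
  obtain ⟨g, hg, hge⟩ := h1 F ev hev z
  have h6 := h3 F ev hev (Nf ev z) (isFace_Nf ev z) ⟨g, hg, hg.1, ⟨z, hg.2⟩, hge⟩
  have h4 : dm (Nf ev z) + 4 ≤ 10 := hd
  omega

end C3

end TightRP
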