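import Pool.Agent.Lib.MP_7cdc3e_gt.C.D2
import Pool.Agent.Lib.MP_7cdc3e_gt.A.FinB
import Pool.Agent.Lib.MP_7cdc3e_gt.A.Conn
import Pool.Agent.Lib.MP_7cdc3e_gt.A.Dom
import Pool.Agent.Lib.MP_7cdc3e_gt.A.One
import Pool.Agent.Lib.MP_7cdc3e_gt.A.Fib
import Pool.Agent.Lib.MP_7cdc3e_gt.A.Hom
import Pool.Agent.Lib.MP_7cdc3e_gt.A.Sys
import Pool.Agent.Lib.MP_7cdc3e_gt.A.Smo
import Pool.Agent.Lib.MP_7cdc3e_gt.H0Path
import Pool.Agent.Lib.MP_7cdc3e_gt.H0Low
import Pool.Agent.Lib.MP_7cdc3e_gt.Contr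
import Pool.Agent.Lib.MP_7cdc3e_gt.MVUp
import Pool.Agent.Lib.MP_7cdc3e_gt.Homeo
import Pool.Agent.Lib.MP_7cdc3e_gt.RPTop
import Pool.Agent.Lib.MP_7cdc3e_gt.RPHom

/-!
# MP_7cdc3e_gt, C: the Veronese case

If one cell is `PSD_3` and the points with cell `PSD_3` or finitely generated cell are dense then the
map is, after a homeomorphism, the Veronese embedding followed by a projective transformation.
-/

open HoloConj Pool.Agent.Lib.SingHom

namespace TightRP

namespace Ver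

/-- the connectedness of the half-spaces -/
theorem connStmt : ConnStmt := tConn tH0Path tH0Low

/-- the Veronese case for the map `f` -/
theorem ver_of {F : Type} [Field F] {f : RP3 → EuclideanSpace ℝ (Fin 9)} (hf : Continuous f)
    (hi : LocInj f) (hs : Substantial f) (ht : TightUpTo 1 F f) (Reg : Set RP3) (hReg : Dense Reg)
    (h : ∀ z ∈ Reg, Nonempty (PPt (aff f) z) ∨ FGc (aff f) z) {a : RP3} (A : PPt (aff f) a) :
    ∃ φ : RP3 ≃ₜ RP3, SmImm f φ ∧ Veronese f φ := by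
  have i1 := rTop.1
  have i2 := compact_RP3
  have i3 := rTop.2.2
  have hRH : RPHomStmt := rHom tContr tH0Path (tMVUp tContr tH0Path) tHomeo
  obtain ⟨hV, hfin⟩ := tSys F RP3 rTop.2.1 (hRH F) 9 f le_rfl hf hi hs ht
  have hOne : OneStmt := tOne tDom
  have hHom : HomStmt := tHom hOne (tFib hOne connStmt) rTop
  exact finish hHom smo hs hV (d2 (hsys_of connStmt hV) hfin Reg hReg h A)

end Ver

end TightRP
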