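import Pool.Agent.Lib.MP_7cdc3e_gt.C.T45
import Pool.Agent.Lib.MP_7cdc3e_gt.C.Conv
import Pool.Agent.Lib.MP_7cdc3e_gt.C.T3Reg
import Pool.Agent.Lib.MP_7cdc3e_gt.C.Ver
import Pool.Agent.Lib.MP_7cdc3e_gt.C.Poly
import Pool.Agent.Lib.MP_7cdc3e_gt.Q.All

/-!
# MP_7cdc3e_gt, C32: the assembly

`main2`: the theorem for fields of characteristic two, from the exports of the sections T1, T2
(`S0Stmt`, `SepStmt`, `FillStmt`, `J3Stmt`, `OutStmt`), T4 (`T4Stmt`, `PosPtStmt`) and T5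
(`D1.D1Stmt`);  T3, T6, T7 and the polyhedral case are theorems.
`mainAll`: all fields (in characteristic different from two there is no such map).
-/

set_option autoImplicit false

open Module

namespace TightRP

namespace C3

variable {ev : W →ₗ[ℝ] (RP3 → ℝ)} {z : RP3}

/-- the two forms of the hypotheses of T5 agree -/
theorem sysAt_of (h : D1.Sys (LK ev z) (ZK ev z)) : SysAt ev z := by
  have h1 : ZK ev z = {k : KK ev z | (k : W) = 0 ∨ (k : W) ∈ T2set ev} := by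
    ext k
    constructor
    · intro hk
      by_cases h0 : k = 0
      · left
        rw [h0]
        rfl
      · exact Or.inr (hk h0)
    · rintro (hk | hk) h0
      · exact (h0 (Subtype.ext hk)).elim
      · exact hk
  rw [h1] at h
  exact h

/-- symmetrization -/
noncomputable def symL : Matrix (Fin 3) (Fin 3) ℝ →ₗ[ℝ] Matrix (Fin 3) (Fin 3) ℝ :=
  (1 / 2 : ℝ) • (LinearMap.id + (Matrix.transposeLinearEquiv (Fin 3) (Fin 3) ℝ ℝ).toLinearMap)

theorem symL_apply (c : Matrix (Fin 3) (Fin 3) ℝ) (i j : Fin 3) :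
    symL c i j = (c i j + c j i) / 2 := by
  show (1 / 2 : ℝ) * (c i j + c j i) = _
  ring

theorem symL_of_symm {c : Matrix (Fin 3) (Fin 3) ℝ} (hc : c.IsSymm) : symL c = c := by
  ext i j
  rw [symL_apply, hc.apply i j]
  ring

/-- symmetric matrices are combinations of squares -/
theorem symL_sum (c : Matrix (Fin 3) (Fin 3) ℝ) :
    symL c = ∑ i, ∑ j, c i j • sy (Pi.single i 1) (Pi.single j 1) := by
  ext k l
  have e2 : (∑ i, ∑ j, c i j • sy (Pi.single i 1) (Pi.single j 1)) k l =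
      ∑ i, ∑ j, c i j * (((Pi.single i 1 : Ver.R3) k * (Pi.single j 1 : Ver.R3) l +
        (Pi.single i 1 : Ver.R3) l * (Pi.single j 1 : Ver.R3) k) / 2) := by
    simp only [Matrix.sum_apply, Matrix.smul_apply, smul_eq_mul, sy]
  rw [e2, symL_apply]
  fin_cases k <;> fin_cases l <;> simp [Fin.sum_univ_three, Pi.single_apply] <;> ring

/-- a cell `PSD_3` in the language of `W` gives one in the span of the cone -/
theorem psdAt_kk (h : PsdAt ev z) : ∃ Φ : Matrix (Fin 3) (Fin 3) ℝ →ₗ[ℝ] KK ev z,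
    (∀ c, c.IsSymm → Φ c = 0 → c = 0) ∧
      ∀ l : KK ev z, (l : W) ∈ Nf ev z ↔ ∃ c, D1.PSD3 c ∧ l = Φ c := by
  obtain ⟨Φ, h1, h2⟩ := h
  have hsq : ∀ p, Φ (sqm p) ∈ KK ev z := fun p =>
    Submodule.subset_span ((h2 _).2 ⟨sqm p, psd_sqm p, rfl⟩)
  have hmem : ∀ c, (Φ ∘ₗ symL) c ∈ KK ev z := by
    intro c
    show Φ (symL c) ∈ KK ev z
    rw [symL_sum, map_sum]
    refine Submodule.sum_mem _ fun i _ => ?_
    rw [map_sum]
    refine Submodule.sum_mem _ fun j _ => ?_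
    rw [map_smul, sy_polar, map_smul, map_sub]
    exact Submodule.smul_mem _ _ (Submodule.smul_mem _ _ (Submodule.sub_mem _ (hsq _) (hsq _)))
  have hcoe : ∀ c : Matrix (Fin 3) (Fin 3) ℝ, c.IsSymm →
      ((LinearMap.codRestrict (KK ev z) (Φ ∘ₗ symL) hmem c : KK ev z) : W) = Φ c := by
    intro c hc
    show Φ (symL c) = Φ c
    rw [symL_of_symm hc]
  refine ⟨LinearMap.codRestrict (KK ev z) (Φ ∘ₗ symL) hmem, fun c hc h0 => ?_, fun l => ?_⟩
  · apply h1 c hc
    rw [← hcoe c hc, h0]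
    rfl
  · rw [h2]
    constructor
    · rintro ⟨c, hc, hl⟩
      exact ⟨c, hc, Subtype.ext (hl.trans (hcoe c hc.1).symm)⟩
    · rintro ⟨c, hc, hl⟩
      exact ⟨c, hc, by rw [hl, hcoe c hc.1]⟩

/-- the theorem in characteristic two, from the exports of the sections -/
theorem main2 (h0 : S0Stmt) (hs : SepStmt) (hFill : FillStmt) (h3 : J3Stmt) (hO : OutStmt)
    (h4 : T4Stmt) (hP : PosPtStmt) (hD1 : D1.D1Stmt) {F : Type} [Field F] (h2 : (2 : F) = 0)
    {f : RP3 → EuclideanSpace ℝ (Fin 9)} (hf : Continuous f) (hi : LocInj f)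
    (hsub : Substantial f) (ht2 : TightUpTo 2 F f) :
    ∃ φ : RP3 ≃ₜ RP3, Ver.SmImm f φ ∧ Ver.Veronese f φ := by
  have ht : TightUpTo 1 F f := fun l c hl n hn => ht2 l c hl n (hn.trans one_le_two)
  obtain ⟨ev, hev, hr⟩ := exists_csys h2 hf hi hsub ht2
  have hd : Dense {z | Reg ev z} := by
    rw [dense_iff_inter_open]
    exact fun O hO' hne => reg_dense h0 hs h3 hev O hO' hne
  have hall : ∀ z, Reg ev z → (Nonempty (Ver.PPt (LinearMap.range ev) z) ∨
      ∃ g, Simp ev z g) := by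
    intro z hz
    have hS := h4 F ev hev z hz
    rcases d1_at hD1 hS with hg | hpsd
    · exact Or.inr hg
    · left
      obtain ⟨Φ, hΦ1, hΦ2⟩ := psdAt_kk hpsd
      exact ppt_of_psd hev.inj (sysAt_of hS) (hO F ev hev z hz) Φ hΦ1 hΦ2
  by_cases hex : ∃ a, Reg ev a ∧ Nonempty (Ver.PPt (LinearMap.range ev) a)
  · obtain ⟨a, -, ⟨A⟩⟩ := hex
    rw [hr] at A
    refine Ver.ver_of hf hi hsub ht {z | Reg ev z} hd (fun z hz => ?_) A
    rw [← hr]
    rcases hall z hz with h5 | ⟨g, hg⟩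
    · exact Or.inl h5
    · exact Or.inr hg.fgc
  · exfalso
    refine noPoly F 9 le_rfl ⟨f, hi, t7 hO hP hFill hs hev hf hr hd fun z hz => ?_, hsub, ht⟩
    rcases hall z hz with h5 | h5
    · exact (hex ⟨z, hz, h5⟩).elim
    · exact h5

/-- the theorem for all fields -/
theorem mainAll (h0 : S0Stmt) (hs : SepStmt) (hFill : FillStmt) (h3 : J3Stmt) (hO : OutStmt)
    (h4 : T4Stmt) (hP : PosPtStmt) (hD1 : D1.D1Stmt) : ∀ (F : Type) [Field F]
    (f : RP3 → EuclideanSpace ℝ (Fin 9)), Continuous f → LocInj f → Substantial f →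
    TightUpTo 2 F f → ∃ φ : RP3 ≃ₜ RP3, Ver.SmImm f φ ∧ Ver.Veronese f φ := by
  intro F _ f hf hi hsub ht
  by_cases h2 : (2 : F) = 0
  · exact main2 h0 hs hFill h3 hO h4 hP hD1 h2 hf hi hsub ht
  · exfalso
    have h5 := Q.aQ2 F h2 9 f hf hi hsub ht
    omega

end C3

end TightRP
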