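import Pool.Agent.Lib.MP_7cdc3e_gt.C.Defs

/-!
# MP_7cdc3e_gt, C32: the class `w`

For `Q ⊆ W` let `VE ev Q e` be the set of the pairs `(g, x)`, `g ∈ Q`, `x` in the sphere, with
`ev g (pj x) ≥ e`.  `av E` is the pull back of the class `a` to `E ⊆ W × S³`, and `W0 ev Q e` says that it
vanishes on `VE ev Q e`.  For compact `Q ⊆ T2set ev` and small `e > 0` the projection `VE ev Q e → Q` is
a Vietoris map, `w ∈ H¹(Q)` is the class with `fst^* w = av (VE ev Q e)`, and `W0 ev Q e` means `w = 0` on `Q`.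
-/

set_option autoImplicit false

open Module

namespace TightRP

namespace C3

section fe

variable (ev : W →ₗ[ℝ] (RP3 → ℝ))

/-- the function `(g, x) ↦ ev g (pj x)` -/
noncomputable def fe (p : W × E4) : ℝ := ev p.1 (pj p.2)

theorem fe_sum (p : W × E4) :
    fe ev p = ∑ i, p.1 i * ev (EuclideanSpace.single i 1) (pj p.2) := by
  have h1 : p.1 = ∑ i, p.1 i • (EuclideanSpace.single i (1 : ℝ) : W) := by
    have h := (EuclideanSpace.basisFun (Fin 10) ℝ).sum_repr p.1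
    simpa using h.symm
  unfold fe
  conv_lhs => rw [h1]
  rw [map_sum, Finset.sum_apply]
  refine Finset.sum_congr rfl fun i _ => ?_
  rw [map_smul, Pi.smul_apply, smul_eq_mul]

theorem fe_cont (hc : ∀ g, Continuous (ev g)) :
    ContinuousOn (fe ev) {p | p.2 ∈ Sp} := by
  have h : fe ev = fun p => ∑ i, p.1 i * ev (EuclideanSpace.single i 1) (pj p.2) :=
    funext (fe_sum ev)
  rw [h]
  refine continuousOn_finsetSum _ fun i _ => ContinuousOn.mul ?_ ?_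
  · exact Continuous.continuousOn (by fun_prop)
  · exact (hc _).comp_continuousOn (pj_cont.comp continuous_snd.continuousOn fun p hp => hp)

/-- a uniform bound -/
theorem ev_bound (hc : ∀ g, Continuous (ev g)) : ∃ C : ℝ, 0 < C ∧ ∀ g z, |ev g z| ≤ C * ‖g‖ := by
  have := cptRP3
  have h1 : ∀ i : Fin 10, ∃ c : ℝ, ∀ z, |ev (EuclideanSpace.single i 1) z| ≤ c := by
    intro i
    obtain ⟨c, hc'⟩ := (isCompact_univ (X := RP3)).exists_bound_of_continuousOn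
      (hc (EuclideanSpace.single i 1)).continuousOn
    exact ⟨c, fun z => hc' z trivial⟩
  choose c hc' using h1
  have hc0 : ∀ i, 0 ≤ c i := fun i => (abs_nonneg _).trans (hc' i (pj 0))
  refine ⟨∑ i, c i + 1, by
    have := Finset.sum_nonneg fun i (_ : i ∈ Finset.univ) => hc0 i
    linarith, fun g z => ?_⟩
  obtain ⟨x, hx, rfl⟩ := pj_surj z
  have h2 := fe_sum ev (g, x)
  have h3 : |ev g (pj x)| ≤ ∑ i, |g i * ev (EuclideanSpace.single i 1) (pj x)| := by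
    have h4 : ev g (pj x) = ∑ i, g i * ev (EuclideanSpace.single i 1) (pj x) := h2
    rw [h4]
    exact Finset.abs_sum_le_sum_abs _ _
  have h4 : ∑ i, |g i * ev (EuclideanSpace.single i 1) (pj x)| ≤ ∑ i, c i * ‖g‖ := by
    refine Finset.sum_le_sum fun i _ => ?_
    rw [abs_mul, mul_comm]
    have h5 : |g i| ≤ ‖g‖ := by
      have := PiLp.norm_apply_le g i
      simpa using this
    exact mul_le_mul (hc' i _) h5 (abs_nonneg _) (hc0 i)
  have h5 : (∑ i, c i + 1) * ‖g‖ = ∑ i, c i * ‖g‖ + ‖g‖ := by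
    rw [add_mul, Finset.sum_mul, one_mul]
  rw [h5]
  have := norm_nonneg g
  linarith

/-- the closed part `ev g (pj x) ≥ e` of the total space over `Q` -/
def VE (Q : Set W) (e : ℝ) : Set (W × E4) := {p | p.1 ∈ Q ∧ p.2 ∈ Sp ∧ e ≤ ev p.1 (pj p.2)}

variable {ev} in
theorem VE_mono {Q Q' : Set W} {e e' : ℝ} (h : Q ⊆ Q') (he : e' ≤ e) : VE ev Q e ⊆ VE ev Q' e' :=
  fun _ hp => ⟨h hp.1, hp.2.1, he.trans hp.2.2⟩

theorem VE_in2 (Q : Set W) (e : ℝ) : In2 (VE ev Q e) :=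
  ⟨fun _ hp => hp.2.1, fun p hp => ⟨hp.1, neg_mem_Sp hp.2.1, by rw [pj_neg hp.2.1]; exact hp.2.2⟩⟩

variable {ev} in
theorem VE_compact (hc : ∀ g, Continuous (ev g)) {Q : Set W} (hQ : IsCompact Q) (e : ℝ) :
    IsCompact (VE ev Q e) := by
  have h1 : IsCompact (Q ×ˢ Sp) := hQ.prod (isCompact_sphere _ _)
  have h2 : ContinuousOn (fe ev) (Q ×ˢ Sp) := (fe_cont ev hc).mono fun p hp => hp.2
  have h3 : VE ev Q e = (Q ×ˢ Sp) ∩ fe ev ⁻¹' Set.Ici e := by
    ext p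
    exact ⟨fun h => ⟨⟨h.1, h.2.1⟩, h.2.2⟩, fun h => ⟨h.1.1, h.1.2, h.2⟩⟩
  rw [h3]
  exact h1.of_isClosed_subset (h2.preimage_isClosed_of_isClosed h1.isClosed isClosed_Ici)
    Set.inter_subset_left

variable {ev} in
theorem VE_ok (hc : ∀ g, Continuous (ev g)) {Q : Set W} (hQ : IsCompact Q) (e : ℝ) :
    AS.Ok (Pm2 W) (VE ev Q e) := (VE_in2 ev Q e).ok (VE_compact hc hQ e)

end fe

/-! ## the class -/

section av

variable {B : Type} [MetricSpace B]

/-- the class `a` on a subset of `B × S³` -/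
noncomputable def av (E : Set (B × E4)) (hE : ∀ p ∈ E, p.2 ∈ Sp) : AS.H (Pm2 B) ∅ 1 E :=
  AS.pull Prod.snd (adm_snd (C := Sp) ∅ hE) 1 (AS.ap 1 Sp zero_notMem_Sp)

theorem res_av {E E' : Set (B × E4)} (hE : ∀ p ∈ E, p.2 ∈ Sp) (hE' : ∀ p ∈ E', p.2 ∈ Sp)
    (h : E' ⊆ E) : AS.res h 1 (av E hE) = av E' hE' := by
  unfold av
  rw [AS.res_pull (adm_snd (C := Sp) ∅ hE) (adm_snd (C := Sp) ∅ hE') h
    (Set.Subset.refl Sp), AS.res_self]

/-- if the second projection maps `E` to `C` and `a = 0` on `C` then `a = 0` on `E` -/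
theorem av_zero {E : Set (B × E4)} {C : Set E4} (hC : C ⊆ Sp) (h : ∀ p ∈ E, p.2 ∈ C)
    (h0 : AS.ap 1 C (fun h0 => zero_notMem_Sp (hC h0)) = 0) (hE : ∀ p ∈ E, p.2 ∈ Sp) :
    av E hE = 0 := by
  have h1 : AS.pull Prod.snd (adm_snd (C := C) ∅ h) 1
      (AS.res hC 1 (AS.ap 1 Sp zero_notMem_Sp)) = av E hE := by
    unfold av
    rw [← AS.res_pull (adm_snd (C := Sp) ∅ hE) (adm_snd (C := C) ∅ h) (Set.Subset.refl E)
      hC, AS.res_self]
  rw [← h1, AS.res_ap 1 zero_notMem_Sp hC (fun h0 => zero_notMem_Sp (hC h0)), h0, map_zero]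

end av

/-- `w = 0` on `Q` (at the level `e`) -/
def W0 (ev : W →ₗ[ℝ] (RP3 → ℝ)) (Q : Set W) (e : ℝ) : Prop :=
  av (VE ev Q e) (fun p hp => (VE_in2 ev Q e).sub p hp) = 0

theorem W0.mono {ev : W →ₗ[ℝ] (RP3 → ℝ)} {Q Q' : Set W} {e e' : ℝ} (h : W0 ev Q e) (hQ : Q' ⊆ Q)
    (he : e ≤ e') : W0 ev Q' e' := by
  have h1 := res_av (fun p hp => (VE_in2 ev Q e).sub p hp) (fun p hp => (VE_in2 ev Q' e').sub p hp)
    (VE_mono hQ he)
  unfold W0 at h ⊢
  rw [← h1, h, map_zero]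

end C3

end TightRP
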