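import Pool.Agent.Lib.AS.AllL
import Pool.Agent.Lib.MP_7cdc3e_gt.C.D1.All
import Pool.Agent.Lib.MP_7cdc3e_gt.C.J3.Main
import Pool.Agent.Lib.MP_7cdc3e_gt.C.Main
import Pool.Agent.Lib.MP_7cdc3e_gt.C.T1.Fill
import Pool.Agent.Lib.MP_7cdc3e_gt.C.T1.Ifc
import Pool.Agent.Lib.MP_7cdc3e_gt.T0.All

/-!
# MP_7cdc3e_gt, C32: the assembly with the pieces proved so far
-/

set_option autoImplicit false

namespace TightRP

namespace C3

theorem okJ3 : J3Stmt := j3 AS.okN1 AS.okN2 AS.okW1a AS.okW1b AS.R3.okSph AS.R3.okH3 AS.R3.okRP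
  T0.oxGen T0.oxOne T0.oxPow

theorem okTF : TFStmt := T1.okTF okJ3

theorem okFill : FillStmt := T1.fill

theorem okD1 : D1.D1Stmt := D1.d1

theorem mainF (h0 : S0Stmt) (hO : OutStmt) (h4 : T4Stmt) (hP : PosPtStmt) :
    ∀ (F : Type) [Field F] (f : RP3 → EuclideanSpace ℝ (Fin 9)), Continuous f → LocInj f →
    Substantial f → TightUpTo 2 F f → ∃ φ : RP3 ≃ₜ RP3, Ver.SmImm f φ ∧ Ver.Veronese f φ :=
  mainAll h0 (T1.sep_of_s0 h0) okFill okJ3 hO h4 hP okD1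

end C3

end TightRP
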