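import Pool.Agent.Lib.MP_7cdc3e_gt.C.Defs

/-!
# MP_7cdc3e_gt, C32: linear algebra at a point

* `exists_unit`: an order unit of the span of `Nf ev z` in `Nf ev z`;
* `exists_compl3`: a complement of dimension three of the span of `Nf ev z` in the functions which
  vanish at `z`, if `z` is regular.
-/

set_option autoImplicit false

open HoloConj Pool.Agent.Lib.SingHom Module

namespace TightRP

namespace C3

section

variable {ev : W →ₗ[ℝ] (RP3 → ℝ)}

theorem ev_add (g h : W) (x : RP3) : ev (g + h) x = ev g x + ev h x := by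
  rw [map_add, Pi.add_apply]

theorem ev_sub (g h : W) (x : RP3) : ev (g - h) x = ev g x - ev h x := by
  rw [map_sub, Pi.sub_apply]

theorem ev_smul (t : ℝ) (g : W) (x : RP3) : ev (t • g) x = t * ev g x := by
  rw [map_smul, Pi.smul_apply, smul_eq_mul]

theorem ev_neg (g : W) (x : RP3) : ev (-g) x = -ev g x := by
  rw [map_neg, Pi.neg_apply]

theorem ev_zero (x : RP3) : ev 0 x = 0 := by
  rw [map_zero, Pi.zero_apply]

theorem ev_sum {ι : Type*} (s : Finset ι) (g : ι → W) (x : RP3) :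
    ev (∑ i ∈ s, g i) x = ∑ i ∈ s, ev (g i) x := by
  rw [map_sum, Finset.sum_apply]

theorem Nf_add {z : RP3} {g h : W} (hg : g ∈ Nf ev z) (hh : h ∈ Nf ev z) : g + h ∈ Nf ev z := by
  refine ⟨fun x => ?_, ?_⟩
  · rw [ev_add]
    exact add_nonneg (hg.1 x) (hh.1 x)
  · rw [ev_add, hg.2, hh.2, add_zero]

theorem Nf_smul {z : RP3} {g : W} {t : ℝ} (ht : 0 ≤ t) (hg : g ∈ Nf ev z) : t • g ∈ Nf ev z := by
  refine ⟨fun x => ?_, ?_⟩
  · rw [ev_smul]
    exact mul_nonneg ht (hg.1 x)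
  · rw [ev_smul, hg.2, mul_zero]

theorem Nf_zero {z : RP3} : (0 : W) ∈ Nf ev z :=
  ⟨fun x => by rw [ev_zero], ev_zero z⟩

theorem Nf_sum {ι : Type*} {z : RP3} (s : Finset ι) (g : ι → W) (hg : ∀ i ∈ s, g i ∈ Nf ev z) :
    ∑ i ∈ s, g i ∈ Nf ev z := by
  classical
  induction s using Finset.induction_on with
  | empty => rw [Finset.sum_empty]; exact Nf_zero
  | insert a s ha ih =>
    rw [Finset.sum_insert ha]
    exact Nf_add (hg a (Finset.mem_insert_self a s))
      (ih fun i hi => hg i (Finset.mem_insert_of_mem hi))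

theorem bound_span {z : RP3} {k : W} (hk : k ∈ Submodule.span ℝ (Nf ev z)) :
    ∃ h ∈ Nf ev z, ∀ x, |ev k x| ≤ ev h x := by
  induction hk using Submodule.span_induction with
  | mem k hk => exact ⟨k, hk, fun x => by rw [abs_of_nonneg (hk.1 x)]⟩
  | zero => exact ⟨0, Nf_zero, fun x => by rw [ev_zero, abs_zero]⟩
  | add k l _ _ h1 h2 =>
    obtain ⟨h, hh, h3⟩ := h1
    obtain ⟨h', hh', h4⟩ := h2
    refine ⟨h + h', Nf_add hh hh', fun x => ?_⟩
    rw [ev_add, ev_add]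
    exact (abs_add_le _ _).trans (add_le_add (h3 x) (h4 x))
  | smul t k _ h1 =>
    obtain ⟨h, hh, h3⟩ := h1
    refine ⟨|t| • h, Nf_smul (abs_nonneg t) hh, fun x => ?_⟩
    rw [ev_smul, ev_smul, abs_mul]
    exact mul_le_mul_of_nonneg_left (h3 x) (abs_nonneg t)

/-- an order unit -/
theorem exists_unit (ev : W →ₗ[ℝ] (RP3 → ℝ)) (z : RP3) : ∃ h ∈ Nf ev z,
    ∀ k ∈ Submodule.span ℝ (Nf ev z), ∃ C > 0, ∀ x, |ev k x| ≤ C * ev h x := by
  classical
  let K : Submodule ℝ W := Submodule.span ℝ (Nf ev z)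
  let b := Module.finBasis ℝ K
  have h1 : ∀ i, ∃ h ∈ Nf ev z, ∀ x, |ev (b i : W) x| ≤ ev h x := fun i => bound_span (b i).2
  choose u hu hb using h1
  refine ⟨∑ i, u i, Nf_sum _ _ fun i _ => hu i, fun k hk => ?_⟩
  have h2 : k = ∑ i, b.repr ⟨k, hk⟩ i • (b i : W) := by
    have h3 := congrArg (fun y : K => (y : W)) (b.sum_repr ⟨k, hk⟩)
    simp only [Submodule.coe_sum, Submodule.coe_smul] at h3
    exact h3.symm
  refine ⟨∑ i, |b.repr ⟨k, hk⟩ i| + 1, by
    have := Finset.sum_nonneg fun i (_ : i ∈ Finset.univ) => abs_nonneg (b.repr ⟨k, hk⟩ i)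
    linarith, fun x => ?_⟩
  have hux : ∀ i, 0 ≤ ev (u i) x := fun i => (hu i).1 x
  have hsum : 0 ≤ ∑ i, ev (u i) x := Finset.sum_nonneg fun i _ => hux i
  have h4 : |ev k x| ≤ ∑ i, |b.repr ⟨k, hk⟩ i| * ev (u i) x := by
    conv_lhs => rw [h2]
    rw [ev_sum]
    refine (Finset.abs_sum_le_sum_abs _ _).trans (Finset.sum_le_sum fun i _ => ?_)
    rw [ev_smul, abs_mul]
    exact mul_le_mul_of_nonneg_left (hb i x) (abs_nonneg _)
  have h5 : ∑ i, |b.repr ⟨k, hk⟩ i| * ev (u i) x ≤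
      (∑ i, |b.repr ⟨k, hk⟩ i|) * ∑ i, ev (u i) x := by
    rw [Finset.sum_mul]
    refine Finset.sum_le_sum fun i _ => mul_le_mul_of_nonneg_left ?_ (abs_nonneg _)
    exact Finset.single_le_sum (f := fun i => ev (u i) x) (fun j _ => hux j) (Finset.mem_univ i)
  rw [ev_sum]
  calc |ev k x| ≤ _ := h4
    _ ≤ _ := h5
    _ ≤ (∑ i, |b.repr ⟨k, hk⟩ i| + 1) * ∑ i, ev (u i) x := by
        refine mul_le_mul_of_nonneg_right ?_ hsum
        linarith

/-- the functions which vanish at `z` -/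
noncomputable def Wz (ev : W →ₗ[ℝ] (RP3 → ℝ)) (z : RP3) : Submodule ℝ W where
  carrier := {g | ev g z = 0}
  add_mem' := by
    intro g h hg hh
    have hg' : ev g z = 0 := hg
    have hh' : ev h z = 0 := hh
    show ev (g + h) z = 0
    rw [ev_add, hg', hh', add_zero]
  zero_mem' := ev_zero z
  smul_mem' := by
    intro t g hg
    have hg' : ev g z = 0 := hg
    show ev (t • g) z = 0
    rw [ev_smul, hg', mul_zero]

theorem mem_Wz {z : RP3} {g : W} : g ∈ Wz ev z ↔ ev g z = 0 := Iff.rfl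

theorem span_le_Wz (z : RP3) : Submodule.span ℝ (Nf ev z) ≤ Wz ev z :=
  Submodule.span_le.mpr fun _ h => h.2

theorem finrank_Wz {u : W} (hu : ev u = fun _ => 1) (z : RP3) : finrank ℝ (Wz ev z) = 9 := by
  let φ : W →ₗ[ℝ] ℝ := (LinearMap.proj z : (RP3 → ℝ) →ₗ[ℝ] ℝ) ∘ₗ ev
  have hφ : ∀ g, φ g = ev g z := fun g => rfl
  have h1 : Wz ev z = LinearMap.ker φ := by
    ext g
    rw [LinearMap.mem_ker, hφ]
    rfl
  have h2 : LinearMap.range φ = ⊤ := by
    rw [LinearMap.range_eq_top]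
    intro t
    refine ⟨t • u, ?_⟩
    rw [hφ, ev_smul, hu, mul_one]
  have h3 := LinearMap.finrank_range_add_finrank_ker φ
  rw [h2, finrank_top, finrank_self, finrank_euclideanSpace_fin] at h3
  rw [h1]
  omega

/-- the complement -/
theorem exists_compl3 {F : Type} [Field F] (h : CSys F ev) {z : RP3} (hz : Reg ev z) :
    ∃ U : Submodule ℝ W, U ≤ Wz ev z ∧ Submodule.span ℝ (Nf ev z) ⊓ U = ⊥ ∧
      Submodule.span ℝ (Nf ev z) ⊔ U = Wz ev z ∧ finrank ℝ U = 3 := by
  obtain ⟨u, hu⟩ := h.one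
  let K : Submodule ℝ W := Submodule.span ℝ (Nf ev z)
  have hK : K ≤ Wz ev z := span_le_Wz z
  have h6 : finrank ℝ K = 6 := hz.2
  obtain ⟨V, hV⟩ := Submodule.exists_isCompl (K.comap (Wz ev z).subtype)
  refine ⟨V.map (Wz ev z).subtype, Submodule.map_subtype_le _ _, ?_, ?_, ?_⟩
  · rw [eq_bot_iff]
    rintro g ⟨hg, v, hv, rfl⟩
    have h1 : v ∈ K.comap (Wz ev z).subtype := hg
    have h2 : v ∈ (K.comap (Wz ev z).subtype) ⊓ V := ⟨h1, hv⟩
    rw [hV.inf_eq_bot] at h2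
    rw [Submodule.mem_bot] at h2 ⊢
    rw [h2]
    rfl
  · have h1 : K = (K.comap (Wz ev z).subtype).map (Wz ev z).subtype := by
      rw [Submodule.map_comap_subtype, inf_eq_right.mpr hK]
    have h2 : (K.comap (Wz ev z).subtype).map (Wz ev z).subtype ⊔ V.map (Wz ev z).subtype =
        Wz ev z := by
      rw [← Submodule.map_sup, hV.sup_eq_top, Submodule.map_top, Submodule.range_subtype]
    calc Submodule.span ℝ (Nf ev z) ⊔ V.map (Wz ev z).subtype
        = (K.comap (Wz ev z).subtype).map (Wz ev z).subtype ⊔ V.map (Wz ev z).subtype := by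
          rw [← h1]
      _ = _ := h2
  · have h1 := Submodule.finrank_add_eq_of_isCompl hV
    rw [finrank_Wz hu z] at h1
    have h2 : finrank ℝ (K.comap (Wz ev z).subtype) = 6 := by
      rw [← h6, ← Submodule.finrank_map_subtype_eq (Wz ev z) (K.comap (Wz ev z).subtype),
        Submodule.map_comap_subtype, inf_eq_right.mpr hK]
    rw [Submodule.finrank_map_subtype_eq]
    omega

end

end C3

end TightRP
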