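import Pool.Agent.Lib.MP_7cdc3e_gt.C.Fin
import Pool.Agent.Lib.MP_7cdc3e_gt.C.T2.KL
import Pool.Agent.Lib.MP_7cdc3e_gt.C.T2.PropP
import Pool.Agent.Lib.MP_7cdc3e_gt.C.T2.Exp
import Pool.Agent.Lib.MP_7cdc3e_gt.C.T2.WexA
import Pool.Agent.Lib.MP_7cdc3e_gt.C.T4.T4At

/-!
# MP_7cdc3e_gt, C32: the theorem
-/

set_option autoImplicit false

namespace TightRP

namespace C3

theorem okP : PropPStmt := T2h.propP T2h.okK T2h.okL

theorem okS0w : S0wStmt := T2h.s0w T2h.okK okP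

theorem okNm : NmStmt := T1.okNm

theorem okW : WFStmt := T2h.wfStmt

theorem okS0 : S0Stmt := T2h.s0 okNm okTF okW T2h.okK okS0w

theorem okOut : OutStmt := T2h.out okNm okTF okW T2h.okK okP okS0w

theorem okW2 : W2Stmt := T2h.w2 okS0w

theorem okT4 : T4Stmt := t4_at okNm okTF okW okW2 (T1.sep_of_s0 okS0)

theorem mainN : ∀ (F : Type) [Field F] (f : RP3 → EuclideanSpace ℝ (Fin 9)), Continuous f → LocInj f →
    Substantial f → TightUpTo 2 F f → ∃ φ : RP3 ≃ₜ RP3, Ver.SmImm f φ ∧ Ver.Veronese f φ :=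
  mainF okS0 okOut okT4 posPt

end C3

end TightRP
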