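import Pool.Agent.Lib.MP_7cdc3e_gt.C.PTrip
import Pool.Agent.Lib.MP_7cdc3e_gt.C.Exp

/-!
# MP_7cdc3e_gt, C: the ten functions are linearly independent

Paper proof: `T6.md`, section 4.
-/

namespace TightRP

namespace Ver

open Filter Topology

variable {M : Type} {V : Submodule ℝ (M → ℝ)} {a : M}

/-- the rank one relation at a point where the first function is positive -/
private theorem ind_point {A : PPt V a} {e : Fin 4 → Fin 4 → M → ℝ} {P : Fin 3 → R3}
    (hQ : PQuad A e P) (y : M) (u : R3 →ₗ[ℝ] ℝ) (hu : ∀ p r, A.S p r y = u p * u r)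
    (h0 : u (P 0) ≠ 0) :
    ∃ w : ℝ, (∀ i j : Fin 3, e i.castSucc j.castSucc y = u (P i) * u (P j)) ∧
      (∀ i : Fin 3, e i.castSucc 3 y = u (P i) * w) ∧ e 3 3 y = w * w := by
  have h1 : ∀ i j : Fin 3, e i.castSucc j.castSucc y = u (P i) * u (P j) := by
    intro i j
    rw [hQ.eA, hu]
  have e00 : e 0 0 y = u (P 0) * u (P 0) := h1 0 0
  have e01 : e 0 1 y = u (P 0) * u (P 1) := h1 0 1
  have e02 : e 0 2 y = u (P 0) * u (P 2) := h1 0 2
  obtain ⟨p, hp⟩ := hQ.r2 y
  obtain ⟨q, hq⟩ := hQ.r1 y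
  have p00 := hp 0 0 (by decide) (by decide)
  have p01 := hp 0 1 (by decide) (by decide)
  have p03 := hp 0 3 (by decide) (by decide)
  have p13 := hp 1 3 (by decide) (by decide)
  have p33 := hp 3 3 (by decide) (by decide)
  have q00 := hq 0 0 (by decide) (by decide)
  have q02 := hq 0 2 (by decide) (by decide)
  have q03 := hq 0 3 (by decide) (by decide)
  have q23 := hq 2 3 (by decide) (by decide)
  have key0 : e 0 3 y = u (P 0) * (e 0 3 y / u (P 0)) := (mul_div_cancel₀ _ h0).symm
  set w := e 0 3 y / u (P 0) with hw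
  have hsq : u (P 0) * u (P 0) ≠ 0 := mul_ne_zero h0 h0
  refine ⟨w, h1, ?_, ?_⟩
  · intro i
    fin_cases i
    · exact key0
    · change e 1 3 y = u (P 1) * w
      apply mul_left_cancel₀ hsq
      calc u (P 0) * u (P 0) * e 1 3 y = e 0 0 y * e 1 3 y := by rw [e00]
        _ = e 0 1 y * e 0 3 y := by rw [p00, p13, p01, p03]; ring
        _ = u (P 0) * u (P 0) * (u (P 1) * w) := by rw [e01, key0]; ring
    · change e 2 3 y = u (P 2) * w
      apply mul_left_cancel₀ hsq
      calc u (P 0) * u (P 0) * e 2 3 y = e 0 0 y * e 2 3 y := by rw [e00]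
        _ = e 0 2 y * e 0 3 y := by rw [q00, q23, q02, q03]; ring
        _ = u (P 0) * u (P 0) * (u (P 2) * w) := by rw [e02, key0]; ring
  · apply mul_left_cancel₀ hsq
    calc u (P 0) * u (P 0) * e 3 3 y = e 0 0 y * e 3 3 y := by rw [e00]
      _ = e 0 3 y * e 0 3 y := by rw [p00, p33, p03]; ring
      _ = u (P 0) * u (P 0) * (w * w) := by rw [key0]; ring

/-- the quadratic part -/
private def q3 (k : Matrix (Fin 4) (Fin 4) ℝ) (x y z : ℝ) : ℝ :=
  k 0 0 * x ^ 2 + k 1 1 * y ^ 2 + k 2 2 * z ^ 2 + 2 * (k 0 1 * x * y + k 0 2 * x * z + k 1 2 * y * z)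

/-- the linear part -/
private def l3 (k : Matrix (Fin 4) (Fin 4) ℝ) (x y z : ℝ) : ℝ :=
  k 0 3 * x + k 1 3 * y + k 2 3 * z

private theorem ind_expand {e : Fin 4 → Fin 4 → M → ℝ} (k : Matrix (Fin 4) (Fin 4) ℝ)
    (hk : k.IsSymm) (he : ∀ i j, e i j = e j i) (y : M) (x0 x1 x2 w : ℝ)
    (h1 : ∀ i j : Fin 3, e i.castSucc j.castSucc y = ![x0, x1, x2] i * ![x0, x1, x2] j)
    (h2 : ∀ i : Fin 3, e i.castSucc 3 y = ![x0, x1, x2] i * w) (h3 : e 3 3 y = w * w) :
    (∑ i, ∑ j, k i j • e i j) y = q3 k x0 x1 x2 + 2 * w * l3 k x0 x1 x2 + k 3 3 * w ^ 2 := by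
  have hs : ∀ i j, k i j = k j i := fun i j => by
    have := congrFun (congrFun hk j) i
    simpa [Matrix.transpose_apply] using this
  have a00 : e 0 0 y = x0 * x0 := h1 0 0
  have a01 : e 0 1 y = x0 * x1 := h1 0 1
  have a02 : e 0 2 y = x0 * x2 := h1 0 2
  have a10 : e 1 0 y = x1 * x0 := h1 1 0
  have a11 : e 1 1 y = x1 * x1 := h1 1 1
  have a12 : e 1 2 y = x1 * x2 := h1 1 2
  have a20 : e 2 0 y = x2 * x0 := h1 2 0
  have a21 : e 2 1 y = x2 * x1 := h1 2 1
  have a22 : e 2 2 y = x2 * x2 := h1 2 2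
  have a03 : e 0 3 y = x0 * w := h2 0
  have a13 : e 1 3 y = x1 * w := h2 1
  have a23 : e 2 3 y = x2 * w := h2 2
  have a30 : e 3 0 y = x0 * w := by rw [he 3 0]; exact a03
  have a31 : e 3 1 y = x1 * w := by rw [he 3 1]; exact a13
  have a32 : e 3 2 y = x2 * w := by rw [he 3 2]; exact a23
  simp only [Fin.sum_univ_four, Pi.add_apply, Pi.smul_apply, smul_eq_mul, a00, a01, a02, a03,
    a10, a11, a12, a13, a20, a21, a22, a23, a30, a31, a32, h3, hs 1 0, hs 2 0, hs 3 0, hs 2 1,
    hs 3 1, hs 3 2, q3, l3]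
  ring

theorem pquad_indep [TopologicalSpace M] (hV : HSys V) [FiniteDimensional ℝ V] {A : PPt V a}
    {e : Fin 4 → Fin 4 → M → ℝ} {P : Fin 3 → R3} (hQ : PQuad A e P)
    (k : Matrix (Fin 4) (Fin 4) ℝ) (hk : k.IsSymm) (hk0 : ∑ i, ∑ j, k i j • e i j = 0) :
    k = 0 := by
  have hs : ∀ i j, k i j = k j i := fun i j => by
    have := congrFun (congrFun hk j) i
    simpa [Matrix.transpose_apply] using this
  -- the cell
  set G : Set M := {y | ∀ p, A.S p p y = 0} with hG
  have hGc : IsClosed G := by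
    have : G = ⋂ p, {y | A.S p p y = 0} := by
      ext y
      simp [hG]
    rw [this]
    exact isClosed_iInter fun p => isClosed_eq (hV.cont _ (A.mem _ _)) continuous_const
  have haG : a ∈ G := fun p => A.ata p p
  obtain ⟨h, hhV, x, hxG, hx0, hκ, hneg, hconst⟩ :=
    exposed hV G hGc (e 3 3) (hQ.mem 3 3) a haG hQ.pos
  -- the values at `x`
  have hSx : ∀ p r, A.S p r x = 0 := by
    intro p r
    obtain ⟨u, hu⟩ := A.rk x
    have h1 : u p = 0 := mul_self_eq_zero.1 (by rw [← hu]; exact hxG p)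
    rw [hu, h1, zero_mul]
  have hex : ∀ i j : Fin 3, e i.castSucc j.castSucc x = 0 := fun i j => by rw [hQ.eA, hSx]
  have he3x : ∀ i : Fin 3, e i.castSucc 3 x = 0 := by
    obtain ⟨p, hp⟩ := hQ.r2 x
    obtain ⟨q, hq⟩ := hQ.r1 x
    have z00 : e 0 0 x = 0 := hex 0 0
    have z11 : e 1 1 x = 0 := hex 1 1
    have z22 : e 2 2 x = 0 := hex 2 2
    rw [hp 0 0 (by decide) (by decide)] at z00
    rw [hp 1 1 (by decide) (by decide)] at z11
    rw [hq 2 2 (by decide) (by decide)] at z22
    intro i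
    fin_cases i
    · change e 0 3 x = 0
      rw [hp 0 3 (by decide) (by decide), mul_self_eq_zero.1 z00, zero_mul]
    · change e 1 3 x = 0
      rw [hp 1 3 (by decide) (by decide), mul_self_eq_zero.1 z11, zero_mul]
    · change e 2 3 x = 0
      rw [hq 2 3 (by decide) (by decide), mul_self_eq_zero.1 z22, zero_mul]
  set κ := e 3 3 x with hκd
  have k33 : k 3 3 = 0 := by
    have h1 := ind_expand k hk hQ.symm x 0 0 0 (Real.sqrt κ)
      (by
        intro i j
        rw [hex]
        fin_cases i <;> simp)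
      (by
        intro i
        rw [he3x]
        fin_cases i <;> simp)
      (Real.mul_self_sqrt hκ.le).symm
    rw [hk0] at h1
    simp only [Pi.zero_apply, q3, l3, mul_zero, add_zero, ne_eq, OfNat.ofNat_ne_zero,
      not_false_eq_true, zero_pow, zero_add, Real.sq_sqrt hκ.le] at h1
    rcases mul_eq_zero.1 h1.symm with h2 | h2
    · exact h2
    · exact absurd h2 hκ.ne'
  -- the sequences
  have key : ∀ v : Fin 3 → ℝ, v 0 ≠ 0 → l3 k (v 0) (v 1) (v 2) = 0 ∧
      ((∀ x y z, l3 k x y z = 0) → q3 k (v 0) (v 1) (v 2) = 0) := by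
    intro v hv
    obtain ⟨φ, hφ⟩ : ∃ φ : R3 →ₗ[ℝ] ℝ, ∀ i, φ (P i) = v i := by
      let b := basisOfLinearIndependentOfCardEqFinrank hQ.li (by simp)
      refine ⟨b.constr ℝ v, fun i => ?_⟩
      have := b.constr_basis ℝ v i
      rwa [coe_basisOfLinearIndependentOfCardEqFinrank] at this
    have hφ0 : φ ≠ 0 := by
      rintro rfl
      exact hv (by rw [← hφ 0]; rfl)
    have hseq : ∀ n : ℕ, ∃ (y : M) (u : R3 →ₗ[ℝ] ℝ) (s : ℝ),
        (∀ i j, |e i j y - e i j x| < 1 / ((n : ℝ) + 1)) ∧ 0 < s ∧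
        (∀ p r, A.S p r y = u p * u r) ∧
        ∀ i : Fin 3, |u (Pi.single i 1) - s * φ (Pi.single i 1)| ≤ 1 / ((n : ℝ) + 1) * s := by
      intro n
      have hn : (0 : ℝ) < 1 / ((n : ℝ) + 1) := by positivity
      obtain ⟨y, hy, u, s, h1, h2, h3⟩ := see2 hV A h hhV x hxG hx0 (fun y hy => hneg y hy)
        {y | ∀ i j, |e i j y - e i j x| < 1 / ((n : ℝ) + 1)}
        (by
          have : {y | ∀ i j, |e i j y - e i j x| < 1 / ((n : ℝ) + 1)} =
              ⋂ i, ⋂ j, {y | |e i j y - e i j x| < 1 / ((n : ℝ) + 1)} := by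
            ext y
            simp
          rw [this]
          exact isOpen_iInter_of_finite fun i => isOpen_iInter_of_finite fun j =>
            isOpen_lt ((hV.cont _ (hQ.mem i j)).sub continuous_const).abs continuous_const)
        (by
          intro y hy hy0 i j
          rw [hconst y hy hy0 _ (hQ.mem i j), sub_self, abs_zero]
          exact hn)
        φ hφ0 _ hn
      exact ⟨y, u, s, hy, h1, h2, h3⟩
    choose y u s hy hs0 hu hus using hseq
    have hlim0 : Tendsto (fun n : ℕ => 1 / ((n : ℝ) + 1)) atTop (𝓝 0) :=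
      tendsto_one_div_add_atTop_nhds_zero_nat
    -- convergence of the functions
    have hE : ∀ i j, Tendsto (fun n => e i j (y n)) atTop (𝓝 (e i j x)) := by
      intro i j
      rw [tendsto_iff_dist_tendsto_zero]
      refine squeeze_zero (fun n => dist_nonneg) (fun n => ?_) hlim0
      rw [Real.dist_eq]
      exact (hy n i j).le
    -- convergence of the directions
    have hD : ∀ p : R3, Tendsto (fun n => u n p / s n) atTop (𝓝 (φ p)) := by
      have h1 : ∀ i : Fin 3, Tendsto (fun n => u n (Pi.single i 1) / s n) atTop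
          (𝓝 (φ (Pi.single i 1))) := by
        intro i
        rw [tendsto_iff_dist_tendsto_zero]
        refine squeeze_zero (fun n => dist_nonneg) (fun n => ?_) hlim0
        rw [Real.dist_eq]
        have h2 : u n (Pi.single i 1) / s n - φ (Pi.single i 1) =
            (u n (Pi.single i 1) - s n * φ (Pi.single i 1)) / s n := by
          rw [sub_div, mul_div_cancel_left₀ _ (hs0 n).ne']
        rw [h2, abs_div, abs_of_pos (hs0 n), div_le_iff₀ (hs0 n)]
        exact hus n i
      intro p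
      have hform : ∀ ψ : R3 →ₗ[ℝ] ℝ, ψ p = ∑ i, p i * ψ (Pi.single i 1) := by
        intro ψ
        have hs : p = ∑ i, p i • (Pi.single i 1 : R3) := by
          ext k
          simp [Finset.sum_apply, Pi.single_apply]
        conv_lhs => rw [hs]
        simp only [map_sum, map_smul, smul_eq_mul]
      have h3 : ∀ n, u n p / s n = ∑ i, p i * (u n (Pi.single i 1) / s n) := by
        intro n
        rw [hform (u n), Finset.sum_div]
        exact Finset.sum_congr rfl fun i _ => by ring
      simp only [h3]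
      rw [hform φ]
      exact tendsto_finsetSum _ fun i _ => (h1 i).const_mul _
    have hV0 := hD (P 0)
    have hV1 := hD (P 1)
    have hV2 := hD (P 2)
    rw [hφ] at hV0 hV1 hV2
    have hne : ∀ᶠ n in atTop, u n (P 0) / s n ≠ 0 := hV0.eventually_ne hv
    -- `s n ^ 2 → 0`
    have hs2 : Tendsto (fun n => s n ^ 2) atTop (𝓝 0) := by
      have h1 : Tendsto (fun n => e 0 0 (y n) / (u n (P 0) / s n) ^ 2) atTop
          (𝓝 (e 0 0 x / v 0 ^ 2)) := (hE 0 0).div (hV0.pow 2) (pow_ne_zero 2 hv)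
      have h2 : e 0 0 x = 0 := hex 0 0
      rw [h2, zero_div] at h1
      refine h1.congr' ?_
      filter_upwards [hne] with n hn
      have h3 : e 0 0 (y n) = u n (P 0) * u n (P 0) := by
        have := hQ.eA 0 0
        change e 0 0 = _ at this
        rw [this, hu]
      have h4 : u n (P 0) ≠ 0 := fun h => hn (by rw [h, zero_div])
      rw [h3]
      have := (hs0 n).ne'
      field_simp
    -- the relation
    have hrel : ∀ᶠ n in atTop, ∃ w : ℝ, e 3 3 (y n) = w * w ∧
        s n * q3 k (u n (P 0) / s n) (u n (P 1) / s n) (u n (P 2) / s n) +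
        2 * w * l3 k (u n (P 0) / s n) (u n (P 1) / s n) (u n (P 2) / s n) = 0 := by
      filter_upwards [hne] with n hn
      have h4 : u n (P 0) ≠ 0 := fun h => hn (by rw [h, zero_div])
      obtain ⟨w, hw1, hw2, hw3⟩ := ind_point hQ (y n) (u n) (hu n) h4
      refine ⟨w, hw3, ?_⟩
      have h5 := ind_expand k hk hQ.symm (y n) (u n (P 0)) (u n (P 1)) (u n (P 2)) w
        (by
          intro i j
          rw [hw1]
          fin_cases i <;> fin_cases j <;> rfl)
        (by
          intro i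
          rw [hw2]
          fin_cases i <;> rfl) hw3
      rw [hk0, k33] at h5
      simp only [Pi.zero_apply, zero_mul, add_zero] at h5
      have h6 := (hs0 n).ne'
      have h7 : s n * (s n * q3 k (u n (P 0) / s n) (u n (P 1) / s n) (u n (P 2) / s n) +
          2 * w * l3 k (u n (P 0) / s n) (u n (P 1) / s n) (u n (P 2) / s n)) = 0 := by
        rw [h5]
        simp only [q3, l3]
        field_simp
      exact (mul_eq_zero.1 h7).resolve_left h6
    have hq : Tendsto (fun n => q3 k (u n (P 0) / s n) (u n (P 1) / s n) (u n (P 2) / s n)) atTop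
        (𝓝 (q3 k (v 0) (v 1) (v 2))) := by
      unfold q3
      exact ((((hV0.pow 2).const_mul _).add ((hV1.pow 2).const_mul _)).add
        ((hV2.pow 2).const_mul _)).add ((((hV0.const_mul _).mul hV1).add
          ((hV0.const_mul _).mul hV2)).add ((hV1.const_mul _).mul hV2) |>.const_mul _)
    have hl : Tendsto (fun n => l3 k (u n (P 0) / s n) (u n (P 1) / s n) (u n (P 2) / s n)) atTop
        (𝓝 (l3 k (v 0) (v 1) (v 2))) := by
      unfold l3
      exact ((hV0.const_mul _).add (hV1.const_mul _)).add (hV2.const_mul _)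
    constructor
    · have h1 : Tendsto (fun n => s n ^ 2 *
          q3 k (u n (P 0) / s n) (u n (P 1) / s n) (u n (P 2) / s n) ^ 2) atTop
          (𝓝 (0 * q3 k (v 0) (v 1) (v 2) ^ 2)) := hs2.mul (hq.pow 2)
      have h2 : Tendsto (fun n => 4 * e 3 3 (y n) *
          l3 k (u n (P 0) / s n) (u n (P 1) / s n) (u n (P 2) / s n) ^ 2) atTop
          (𝓝 (4 * κ * l3 k (v 0) (v 1) (v 2) ^ 2)) := ((hE 3 3).const_mul 4).mul (hl.pow 2)
      have h3 : (fun n => s n ^ 2 *
          q3 k (u n (P 0) / s n) (u n (P 1) / s n) (u n (P 2) / s n) ^ 2) =ᶠ[atTop]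
          (fun n => 4 * e 3 3 (y n) *
          l3 k (u n (P 0) / s n) (u n (P 1) / s n) (u n (P 2) / s n) ^ 2) := by
        filter_upwards [hrel] with n hn
        obtain ⟨w, hw, hr⟩ := hn
        rw [hw]
        have h5 : s n * q3 k (u n (P 0) / s n) (u n (P 1) / s n) (u n (P 2) / s n) =
            -(2 * w * l3 k (u n (P 0) / s n) (u n (P 1) / s n) (u n (P 2) / s n)) := by
          linarith
        calc s n ^ 2 * q3 k (u n (P 0) / s n) (u n (P 1) / s n) (u n (P 2) / s n) ^ 2 =
            (s n * q3 k (u n (P 0) / s n) (u n (P 1) / s n) (u n (P 2) / s n)) ^ 2 := by ring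
          _ = _ := by rw [h5]; ring
      have h4 := tendsto_nhds_unique (h1.congr' h3) h2
      rw [zero_mul] at h4
      have h5 : l3 k (v 0) (v 1) (v 2) ^ 2 = 0 := by
        rcases mul_eq_zero.1 h4.symm with h6 | h6
        · exact absurd h6 (by positivity)
        · exact h6
      exact pow_eq_zero_iff two_ne_zero |>.1 h5
    · intro hl0
      have h1 : (fun n => q3 k (u n (P 0) / s n) (u n (P 1) / s n) (u n (P 2) / s n)) =ᶠ[atTop]
          fun _ => (0 : ℝ) := by
        filter_upwards [hrel] with n hn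
        obtain ⟨w, -, hr⟩ := hn
        rw [hl0, mul_zero, add_zero] at hr
        exact (mul_eq_zero.1 hr).resolve_left (hs0 n).ne'
      exact tendsto_nhds_unique (hq.congr' h1) tendsto_const_nhds
  -- the end
  have key' : ∀ x y z : ℝ, x ≠ 0 → l3 k x y z = 0 ∧ ((∀ x y z, l3 k x y z = 0) → q3 k x y z = 0) :=
    fun x y z hx => key ![x, y, z] hx
  have l1 := (key' 1 0 0 one_ne_zero).1
  have l2 := (key' 1 1 0 one_ne_zero).1
  have l4 := (key' 1 0 1 one_ne_zero).1
  simp only [l3, mul_one, mul_zero, add_zero] at l1 l2 l4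
  have k13 : k 1 3 = 0 := by linarith
  have k23 : k 2 3 = 0 := by linarith
  have hl0 : ∀ x y z, l3 k x y z = 0 := fun x y z => by
    simp only [l3, l1, k13, k23, zero_mul, add_zero]
  have m1 := (key' 1 0 0 one_ne_zero).2 hl0
  have m2 := (key' 1 1 0 one_ne_zero).2 hl0
  have m3 := (key' 1 (-1) 0 one_ne_zero).2 hl0
  have m4 := (key' 1 0 1 one_ne_zero).2 hl0
  have m5 := (key' 1 0 (-1) one_ne_zero).2 hl0
  have m6 := (key' 1 1 1 one_ne_zero).2 hl0
  simp only [q3] at m1 m2 m3 m4 m5 m6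
  have k00 : k 0 0 = 0 := by linarith
  have k11 : k 1 1 = 0 := by linarith
  have k01 : k 0 1 = 0 := by linarith
  have k22 : k 2 2 = 0 := by linarith
  have k02 : k 0 2 = 0 := by linarith
  have k12 : k 1 2 = 0 := by linarith
  ext i j
  fin_cases i <;> fin_cases j <;> first
    | exact k00 | exact k01 | exact k02 | exact l1
    | exact (hs 1 0).trans k01 | exact k11 | exact k12 | exact k13
    | exact (hs 2 0).trans k02 | exact (hs 2 1).trans k12 | exact k22 | exact k23
    | exact (hs 3 0).trans l1 | exact (hs 3 1).trans k13 | exact (hs 3 2).trans k23 | exact k33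

end Ver

end TightRP
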