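import Pool.Agent.Lib.MP_7cdc3e_gt.C.Ind

/-!
# MP_7cdc3e_gt, C: ten independent functions in a space of dimension ten
-/

namespace TightRP

namespace Ver

variable {M : Type} {V : Submodule ℝ (M → ℝ)} {a : M}

/-- the symmetric matrix with given entries -/
private noncomputable def symm10 (c : Fin 10 → ℝ) : Matrix (Fin 4) (Fin 4) ℝ :=
  !![c 0, c 1 / 2, c 2 / 2, c 3 / 2; c 1 / 2, c 4, c 5 / 2, c 6 / 2; c 2 / 2, c 5 / 2, c 7, c 8 / 2;
    c 3 / 2, c 6 / 2, c 8 / 2, c 9]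

private theorem symm10_symm (c : Fin 10 → ℝ) : (symm10 c).IsSymm := by
  ext i j
  fin_cases i <;> fin_cases j <;> rfl

private theorem symm10_sum {e : Fin 4 → Fin 4 → M → ℝ} (he : ∀ i j, e i j = e j i)
    (c : Fin 10 → ℝ) : ∑ i, ∑ j, symm10 c i j • e i j =
      ∑ n, c n • ![e 0 0, e 0 1, e 0 2, e 0 3, e 1 1, e 1 2, e 1 3, e 2 2, e 2 3, e 3 3] n := by
  simp only [symm10, Fin.sum_univ_succ, Fin.sum_univ_zero]
  simp [he 1 0, he 2 0, he 3 0, he 2 1, he 3 1, he 3 2]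
  module

theorem quad_of [TopologicalSpace M] (hV : HSys V) (h10 : Module.finrank ℝ V = 10)
    {A : PPt V a} {e : Fin 4 → Fin 4 → M → ℝ} {P : Fin 3 → R3} (hQ : PQuad A e P) : Quad V e := by
  have hfin : FiniteDimensional ℝ V := Module.finite_of_finrank_pos (by omega)
  refine ⟨hQ.mem, hQ.symm, ?_, hQ.r3, hQ.r2, hQ.r1⟩
  let g : Fin 10 → V := ![⟨e 0 0, hQ.mem _ _⟩, ⟨e 0 1, hQ.mem _ _⟩, ⟨e 0 2, hQ.mem _ _⟩,
    ⟨e 0 3, hQ.mem _ _⟩, ⟨e 1 1, hQ.mem _ _⟩, ⟨e 1 2, hQ.mem _ _⟩, ⟨e 1 3, hQ.mem _ _⟩,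
    ⟨e 2 2, hQ.mem _ _⟩, ⟨e 2 3, hQ.mem _ _⟩, ⟨e 3 3, hQ.mem _ _⟩]
  have hg : ∀ n, (g n).1 =
      ![e 0 0, e 0 1, e 0 2, e 0 3, e 1 1, e 1 2, e 1 3, e 2 2, e 2 3, e 3 3] n := by
    intro n
    fin_cases n <;> rfl
  have hsum : ∀ c : Fin 10 → ℝ, (∑ n, c n • g n).1 = ∑ i, ∑ j, symm10 c i j • e i j := by
    intro c
    rw [symm10_sum hQ.symm, Submodule.coe_sum]
    refine Finset.sum_congr rfl fun n _ => ?_
    rw [Submodule.coe_smul, hg]
  have hli : LinearIndependent ℝ g := by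
    rw [Fintype.linearIndependent_iff]
    intro c hc
    have h1 := hsum c
    rw [hc] at h1
    have h2 := pquad_indep hV hQ (symm10 c) (symm10_symm c) h1.symm
    have h3 : ∀ i j, symm10 c i j = 0 := fun i j => by rw [h2]; rfl
    have a00 : c 0 = 0 := h3 0 0
    have a01 : c 1 / 2 = 0 := h3 0 1
    have a02 : c 2 / 2 = 0 := h3 0 2
    have a03 : c 3 / 2 = 0 := h3 0 3
    have a11 : c 4 = 0 := h3 1 1
    have a12 : c 5 / 2 = 0 := h3 1 2
    have a13 : c 6 / 2 = 0 := h3 1 3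
    have a22 : c 7 = 0 := h3 2 2
    have a23 : c 8 / 2 = 0 := h3 2 3
    have a33 : c 9 = 0 := h3 3 3
    intro n
    fin_cases n
    · exact a00
    · change c 1 = 0
      linarith
    · change c 2 = 0
      linarith
    · change c 3 = 0
      linarith
    · exact a11
    · change c 5 = 0
      linarith
    · change c 6 = 0
      linarith
    · exact a22
    · change c 8 = 0
      linarith
    · exact a33
  have hspan := hli.span_eq_top_of_card_eq_finrank' (by rw [h10]; simp)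
  intro l hl
  have h1 : (⟨l, hl⟩ : V) ∈ Submodule.span ℝ (Set.range g) := by rw [hspan]; trivial
  obtain ⟨c, hc⟩ := (Submodule.mem_span_range_iff_exists_fun ℝ).1 h1
  refine ⟨symm10 c, symm10_symm c, ?_⟩
  rw [← hsum, hc]

end Ver

end TightRP
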