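import Pool.Agent.Lib.MP_7cdc3e_gt.C.PPair

/-!
# MP_7cdc3e_gt, C: three points with cells `PSD_3`

The proof is the first half of that of `A/Trip.lean`.
-/

namespace TightRP

namespace Ver

private theorem ptrip_ker (u v : R3 →ₗ[ℝ] ℝ) : ∃ p : R3, p ≠ 0 ∧ u p = 0 ∧ v p = 0 := by
  have h := LinearMap.ker_ne_bot_of_finrank_lt (f := u.prod v) (by simp)
  obtain ⟨p, hp, hp0⟩ := (Submodule.ne_bot_iff _).1 h
  have h1 := LinearMap.mem_ker.1 hp
  exact ⟨p, hp0, congrArg Prod.fst h1, congrArg Prod.snd h1⟩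

/-- a vector with prescribed zero -/
private theorem ptrip_shift (u v : R3 →ₗ[ℝ] ℝ) (p q : R3) (hp : u p = 0) (hvp : v p ≠ 0)
    (hq : u q ≠ 0) : ∃ r : R3, v r = 0 ∧ u r ≠ 0 := by
  refine ⟨q - (v q / v p) • p, ?_, ?_⟩
  · rw [map_sub, map_smul, smul_eq_mul, div_mul_cancel₀ _ hvp, sub_self]
  · rw [map_sub, map_smul, hp, smul_zero, sub_zero]
    exact hq

section

variable {M : Type} {V : Submodule ℝ (M → ℝ)}

private theorem ptrip_expand {a : M} (A : PPt V a) (p r : R3) :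
    A.S p r = ∑ i, ∑ j, (p i * r j) • A.S (Pi.single i 1) (Pi.single j 1) := by
  have hs : ∀ q : R3, q = ∑ i, q i • (Pi.single i 1 : R3) := by
    intro q
    ext k
    simp [Finset.sum_apply, Pi.single_apply]
  conv_lhs => rw [hs p, hs r]
  simp only [map_sum, map_smul, LinearMap.sum_apply, LinearMap.smul_apply, Finset.smul_sum, smul_smul]
  rw [Finset.sum_comm]
  refine Finset.sum_congr rfl fun i _ => Finset.sum_congr rfl fun j _ => ?_
  rw [mul_comm]

private theorem ptrip_sign {a : M} (A : PPt V a) (s s' : R3) (h : A.S s s = A.S s' s') :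
    s' = s ∨ s' = -s := by
  have h0 : (fun i j => s i * s j - s' i * s' j : Matrix (Fin 3) (Fin 3) ℝ) = 0 := by
    apply A.indep
    · ext i j
      change s j * s i - s' j * s' i = s i * s j - s' i * s' j
      ring
    · have h1 := ptrip_expand A s s
      have h2 := ptrip_expand A s' s'
      have h3 : A.S s s - A.S s' s' = 0 := sub_eq_zero.2 h
      rw [h1, h2, ← Finset.sum_sub_distrib] at h3
      rw [← h3]
      refine Finset.sum_congr rfl fun i _ => ?_
      rw [← Finset.sum_sub_distrib]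
      refine Finset.sum_congr rfl fun j _ => ?_
      rw [sub_smul]
  have h1 : ∀ i j, s i * s j = s' i * s' j := by
    intro i j
    have : s i * s j - s' i * s' j = 0 := congrFun (congrFun h0 i) j
    linarith
  by_cases hs : ∃ i, s i ≠ 0
  · obtain ⟨i, hi⟩ := hs
    have h2 : s' i = s i ∨ s' i = -s i := by
      have := h1 i i
      apply sq_eq_sq_iff_eq_or_eq_neg.1
      rw [pow_two, pow_two]
      exact this.symm
    rcases h2 with h2 | h2
    · left
      ext j
      have := h1 i j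
      rw [h2] at this
      exact (mul_left_cancel₀ hi this).symm
    · right
      ext j
      have := h1 i j
      rw [h2, neg_mul, ← mul_neg] at this
      rw [Pi.neg_apply, mul_left_cancel₀ hi this, neg_neg]
  · push Not at hs
    left
    ext j
    have := h1 j j
    rw [hs j, zero_mul] at this
    rw [hs j]
    exact mul_self_eq_zero.1 this.symm

end

/-- ten functions of `V` which are almost `u_i u_j`; the first six are those of `A` -/
structure PQuad {M : Type} {V : Submodule ℝ (M → ℝ)} {a : M} (A : PPt V a)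
    (e : Fin 4 → Fin 4 → M → ℝ) (P : Fin 3 → R3) : Prop where
  li : LinearIndependent ℝ P
  eA : ∀ i j : Fin 3, e i.castSucc j.castSucc = A.S (P i) (P j)
  pos : 0 < e 3 3 a
  mem : ∀ i j, e i j ∈ V
  symm : ∀ i j, e i j = e j i
  r3 : ∀ x, ∃ u : Fin 4 → ℝ, ∀ i j, i ≠ 3 → j ≠ 3 → e i j x = u i * u j
  r2 : ∀ x, ∃ u : Fin 4 → ℝ, ∀ i j, i ≠ 2 → j ≠ 2 → e i j x = u i * u j
  r1 : ∀ x, ∃ u : Fin 4 → ℝ, ∀ i j, i ≠ 1 → j ≠ 1 → e i j x = u i * u j

theorem ptrip {M : Type} {V : Submodule ℝ (M → ℝ)} {a b c : M} (A : PPt V a) (B : PPt V b)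
    (C : PPt V c) (hAb : ∃ p, A.S p p b ≠ 0) (hBa : ∃ p, B.S p p a ≠ 0) (hAc : ∃ p, A.S p p c ≠ 0)
    (hCa : ∃ p, C.S p p a ≠ 0) (hBc : ∃ p, B.S p p c ≠ 0) (hCb : ∃ p, C.S p p b ≠ 0)
    (hp : ∃ p, A.S p p b = 0 ∧ A.S p p c ≠ 0) :
    ∃ (e : Fin 4 → Fin 4 → M → ℝ) (P : Fin 3 → R3), PQuad A e P := by
  obtain ⟨uab, huab⟩ := A.rk b
  obtain ⟨uac, huac⟩ := A.rk c
  obtain ⟨uba, huba⟩ := B.rk a
  obtain ⟨ubc, hubc⟩ := B.rk c
  obtain ⟨uca, huca⟩ := C.rk a
  obtain ⟨p2, hp2, hp2'⟩ := hp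
  rw [huab] at hp2
  rw [huac] at hp2'
  have hp2b : uab p2 = 0 := mul_self_eq_zero.1 hp2
  have hp2c : uac p2 ≠ 0 := fun h => hp2' (by rw [h, mul_zero])
  obtain ⟨q, hq⟩ := id hAb
  have hq' : uab q ≠ 0 := fun h => hq (by rw [huab, h, mul_zero])
  obtain ⟨p3, hp3c, hp3b⟩ := ptrip_shift uab uac p2 q hp2b hp2c hq'
  obtain ⟨p1, hp10, hp1b, hp1c⟩ := ptrip_ker uab uac
  -- the three maps
  obtain ⟨Tab, hTab⟩ := ppair A B hAb hBa
  obtain ⟨Tac, hTac⟩ := ppair A C hAc hCa
  obtain ⟨Tbc, hTbc⟩ := ppair B C hBc hCb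
  have kab : ∀ p, uab p = 0 → A.S p p b = 0 := fun p hp => by rw [huab, hp, mul_zero]
  have kac : ∀ p, uac p = 0 → A.S p p c = 0 := fun p hp => by rw [huac, hp, mul_zero]
  have kbc : ∀ p, ubc p = 0 → B.S p p c = 0 := fun p hp => by rw [hubc, hp, mul_zero]
  set r1 := Tab p1 with hr1
  set r2 := Tab p2 with hr2
  have e11 : A.S p1 p1 = B.S r1 r1 := hTab _ _ (kab _ hp1b) (kab _ hp1b)
  have e12 : A.S p1 p2 = B.S r1 r2 := hTab _ _ (kab _ hp1b) (kab _ hp2b)
  have e22 : A.S p2 p2 = B.S r2 r2 := hTab _ _ (kab _ hp2b) (kab _ hp2b)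
  have ur1a : uba r1 = 0 := by
    have : B.S r1 r1 a = 0 := by rw [← e11]; exact A.ata _ _
    rw [huba] at this
    exact mul_self_eq_zero.1 this
  have ur2a : uba r2 = 0 := by
    have : B.S r2 r2 a = 0 := by rw [← e22]; exact A.ata _ _
    rw [huba] at this
    exact mul_self_eq_zero.1 this
  have ur1c : ubc r1 = 0 := by
    have : B.S r1 r1 c = 0 := by rw [← e11]; exact kac _ hp1c
    rw [hubc] at this
    exact mul_self_eq_zero.1 this
  have ur2c : ubc r2 ≠ 0 := by
    intro h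
    have : A.S p2 p2 c = 0 := by rw [e22, hubc, h, mul_zero]
    rw [huac] at this
    exact hp2c (mul_self_eq_zero.1 this)
  obtain ⟨q2, hq2⟩ := id hBa
  have hq2' : uba q2 ≠ 0 := fun h => hq2 (by rw [huba, h, mul_zero])
  obtain ⟨r4, hr4c, hr4a⟩ := ptrip_shift uba ubc r2 q2 ur2a ur2c hq2'
  set s1 := Tac p1 with hs1
  set s3 := Tac p3 with hs3
  have f11 : A.S p1 p1 = C.S s1 s1 := hTac _ _ (kac _ hp1c) (kac _ hp1c)
  have f13 : A.S p1 p3 = C.S s1 s3 := hTac _ _ (kac _ hp1c) (kac _ hp3c)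
  have f33 : A.S p3 p3 = C.S s3 s3 := hTac _ _ (kac _ hp3c) (kac _ hp3c)
  have us3a : uca s3 = 0 := by
    have : C.S s3 s3 a = 0 := by rw [← f33]; exact A.ata _ _
    rw [huca] at this
    exact mul_self_eq_zero.1 this
  -- choice of the sign
  obtain ⟨s4, g14, g44⟩ : ∃ s4 : R3, B.S r1 r4 = C.S s1 s4 ∧ B.S r4 r4 = C.S s4 s4 := by
    have t11 : B.S r1 r1 = C.S (Tbc r1) (Tbc r1) := hTbc _ _ (kbc _ ur1c) (kbc _ ur1c)
    have t14 : B.S r1 r4 = C.S (Tbc r1) (Tbc r4) := hTbc _ _ (kbc _ ur1c) (kbc _ hr4c)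
    have t44 : B.S r4 r4 = C.S (Tbc r4) (Tbc r4) := hTbc _ _ (kbc _ hr4c) (kbc _ hr4c)
    have hsgn := ptrip_sign C s1 (Tbc r1) (by rw [← f11, e11, t11])
    rcases hsgn with h | h
    · exact ⟨Tbc r4, by rw [t14, h], t44⟩
    · refine ⟨-Tbc r4, ?_, ?_⟩
      · rw [t14, h, map_neg, map_neg, LinearMap.neg_apply]
      · rw [t44, map_neg, map_neg, LinearMap.neg_apply, neg_neg]
  -- the ten functions
  let e : Fin 4 → Fin 4 → M → ℝ :=
    ![![A.S p1 p1, A.S p1 p2, A.S p1 p3, B.S r1 r4],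
      ![A.S p1 p2, A.S p2 p2, A.S p2 p3, B.S r2 r4],
      ![A.S p1 p3, A.S p2 p3, A.S p3 p3, C.S s3 s4],
      ![B.S r1 r4, B.S r2 r4, C.S s3 s4, B.S r4 r4]]
  have hsymm : ∀ i j, e i j = e j i := by
    intro i j
    fin_cases i <;> fin_cases j <;> rfl
  have hmem : ∀ i j, e i j ∈ V := by
    intro i j
    fin_cases i <;> fin_cases j <;> first | exact A.mem _ _ | exact B.mem _ _ | exact C.mem _ _
  have hr3 : ∀ x, ∃ u : Fin 4 → ℝ, ∀ i j, i ≠ 3 → j ≠ 3 → e i j x = u i * u j := by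
    intro x
    obtain ⟨u, hu⟩ := A.rk x
    refine ⟨![u p1, u p2, u p3, 0], ?_⟩
    intro i j hi hj
    fin_cases i <;> fin_cases j <;>
      first
      | exact absurd rfl hi
      | exact absurd rfl hj
      | exact hu _ _
      | exact (hu _ _).trans (mul_comm _ _)
  have hr2 : ∀ x, ∃ u : Fin 4 → ℝ, ∀ i j, i ≠ 2 → j ≠ 2 → e i j x = u i * u j := by
    intro x
    obtain ⟨u, hu⟩ := B.rk x
    have E11 : A.S p1 p1 x = u r1 * u r1 := by rw [e11]; exact hu _ _
    have E12 : A.S p1 p2 x = u r1 * u r2 := by rw [e12]; exact hu _ _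
    have E22 : A.S p2 p2 x = u r2 * u r2 := by rw [e22]; exact hu _ _
    refine ⟨![u r1, u r2, 0, u r4], ?_⟩
    intro i j hi hj
    fin_cases i <;> fin_cases j <;>
      first
      | exact absurd rfl hi
      | exact absurd rfl hj
      | exact E11
      | exact E12
      | exact E22
      | exact E12.trans (mul_comm _ _)
      | exact hu _ _
      | exact (hu _ _).trans (mul_comm _ _)
  have hr1 : ∀ x, ∃ u : Fin 4 → ℝ, ∀ i j, i ≠ 1 → j ≠ 1 → e i j x = u i * u j := by
    intro x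
    obtain ⟨u, hu⟩ := C.rk x
    have E11 : A.S p1 p1 x = u s1 * u s1 := by rw [f11]; exact hu _ _
    have E13 : A.S p1 p3 x = u s1 * u s3 := by rw [f13]; exact hu _ _
    have E33 : A.S p3 p3 x = u s3 * u s3 := by rw [f33]; exact hu _ _
    have E14 : B.S r1 r4 x = u s1 * u s4 := by rw [g14]; exact hu _ _
    have E44 : B.S r4 r4 x = u s4 * u s4 := by rw [g44]; exact hu _ _
    refine ⟨![u s1, 0, u s3, u s4], ?_⟩
    intro i j hi hj
    fin_cases i <;> fin_cases j <;>
      first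
      | exact absurd rfl hi
      | exact absurd rfl hj
      | exact E11
      | exact E13
      | exact E33
      | exact E14
      | exact E44
      | exact E13.trans (mul_comm _ _)
      | exact E14.trans (mul_comm _ _)
      | exact hu _ _
      | exact (hu _ _).trans (mul_comm _ _)
  refine ⟨e, ![p1, p2, p3], ?_, ?_, ?_, hmem, hsymm, hr3, hr2, hr1⟩
  · rw [Fintype.linearIndependent_iff]
    intro g hg
    rw [Fin.sum_univ_three] at hg
    change g 0 • p1 + g 1 • p2 + g 2 • p3 = 0 at hg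
    have g2 : g 2 = 0 := by
      have := congrArg uab hg
      rw [map_add, map_add, map_smul, map_smul, map_smul, hp1b, hp2b, map_zero, smul_zero,
        smul_zero, add_zero, zero_add, smul_eq_mul] at this
      exact (mul_eq_zero.1 this).resolve_right hp3b
    have g1 : g 1 = 0 := by
      have := congrArg uac hg
      rw [map_add, map_add, map_smul, map_smul, map_smul, hp1c, hp3c, map_zero, smul_zero,
        smul_zero, add_zero, zero_add, smul_eq_mul] at this
      exact (mul_eq_zero.1 this).resolve_right hp2c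
    have g0 : g 0 = 0 := by
      rw [g2, g1, zero_smul, zero_smul, add_zero, add_zero] at hg
      exact (smul_eq_zero.1 hg).resolve_right hp10
    intro i
    fin_cases i
    · exact g0
    · exact g1
    · exact g2
  · have hsy := A.symm
    intro i j
    fin_cases i <;> fin_cases j <;> first | rfl | exact hsy _ _
  · change 0 < B.S r4 r4 a
    rw [huba]
    exact mul_self_pos.2 hr4a

end Ver

end TightRP
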