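import Pool.Agent.Lib.MP_7cdc3e_gt.C.Defs
import Pool.Agent.Lib.MP_7cdc3e_gt.Q.Sph
import Pool.Agent.Lib.MP_7cdc3e_gt.A.Cross
import Pool.Agent.Lib.MP_7cdc3e_gt.A.Conn
import Pool.Agent.Lib.MP_7cdc3e_gt.A.Join
import Pool.Agent.Lib.MP_7cdc3e_gt.A.Supp
import Pool.Agent.Lib.MP_7cdc3e_gt.Susp
import Pool.Agent.Lib.MP_7cdc3e_gt.P3
import Pool.Agent.Lib.MP_7cdc3e_gt.Circle
import Pool.Agent.Lib.MP_7cdc3e_gt.H0Low

/-!
# MP_7cdc3e_gt, C32, T4c: cycles in even open sets are boundaries; the topological part of RANGE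
-/

set_option autoImplicit false

open HoloConj Pool.Agent.Lib.SingHom Module

namespace TightRP

namespace C3

theorem sSph : Q.S_Sph :=
  Q.qSph (mSusp tContr tH0Path) (mP3 (mSusp tContr tH0Path) (mCircle tContr tH0Path tH0Low))

theorem mk_open {V : Set Q.S3} (hV : IsOpen V) : IsOpen (Q.mk '' V) := by
  have hq : Topology.IsQuotientMap (Quotient.mk antipodal) := isQuotientMap_quotient_mk'
  have h1 : IsOpen (Quotient.mk antipodal ⁻¹' (Q.mk '' V)) := by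
    have h2 : Quotient.mk antipodal ⁻¹' (Q.mk '' V) = V ∪ (fun x : Q.S3 => -x) ⁻¹' V := by
      ext x
      constructor
      · rintro ⟨y, hy, h3⟩
        rcases Quotient.exact h3 with h4 | h4
        · left
          have h5 : y = x := Subtype.ext h4
          rwa [← h5]
        · right
          have h5 : y = -x := Subtype.ext h4
          show -x ∈ V
          rwa [← h5]
      · rintro (h3 | h3)
        · exact ⟨x, h3, rfl⟩
        · exact ⟨-x, h3, Quotient.sound (Or.inr rfl)⟩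
    rw [h2]
    exact hV.union (hV.preimage continuous_neg)
  exact hq.isOpen_preimage.1 h1

/-- a section of the double cover over an even open set -/
theorem even_section {U : Set RP3} (hE : Even U) :
    ∃ s : C(U, Q.S3), Q.mkC.comp s = incl U := by
  obtain ⟨W, hW, h1⟩ := hE
  have h2 : ∀ u : U, ∃ x : Q.S3, Q.mk x = u.1 ∧ x.1 ∈ W := by
    intro u
    obtain ⟨x, hx, hxu⟩ := pj_surj u.1
    have hxU : x ∈ up U := ⟨hx, by rw [hxu]; exact u.2⟩
    by_cases hxW : x ∈ W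
    · exact ⟨⟨x, hx⟩, by rw [← hxu, pj_mk hx]; rfl, hxW⟩
    · refine ⟨⟨-x, neg_mem_Sp hx⟩, ?_, ?_⟩
      · rw [← hxu, ← pj_neg hx, pj_mk (neg_mem_Sp hx)]
        rfl
      · by_contra h3
        exact hxW ((h1 x hxU).2 h3)
  choose s hs hsW using h2
  have huniq : ∀ (u : U) (x : Q.S3), Q.mk x = u.1 → x.1 ∈ W → s u = x := by
    intro u x hx hxW
    have h3 : Q.mk (s u) = Q.mk x := by rw [hs, hx]
    rcases Quotient.exact h3 with h4 | h4
    · exact Subtype.ext h4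
    · exfalso
      have hxU : x.1 ∈ up U := ⟨x.2, by
        rw [pj_mk x.2]
        show Q.mk x ∈ U
        rw [hx]
        exact u.2⟩
      have h5 := (h1 x.1 hxU).1 hxW
      apply h5
      rw [← h4]
      exact hsW u
  have hcont : Continuous s := by
    rw [continuous_def]
    intro V hV
    have hT : IsOpen (V ∩ {x : Q.S3 | x.1 ∈ W}) := hV.inter (hW.preimage continuous_subtype_val)
    have h3 : s ⁻¹' V = Subtype.val ⁻¹' (Q.mk '' (V ∩ {x : Q.S3 | x.1 ∈ W})) := by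
      ext u
      constructor
      · intro hu
        exact ⟨s u, ⟨hu, hsW u⟩, hs u⟩
      · rintro ⟨x, ⟨hxV, hxW⟩, hxu⟩
        show s u ∈ V
        rw [huniq u x hxu hxW]
        exact hxV
    rw [h3]
    exact (mk_open hT).preimage continuous_subtype_val
  refine ⟨⟨s, hcont⟩, ?_⟩
  ext u
  exact hs u

theorem inU_mono {F : Type} [Field F] {X : Type} [TopologicalSpace X] {S T : Set X} (h : S ⊆ T)
    {n : ℕ} {c : SC F X n} (hc : c ∈ inU F S n) : c ∈ inU F T n := by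
  have h1 : inU F S n ≤ inU F T n := Finsupp.supported_mono fun σ hσ t => h (hσ t)
  exact h1 hc

/-- (i15): a cycle of dimension one in an even open set is a boundary -/
theorem bdry_of_even {F : Type} [Field F] {U : Set RP3} (hE : Even U)
    {z : SC F RP3 1} (hz : z ∈ inU F U 1) (hc : sbd F 0 z = 0) : IsBdry F 1 z := by
  obtain ⟨c, rfl⟩ := exists_lift hz
  obtain ⟨s, hs⟩ := even_section hE
  have h1 : sbd F 0 c = 0 := by
    apply smp_injective (f := incl U) Subtype.val_injective 0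
    rw [map_zero, ← hc, sbd_smp]
  have h2 : IsCyc F 1 (smp F s 1 c) := by
    show sbd F 0 (smp F s 1 c) = 0
    rw [sbd_smp, h1, map_zero]
  have h3 : IsBdry F 1 (smp F s 1 c) := by
    have := (sSph F).1
    exact (cls_eq_zero F (⟨smp F s 1 c, (mem_Zc F).2 h2⟩ : Zc F Q.S3 1)).1 (Subsingleton.elim _ _)
  have h4 := h3.smp Q.mkC
  rw [← hs]
  have h5 : smp F (Q.mkC.comp s) 1 c = smp F Q.mkC 1 (smp F s 1 c) := by
    rw [smp_comp]
  rw [h5]
  exact h4




/-- the topological part of RANGE: two functions without common zero outside of `X`, all combinations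
of which are somewhere positive, do not exist if compact sets outside of `X` are contained in even
half-spaces which do not meet `X` -/
def RngStmt : Prop := ∀ (F : Type) [Field F] (ev : W →ₗ[ℝ] (RP3 → ℝ)), CSys F ev →
  ∀ (X : Set RP3) (k₁ k₂ : W), (∀ x ∈ X, ev k₁ x = 0 ∧ ev k₂ x = 0) →
  (∀ Q : Set RP3, IsCompact Q → (∀ x ∈ Q, x ∉ X) → ∃ χ : W, (∀ x ∈ Q, 0 < ev χ x) ∧
    (∀ x ∈ X, ev χ x ≤ 0) ∧ Even {x | 0 < ev χ x}) →
  (∀ s t : ℝ, (s ≠ 0 ∨ t ≠ 0) → ∃ y, 0 < ev (s • k₁ + t • k₂) y) →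
  ∃ y, y ∉ X ∧ ev k₁ y = 0 ∧ ev k₂ y = 0

theorem ev_comb (ev : W →ₗ[ℝ] (RP3 → ℝ)) (s t : ℝ) (g h : W) (y : RP3) :
    ev (s • g + t • h) y = s * ev g y + t * ev h y := by
  rw [map_add, map_smul, map_smul]
  rfl

theorem isOpen_pos {F : Type} [Field F] {ev : W →ₗ[ℝ] (RP3 → ℝ)} (h : CSys F ev) (g : W) :
    IsOpen {x | 0 < ev g x} := isOpen_lt continuous_const (h.cont g)

/-- half-spaces are path connected -/
theorem pos_joined {F : Type} [Field F] {ev : W →ₗ[ℝ] (RP3 → ℝ)} (h : CSys F ev) (g : W)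
    {x y : RP3} (hx : 0 < ev g x) (hy : 0 < ev g y) : JoinedIn {x | 0 < ev g x} x y :=
  (Ver.tConn tH0Path tH0Low F RP3 (LinearMap.range ev) h.tsys (ev g) ⟨g, rfl⟩).2 x y hx hy

/-- a continuous chain of half-spaces inside `P` is path connected inside `P` -/
theorem joined_chain {F : Type} [Field F] {ev : W →ₗ[ℝ] (RP3 → ℝ)} (h : CSys F ev)
    (n : ℝ → W) (hn : Continuous n) (P : Set RP3)
    (hne : ∀ t ∈ Set.Icc (0 : ℝ) 1, ∃ y, 0 < ev (n t) y)
    (hP : ∀ t ∈ Set.Icc (0 : ℝ) 1, ∀ y, 0 < ev (n t) y → y ∈ P) (x y : RP3)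
    (hx : 0 < ev (n 0) x) (hy : 0 < ev (n 1) y) : JoinedIn P x y := by
  have hcont : ∀ z : RP3, Continuous fun t => ev (n t) z := by
    intro z
    have h1 : Continuous fun g : W => ev g z := by
      have h2 : (fun g : W => ev g z) = ⇑((LinearMap.proj z : (RP3 → ℝ) →ₗ[ℝ] ℝ) ∘ₗ ev) := rfl
      rw [h2]
      exact LinearMap.continuous_of_finiteDimensional _
    exact h1.comp hn
  let S : Set (Set.Icc (0 : ℝ) 1) := {t | ∀ z, 0 < ev (n t.1) z → JoinedIn P x z}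
  have hin : ∀ t ∈ Set.Icc (0 : ℝ) 1, ∀ z w, 0 < ev (n t) z → 0 < ev (n t) w → JoinedIn P z w := by
    intro t ht z w hz hw
    exact (pos_joined h (n t) hz hw).mono (fun v hv => hP t ht v hv)
  have hloc : ∀ t : Set.Icc (0 : ℝ) 1, ∀ᶠ t' in nhds t, (t' ∈ S ↔ t ∈ S) := by
    intro t
    obtain ⟨z, hz⟩ := hne t.1 t.2
    have h1 : ∀ᶠ t' : Set.Icc (0 : ℝ) 1 in nhds t, 0 < ev (n t'.1) z :=
      ((hcont z).comp continuous_subtype_val).continuousAt.eventually (lt_mem_nhds hz)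
    filter_upwards [h1] with t' ht'
    constructor
    · intro hS w hw
      exact (hS z ht').trans (hin t.1 t.2 z w hz hw)
    · intro hS w hw
      exact (hS z hz).trans (hin t'.1 t'.2 z w ht' hw)
  have hclopen : IsClopen S := by
    constructor
    · rw [← isOpen_compl_iff, isOpen_iff_mem_nhds]
      intro t ht
      filter_upwards [hloc t] with t' ht'
      exact fun h2 => ht (ht'.1 h2)
    · rw [isOpen_iff_mem_nhds]
      intro t ht
      filter_upwards [hloc t] with t' ht'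
      exact ht'.2 ht
  have h0 : (⟨0, by simp⟩ : Set.Icc (0 : ℝ) 1) ∈ S := by
    intro z hz
    exact hin 0 (by simp) x z hx hz
  have huniv : S = Set.univ := hclopen.eq_univ ⟨_, h0⟩
  have h1 : (⟨1, by simp⟩ : Set.Icc (0 : ℝ) 1) ∈ S := by
    rw [huniv]
    trivial
  exact h1 y hy

theorem rng_core {F : Type} [Field F] {ev : W →ₗ[ℝ] (RP3 → ℝ)} (h : CSys F ev) (X : Set RP3)
    (m₁ m₂ : W) (hX : ∀ x ∈ X, ev m₁ x = 0 ∧ ev m₂ x = 0)
    (hQ : ∀ Q : Set RP3, IsCompact Q → (∀ x ∈ Q, x ∉ X) → ∃ χ : W, (∀ x ∈ Q, 0 < ev χ x) ∧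
      (∀ x ∈ X, ev χ x ≤ 0) ∧ Even {x | 0 < ev χ x})
    (hpos : ∀ s t : ℝ, (s ≠ 0 ∨ t ≠ 0) → ∃ y, 0 < ev (s • m₁ + t • m₂) y)
    (hno : ∀ y, y ∉ X → ev m₁ y = 0 → ev m₂ y ≠ 0)
    (y₁ y₂ : RP3) (h11 : 0 < ev m₁ y₁) (h12 : 0 < ev m₁ y₂) (h21 : 0 < ev m₂ y₁)
    (h22 : ev m₂ y₂ < 0) : False := by
  -- the two chains
  let P : Set RP3 := {y | ev m₂ y ≠ 0 ∨ ev m₁ y < 0}
  have hPop : IsOpen P :=
    (isOpen_ne_fun (h.cont m₂) continuous_const).union (isOpen_lt (h.cont m₁) continuous_const)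
  have hPX : ∀ y ∈ P, y ∉ X := by
    intro y hy hyX
    obtain ⟨h1, h2⟩ := hX y hyX
    rcases hy with h3 | h3
    · exact h3 h2
    · rw [h1] at h3
      exact lt_irrefl 0 h3
  have hjτ : JoinedIn {x | 0 < ev m₁ x} y₁ y₂ := pos_joined h m₁ h11 h12
  have hjσ : JoinedIn P y₁ y₂ := by
    let n : ℝ → W := fun t => (-(t * (1 - t))) • m₁ + (1 - 2 * t) • m₂
    have hn : Continuous n := by fun_prop
    refine joined_chain h n hn P ?_ ?_ y₁ y₂ ?_ ?_
    · intro t ht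
      apply hpos
      by_cases h1 : 1 - 2 * t = 0
      · left
        have h2 : t = 1 / 2 := by linarith
        rw [h2]
        norm_num
      · exact Or.inr h1
    · intro t ht y hy
      have h1 : ev (n t) y = (-(t * (1 - t))) * ev m₁ y + (1 - 2 * t) * ev m₂ y :=
        ev_comb ev _ _ _ _ _
      rw [h1] at hy
      by_cases h2 : ev m₂ y = 0
      · right
        rw [h2, mul_zero, add_zero] at hy
        have h3 : 0 ≤ t * (1 - t) := mul_nonneg ht.1 (by linarith [ht.2])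
        by_contra h4
        push Not at h4
        nlinarith [mul_nonneg h3 h4]
      · exact Or.inl h2
    · have h1 : ev (n 0) y₁ = (-(0 * (1 - 0))) * ev m₁ y₁ + (1 - 2 * 0) * ev m₂ y₁ :=
        ev_comb ev _ _ _ _ _
      rw [h1]
      linarith
    · have h1 : ev (n 1) y₂ = (-(1 * (1 - 1))) * ev m₁ y₂ + (1 - 2 * 1) * ev m₂ y₂ :=
        ev_comb ev _ _ _ _ _
      rw [h1]
      linarith
  obtain ⟨τ, hτ, hdτ⟩ := Ver.tJoin F RP3 {x | 0 < ev m₁ x} y₁ y₂ hjτ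
  obtain ⟨σ, hσ, hdσ⟩ := Ver.tJoin F RP3 P y₂ y₁ hjσ.symm
  obtain ⟨Cτ, hCτ, hCτs, hτ'⟩ := Ver.tSupp F RP3 _ 1 τ hτ
  obtain ⟨Cσ, hCσ, hCσs, hσ'⟩ := Ver.tSupp F RP3 _ 1 σ hσ
  obtain ⟨χ, hχ1, hχ2, hχ3⟩ := hQ (Cτ ∪ Cσ) (hCτ.union hCσ) (by
    rintro x (hx | hx)
    · intro hxX
      have h1 : 0 < ev m₁ x := hCτs hx
      rw [(hX x hxX).1] at h1
      exact lt_irrefl 0 h1
    · exact hPX x (hCσs hx))
  have hUop := isOpen_pos h χ
  -- the half-space `{χ > 0}` is the union of `P'` and `R'`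
  let P' : Set RP3 := P ∩ {x | 0 < ev χ x}
  let R' : Set RP3 := {x | 0 < ev m₁ x} ∩ {x | 0 < ev χ x}
  have hun : P' ∪ R' = {x | 0 < ev χ x} := by
    ext y
    constructor
    · rintro (hy | hy)
      · exact hy.2
      · exact hy.2
    · intro hy
      have hyX : y ∉ X := fun h1 => absurd hy (not_lt.2 (hχ2 y h1))
      by_cases h1 : ev m₂ y = 0
      · have h2 : ev m₁ y ≠ 0 := fun h3 => hno y hyX h3 h1
        rcases lt_or_gt_of_ne h2 with h3 | h3
        · exact Or.inl ⟨Or.inr h3, hy⟩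
        · exact Or.inr ⟨h3, hy⟩
      · exact Or.inl ⟨Or.inl h1, hy⟩
  have hHI : HInj F (P' ∪ R') 1 := by
    rw [hun]
    exact h.tight χ 1 le_rfl
  have hσP : σ ∈ inU F P' 1 := inU_mono (T := P') (fun x hx => ⟨hCσs hx, hχ1 x (Or.inr hx)⟩) hσ'
  have hτR : τ ∈ inU F R' 1 := inU_mono (T := R') (fun x hx => ⟨hCτs hx, hχ1 x (Or.inl hx)⟩) hτ'
  have hW₁ : IsOpen ({x | 0 < ev m₁ x} ∩ {x | 0 < ev m₂ x}) :=
    (isOpen_pos h m₁).inter (isOpen_pos h m₂)
  have hW₂ : IsOpen ({x | 0 < ev m₁ x} ∩ {x | ev m₂ x < 0}) :=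
    (isOpen_pos h m₁).inter (isOpen_lt (h.cont m₂) continuous_const)
  refine Ver.tCross F RP3 P' R' _ _ (hPop.inter hUop) ((isOpen_pos h m₁).inter hUop) hW₁ hW₂ ?_ ?_
    hHI y₁ y₂ ⟨h11, h21⟩ ⟨h12, h22⟩ σ hσP τ hτR hdσ hdτ ?_
  · rw [Set.disjoint_left]
    rintro y ⟨_, h1⟩ ⟨_, h2⟩
    exact lt_asymm (show 0 < ev m₂ y from h1) h2
  · rintro y ⟨⟨h1, _⟩, h2, _⟩
    have h3 : ev m₂ y ≠ 0 := by
      rcases h1 with h1 | h1
      · exact h1
      · exact absurd h2 (not_lt.2 (le_of_lt h1))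
    rcases lt_or_gt_of_ne h3 with h4 | h4
    · exact Or.inr ⟨h2, h4⟩
    · exact Or.inl ⟨h2, h4⟩
  · refine bdry_of_even hχ3 ?_ ?_
    · refine Submodule.add_mem _ (inU_mono (fun x hx => hx.2) hσP) (inU_mono (fun x hx => hx.2) hτR)
    · rw [map_add, hdσ, hdτ]
      abel

theorem tRng : RngStmt := by
  intro F _ ev h X k₁ k₂ hX hQ hpos
  by_contra hno
  push Not at hno
  obtain ⟨y₁, hy₁⟩ := hpos 1 0 (Or.inl one_ne_zero)
  rw [ev_comb, one_mul, zero_mul, add_zero] at hy₁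
  set a := ev k₁ y₁ with ha
  set b := ev k₂ y₁ with hb
  obtain ⟨y₂, hy₂⟩ := hpos (-b) a (Or.inr hy₁.ne')
  rw [ev_comb] at hy₂
  set c := ev k₁ y₂ with hc
  set d := ev k₂ y₂ with hd
  have hD : 0 < a * d - b * c := by linarith
  have hm₁ : ∀ y, ev ((d - b) • k₁ + (a - c) • k₂) y = (d - b) * ev k₁ y + (a - c) * ev k₂ y :=
    fun y => ev_comb ev _ _ _ _ _
  have hm₂ : ∀ y, ev ((d + b) • k₁ + (-(a + c)) • k₂) y =
      (d + b) * ev k₁ y + (-(a + c)) * ev k₂ y := fun y => ev_comb ev _ _ _ _ _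
  refine rng_core h X ((d - b) • k₁ + (a - c) • k₂) ((d + b) • k₁ + (-(a + c)) • k₂) ?_ hQ ?_ ?_
    y₁ y₂ ?_ ?_ ?_ ?_
  · intro x hx
    obtain ⟨h1, h2⟩ := hX x hx
    rw [hm₁, hm₂, h1, h2]
    constructor <;> ring
  · intro s t hst
    obtain ⟨y, hy⟩ := hpos (s * (d - b) + t * (d + b)) (s * (a - c) - t * (a + c)) (by
      by_contra h1
      push Not at h1
      obtain ⟨h1, h2⟩ := h1
      have h3 : s * (a * d - b * c) = 0 := by linear_combination ((a + c) * h1 + (d + b) * h2) / 2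
      have h4 : t * (a * d - b * c) = 0 := by linear_combination ((a - c) * h1 - (d - b) * h2) / 2
      rcases hst with h5 | h5
      · exact (mul_ne_zero h5 hD.ne') h3
      · exact (mul_ne_zero h5 hD.ne') h4)
    refine ⟨y, ?_⟩
    rw [ev_comb] at hy
    rw [ev_comb, hm₁, hm₂]
    linarith
  · intro y hy h1 h2
    rw [hm₁] at h1
    rw [hm₂] at h2
    have h3 : ev k₁ y * (a * d - b * c) = 0 := by
      linear_combination ((a + c) * h1 + (a - c) * h2) / 2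
    have h4 : ev k₂ y * (a * d - b * c) = 0 := by
      linear_combination ((d + b) * h1 - (d - b) * h2) / 2
    have h5 : ev k₁ y = 0 := (mul_eq_zero.1 h3).resolve_right hD.ne'
    have h6 : ev k₂ y = 0 := (mul_eq_zero.1 h4).resolve_right hD.ne'
    exact hno y hy h5 h6
  · rw [hm₁, ← ha, ← hb]
    linarith
  · rw [hm₁, ← hc, ← hd]
    linarith
  · rw [hm₂, ← ha, ← hb]
    linarith
  · rw [hm₂, ← hc, ← hd]
    linarith

end C3

end TightRP
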