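import Pool.Agent.Lib.MP_7cdc3e_gt.C.Def

/-!
# MP_7cdc3e_gt, C: exposed points of a cell see all directions

Only the connectedness of the half-spaces is used.  Paper proof: `T6.md`, Lemma SEE.
-/

namespace TightRP

namespace Ver

/-- a space of functions for which all half-spaces are connected -/
structure HSys {M : Type} [TopologicalSpace M] (V : Submodule ℝ (M → ℝ)) : Prop where
  cpt : CompactSpace M
  cont : ∀ l ∈ V, Continuous l
  const : ∀ c : ℝ, (fun _ => c) ∈ V
  conn : ∀ l ∈ V, IsPreconnected {x | 0 < l x}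

variable {M : Type} [TopologicalSpace M] {V : Submodule ℝ (M → ℝ)} {a : M}

private theorem see_form (u : R3 →ₗ[ℝ] ℝ) (d : R3) : u d = ∑ i, d i * u (Pi.single i 1) := by
  have hs : d = ∑ i, d i • (Pi.single i 1 : R3) := by
    ext k
    simp [Finset.sum_apply, Pi.single_apply]
  conv_lhs => rw [hs]
  simp only [map_sum, map_smul, smul_eq_mul]

omit [TopologicalSpace M] in
private theorem see_zero (A : PPt V a) (y : M)
    (h : ∑ i, A.S (Pi.single i 1) (Pi.single i 1) y ≤ 0) (p : R3) : A.S p p y = 0 := by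
  obtain ⟨u, hu⟩ := A.rk y
  have h1 : ∀ i : Fin 3, u (Pi.single i 1) = 0 := by
    intro i
    have h2 : ∑ i, A.S (Pi.single i 1) (Pi.single i 1) y = 0 :=
      le_antisymm h (Finset.sum_nonneg fun i _ => A.nn _ _)
    have h3 := (Finset.sum_eq_zero_iff_of_nonneg fun i _ => A.nn _ _).1 h2 i (Finset.mem_univ i)
    rw [hu] at h3
    exact mul_self_eq_zero.1 h3
  rw [hu, see_form u p]
  simp [h1]

theorem see1 (hV : HSys V) (A : PPt V a) (h : M → ℝ) (hh : h ∈ V) (x : M)
    (hxG : ∀ p, A.S p p x = 0) (hx0 : h x = 0) (hneg : ∀ y, (∀ p, A.S p p y = 0) → h y ≤ 0)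
    (W : Set M) (hW : IsOpen W) (hWE : ∀ y, (∀ p, A.S p p y = 0) → h y = 0 → y ∈ W)
    (d : R3) (hd : ∑ i, d i ^ 2 = 1) (ε : ℝ) (hε : 0 < ε) (hε1 : ε < 1) :
    ∃ y ∈ W, (1 - ε) * ∑ i, A.S (Pi.single i 1) (Pi.single i 1) y < A.S d d y := by
  have := hV.cpt
  set tf : M → ℝ := ∑ i, A.S (Pi.single i 1) (Pi.single i 1) with htf
  have htfV : tf ∈ V := Submodule.sum_mem _ fun i _ => A.mem _ _
  have htfa : ∀ y, tf y = ∑ i, A.S (Pi.single i 1) (Pi.single i 1) y := fun y => by
    rw [htf, Finset.sum_apply]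
  have ht0 : ∀ y, 0 ≤ tf y := fun y => by
    rw [htfa]
    exact Finset.sum_nonneg fun i _ => A.nn _ _
  have hdc : Continuous (A.S d d) := hV.cont _ (A.mem _ _)
  have htc : Continuous tf := hV.cont _ htfV
  have hhc : Continuous h := hV.cont _ hh
  set ω : M → ℝ := A.S d d - (1 - ε / 2) • tf with hω
  have hωV : ω ∈ V := V.sub_mem (A.mem _ _) (V.smul_mem _ htfV)
  have hωa : ∀ y, ω y = A.S d d y - (1 - ε / 2) * tf y := fun y => rfl
  -- a point with `ω > 0`
  obtain ⟨y₀, hy₀⟩ : ∃ y, 0 < ω y := by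
    by_contra hno
    push Not at hno
    set c : Matrix (Fin 3) (Fin 3) ℝ := (1 - ε / 2) • 1 - sq d with hc
    have hsym : c.IsSymm := by
      ext i j
      simp only [hc, Matrix.transpose_apply, Matrix.sub_apply, Matrix.smul_apply, sq, smul_eq_mul,
        Matrix.one_apply]
      have h1 : d j * d i = d i * d j := mul_comm _ _
      have h2 : (j = i) ↔ (i = j) := ⟨Eq.symm, Eq.symm⟩
      rw [h1]
      simp only [h2]
    have hce : (∑ i, ∑ j, c i j • A.S (Pi.single i 1) (Pi.single j 1)) = -ω := by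
      have e1 := A.expand d d
      have e2 : ∀ κ : ℝ, (∑ i, ∑ j, (κ • (1 : Matrix (Fin 3) (Fin 3) ℝ) - sq d) i j •
          A.S (Pi.single i 1) (Pi.single j 1)) = κ • tf - A.S d d := by
        intro κ
        rw [e1, htf]
        simp only [Matrix.sub_apply, Matrix.smul_apply, sq, smul_eq_mul, sub_smul,
          Finset.sum_sub_distrib]
        congr 1
        rw [Finset.smul_sum]
        refine Finset.sum_congr rfl fun i _ => ?_
        refine (Finset.sum_eq_single i ?_ ?_).trans ?_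
        · intro j _ hj
          rw [Matrix.one_apply_ne hj.symm, mul_zero, zero_smul]
        · intro hi
          exact absurd (Finset.mem_univ i) hi
        · rw [Matrix.one_apply_eq, mul_one]
      rw [hc, e2, hω]
      abel
    have hpsd := A.psd_of_nonneg c hsym (by
      intro x
      rw [hce]
      simpa using hno x)
    have h1 := hpsd.2 d
    have h2 : qf c d = (1 - ε / 2) * ∑ i, d i ^ 2 - (∑ i, d i ^ 2) ^ 2 := by
      simp only [qf, hc, Matrix.sub_apply, Matrix.smul_apply, sq, smul_eq_mul, Fin.sum_univ_three,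
        Matrix.one_apply]
      simp
      ring
    rw [h2, hd] at h1
    linarith
  -- the two open sets
  set P : Set M := {y | (1 - ε) * tf y < A.S d d y} with hP
  have hPo : IsOpen P := isOpen_lt (continuous_const.mul htc) hdc
  have hK : IsCompact (W ∪ P)ᶜ := (hW.union hPo).isClosed_compl.isCompact
  obtain ⟨δ, hδ, hδK⟩ := hK.exists_forall_le' (f := fun y => max (-h y) (tf y))
    (hhc.neg.max htc).continuousOn (a := 0) (by
      intro y hy
      rcases (ht0 y).lt_or_eq with h1 | h1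
      · exact lt_max_of_lt_right h1
      · refine lt_max_of_lt_left ?_
        have h2 : ∀ p, A.S p p y = 0 := see_zero A y (by rw [← htfa, ← h1])
        rcases (hneg y h2).lt_or_eq with h3 | h3
        · linarith
        · exact absurd (Or.inl (hWE y h2 h3)) hy)
  obtain ⟨C, hC⟩ := isCompact_univ.exists_bound_of_continuousOn hhc.continuousOn
  have hC' : ∀ y, |h y| ≤ C := fun y => hC y (Set.mem_univ y)
  have hC0 : 0 ≤ C := (abs_nonneg _).trans (hC' x)
  set T : ℝ := (C + δ) / (ε / 2 * δ) + (C + 1) / ω y₀ with hT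
  have hT1 : 0 ≤ (C + δ) / (ε / 2 * δ) := by positivity
  have hT2 : 0 ≤ (C + 1) / ω y₀ := by positivity
  have hT0 : 0 ≤ T := add_nonneg hT1 hT2
  -- the function
  set l : M → ℝ := h + (fun _ => δ / 2) + T • ω with hl
  have hlV : l ∈ V := V.add_mem (V.add_mem hh (hV.const _)) (V.smul_mem _ hωV)
  have hla : ∀ y, l y = h y + δ / 2 + T * ω y := fun y => rfl
  have hconn := hV.conn l hlV
  have hsub : {y | 0 < l y} ⊆ W ∪ P := by
    intro y hy
    by_contra hyK
    have hy' : 0 < l y := hy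
    rw [hla] at hy'
    have h1 : A.S d d y ≤ (1 - ε) * tf y := by
      by_contra h2
      exact hyK (Or.inr (not_le.1 h2))
    have h2 : ω y ≤ -(ε / 2) * tf y := by
      rw [hωa]
      linarith
    have h3 : T * ω y ≤ T * (-(ε / 2) * tf y) := mul_le_mul_of_nonneg_left h2 hT0
    have h4 : δ ≤ max (-h y) (tf y) := hδK y hyK
    rcases le_max_iff.1 h4 with h5 | h5
    · have h6 : 0 ≤ T * ((ε / 2) * tf y) := mul_nonneg hT0 (mul_nonneg (by linarith) (ht0 y))
      nlinarith
    · have h6 : h y ≤ C := (le_abs_self _).trans (hC' y)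
      have h7 : (C + δ) ≤ T * (ε / 2 * δ) := by
        rw [hT, add_mul, div_mul_cancel₀ _ (by positivity)]
        have : 0 ≤ (C + 1) / ω y₀ * (ε / 2 * δ) := by positivity
        linarith
      have h8 : T * (ε / 2 * δ) ≤ T * (ε / 2 * tf y) :=
        mul_le_mul_of_nonneg_left (mul_le_mul_of_nonneg_left h5 (by linarith)) hT0
      nlinarith
  have hxW : ({y | 0 < l y} ∩ W).Nonempty := by
    refine ⟨x, ?_, hWE x hxG hx0⟩
    change 0 < l x
    have h1 : tf x = 0 := by
      rw [htfa]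
      exact Finset.sum_eq_zero fun i _ => hxG _
    rw [hla, hωa, hx0, hxG, h1]
    simp
    exact hδ
  have hyP : ({y | 0 < l y} ∩ P).Nonempty := by
    refine ⟨y₀, ?_, ?_⟩
    · change 0 < l y₀
      rw [hla]
      have h1 : -C ≤ h y₀ := (abs_le.1 (hC' y₀)).1
      have h2 : C + 1 ≤ T * ω y₀ := by
        rw [hT, add_mul, div_mul_cancel₀ _ hy₀.ne']
        have : 0 ≤ (C + δ) / (ε / 2 * δ) * ω y₀ := by positivity
        linarith
      linarith
    · change (1 - ε) * tf y₀ < A.S d d y₀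
      have h1 := hy₀
      rw [hωa] at h1
      have h2 : 0 ≤ ε / 2 * tf y₀ := mul_nonneg (by linarith) (ht0 y₀)
      nlinarith
  obtain ⟨y, -, hyW, hyP'⟩ := hconn W P hW hPo hsub hxW hyP
  refine ⟨y, hyW, ?_⟩
  rw [← htfa]
  exact hyP'

/-- every direction is seen -/
theorem see2 (hV : HSys V) (A : PPt V a) (h : M → ℝ) (hh : h ∈ V) (x : M)
    (hxG : ∀ p, A.S p p x = 0) (hx0 : h x = 0) (hneg : ∀ y, (∀ p, A.S p p y = 0) → h y ≤ 0)
    (W : Set M) (hW : IsOpen W) (hWE : ∀ y, (∀ p, A.S p p y = 0) → h y = 0 → y ∈ W)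
    (φ : R3 →ₗ[ℝ] ℝ) (hφ : φ ≠ 0) (η : ℝ) (hη : 0 < η) :
    ∃ y ∈ W, ∃ (u : R3 →ₗ[ℝ] ℝ) (s : ℝ), 0 < s ∧ (∀ p r, A.S p r y = u p * u r) ∧
      ∀ i : Fin 3, |u (Pi.single i 1) - s * φ (Pi.single i 1)| ≤ η * s := by
  set v : R3 := fun i => φ (Pi.single i 1) with hv
  have hN0 : 0 < ∑ i, v i ^ 2 := by
    have h1 : 0 ≤ ∑ i, v i ^ 2 := Finset.sum_nonneg fun i _ => sq_nonneg _
    rcases h1.lt_or_eq with h2 | h2
    · exact h2
    · exfalso
      apply hφ
      refine LinearMap.ext fun p => ?_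
      rw [see_form φ p]
      have h3 : ∀ i, v i = 0 := by
        intro i
        have := (Finset.sum_eq_zero_iff_of_nonneg fun i _ => sq_nonneg _).1 h2.symm i
          (Finset.mem_univ i)
        exact pow_eq_zero_iff (two_ne_zero) |>.1 this
      change ∑ i, p i * v i = 0
      exact Finset.sum_eq_zero fun i _ => by rw [h3, mul_zero]
  set N := Real.sqrt (∑ i, v i ^ 2) with hN
  have hNpos : 0 < N := Real.sqrt_pos.2 hN0
  have hNsq : N ^ 2 = ∑ i, v i ^ 2 := Real.sq_sqrt hN0.le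
  set ρ := η / N with hρ
  have hρ0 : 0 < ρ := div_pos hη hNpos
  have hρN : ρ * N = η := div_mul_cancel₀ _ hNpos.ne'
  set d : R3 := fun i => v i / N with hd
  have hd1 : ∑ i, d i ^ 2 = 1 := by
    simp only [hd, div_pow]
    rw [← Finset.sum_div, ← hNsq]
    exact div_self (by positivity)
  have hε0 : 0 < ρ ^ 2 / (1 + ρ ^ 2) := by positivity
  have hε1 : ρ ^ 2 / (1 + ρ ^ 2) < 1 := by
    rw [div_lt_one (by positivity)]
    linarith
  obtain ⟨y, hyW, hy⟩ := see1 hV A h hh x hxG hx0 hneg W hW hWE d hd1 _ hε0 hε1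
  obtain ⟨w, hw⟩ := A.rk y
  have hkey : ∑ i, w (Pi.single i 1) ^ 2 < (1 + ρ ^ 2) * w d ^ 2 := by
    have h1 : (1 - ρ ^ 2 / (1 + ρ ^ 2)) = 1 / (1 + ρ ^ 2) := by
      field_simp
      ring
    rw [h1, hw] at hy
    simp only [hw] at hy
    have h2 : (1 + ρ ^ 2) * (1 / (1 + ρ ^ 2) * ∑ i : Fin 3, w (Pi.single i 1) * w (Pi.single i 1)) <
        (1 + ρ ^ 2) * (w d * w d) := mul_lt_mul_of_pos_left hy (by positivity)
    rw [← mul_assoc, mul_one_div_cancel (by positivity), one_mul] at h2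
    simp only [pow_two] at h2 ⊢
    exact h2
  -- the sign
  obtain ⟨u, hu, hud⟩ : ∃ u : R3 →ₗ[ℝ] ℝ, (∀ p r, A.S p r y = u p * u r) ∧ 0 < u d ∧
      ∑ i, u (Pi.single i 1) ^ 2 < (1 + ρ ^ 2) * u d ^ 2 := by
    have hne : w d ≠ 0 := by
      intro h0
      rw [h0] at hkey
      have : 0 ≤ ∑ i : Fin 3, w (Pi.single i 1) ^ 2 := Finset.sum_nonneg fun i _ => sq_nonneg _
      simp at hkey
      linarith
    rcases lt_or_gt_of_ne hne with h1 | h1
    · refine ⟨-w, fun p r => ?_, ?_, ?_⟩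
      · rw [hw, LinearMap.neg_apply, LinearMap.neg_apply, neg_mul_neg]
      · rw [LinearMap.neg_apply]
        linarith
      · simpa using hkey
    · exact ⟨w, hw, h1, hkey⟩
  refine ⟨y, hyW, u, u d / N, div_pos hud.1 hNpos, hu, ?_⟩
  have hform : u d = ∑ i, d i * u (Pi.single i 1) := see_form u d
  have hsum : ∑ i, (u (Pi.single i 1) - u d * d i) ^ 2 ≤ ρ ^ 2 * u d ^ 2 := by
    have h1 : ∑ i, (u (Pi.single i 1) - u d * d i) ^ 2 =
        ∑ i, u (Pi.single i 1) ^ 2 - 2 * u d * ∑ i, d i * u (Pi.single i 1) +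
          u d ^ 2 * ∑ i, d i ^ 2 := by
      simp only [Finset.mul_sum, ← Finset.sum_sub_distrib, ← Finset.sum_add_distrib]
      refine Finset.sum_congr rfl fun i _ => ?_
      ring
    rw [h1, ← hform, hd1]
    nlinarith [hud.2]
  intro i
  have h1 : u d / N * φ (Pi.single i 1) = u d * d i := by
    simp only [hd, hv]
    ring
  rw [h1]
  have h2 : (u (Pi.single i 1) - u d * d i) ^ 2 ≤ ρ ^ 2 * u d ^ 2 :=
    (Finset.single_le_sum (f := fun i => (u (Pi.single i 1) - u d * d i) ^ 2)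
      (fun i _ => sq_nonneg _) (Finset.mem_univ i)).trans hsum
  have h3 : η * (u d / N) = ρ * u d := by
    rw [hρ]
    ring
  rw [h3]
  refine abs_le_of_sq_le_sq ?_ (mul_nonneg hρ0.le hud.1.le)
  rw [mul_pow]
  exact h2

end Ver

end TightRP
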