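import Pool.Agent.Lib.MP_7cdc3e_gt.C.Defs
import Pool.Agent.Lib.MP_7cdc3e_gt.C.D1.Spec
import Pool.Agent.Lib.MP_7cdc3e_gt.T7.All

/-!
# MP_7cdc3e_gt, C32, section T7: simplicial cones at all regular points give a polyhedral map

`PosPtStmt` is the axiom (a7) of section T4; `Simp ev z g`: the first alternative of section T5 at the
regular point `z`; `t7`: if the regular points are dense and simplicial then `f` is polyhedral.
-/

set_option autoImplicit false

open Module

namespace TightRP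

namespace C3

/-- (a7): the elements of a thin face of dimension at most three are simultaneously positive at some
point -/
def PosPtStmt : Prop := ∀ (F : Type) [Field F] (ev : W →ₗ[ℝ] (RP3 → ℝ)), CSys F ev →
  ∀ z, Reg ev z → ∀ Φ, IsFace ev Φ → Φ ⊆ Nf ev z → (∀ g ∈ Φ, g ≠ 0 → g ∈ T2set ev) → dm Φ ≤ 3 →
    ∃ y, ∀ g ∈ Φ, g ≠ 0 → 0 < ev g y

/-- the cone of `z` is simplicial with the generators `g`; two of them span a thin face; every one of
them is missed by three others which span a thin face -/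
structure Simp (ev : W →ₗ[ℝ] (RP3 → ℝ)) (z : RP3) (g : Fin 6 → W) : Prop where
  ind : LinearIndependent ℝ g
  gen : Nf ev z = D1.cn g
  two : ∀ σ : Finset (Fin 6), σ.card ≤ 2 → ∀ x ∈ D1.cnS g σ, x ≠ 0 → x ∈ T2set ev
  six : ∀ i : Fin 6, ∃ σ : Finset (Fin 6), σ.card = 3 ∧ i ∉ σ ∧
    ∀ x ∈ D1.cnS g σ, x ≠ 0 → x ∈ T2set ev

/-! ## Cones -/

theorem cn_eq_cnS {n : ℕ} (g : Fin n → W) : D1.cn g = D1.cnS g Finset.univ := by
  ext x
  constructor
  · rintro ⟨c, hc, hx⟩
    exact ⟨c, hc, fun i hi => (hi (Finset.mem_univ i)).elim, hx⟩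
  · rintro ⟨c, hc, _, hx⟩
    exact ⟨c, hc, hx⟩

theorem cnS_smul {n : ℕ} (g : Fin n → W) (c : Fin n → ℝ) (hc : ∀ i, 0 < c i)
    (σ : Finset (Fin n)) : D1.cnS (fun i => c i • g i) σ = D1.cnS g σ := by
  ext x
  constructor
  · rintro ⟨a, ha, h0, hx⟩
    refine ⟨fun i => a i * c i, fun i => mul_nonneg (ha i) (hc i).le, fun i hi => ?_, ?_⟩
    · show a i * c i = 0
      rw [h0 i hi, zero_mul]
    · rw [hx]
      exact Finset.sum_congr rfl fun i _ => smul_smul _ _ _
  · rintro ⟨a, ha, h0, hx⟩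
    refine ⟨fun i => a i * (c i)⁻¹, fun i => mul_nonneg (ha i) (inv_pos.2 (hc i)).le,
      fun i hi => ?_, ?_⟩
    · show a i * (c i)⁻¹ = 0
      rw [h0 i hi, zero_mul]
    · rw [hx]
      refine Finset.sum_congr rfl fun i _ => ?_
      rw [smul_smul, mul_assoc, inv_mul_cancel₀ (hc i).ne', mul_one]

theorem mem_cnS {n : ℕ} (g : Fin n → W) {σ : Finset (Fin n)} {i : Fin n} (hi : i ∈ σ) :
    g i ∈ D1.cnS g σ := by
  refine ⟨fun j => if j = i then 1 else 0, fun j => ?_, fun j hj => ?_, ?_⟩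
  · show (0 : ℝ) ≤ if j = i then 1 else 0
    split_ifs
    · exact zero_le_one
    · exact le_refl _
  · have hji : j ≠ i := fun h => hj (h ▸ hi)
    exact if_neg hji
  · rw [Finset.sum_eq_single i]
    · simp
    · intro j _ hj
      simp [hj]
    · intro h
      exact (h (Finset.mem_univ i)).elim

theorem dm_cnS_le {n : ℕ} (g : Fin n → W) (σ : Finset (Fin n)) : dm (D1.cnS g σ) ≤ σ.card := by
  classical
  have h1 : Submodule.span ℝ (D1.cnS g σ) ≤ Submodule.span ℝ (↑(σ.image g) : Set W) := by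
    refine Submodule.span_le.2 ?_
    rintro x ⟨a, _, h0, hx⟩
    rw [hx]
    refine Submodule.sum_mem _ fun i _ => ?_
    by_cases hi : i ∈ σ
    · exact Submodule.smul_mem _ _ (Submodule.subset_span (by
        rw [Finset.coe_image]
        exact Set.mem_image_of_mem g hi))
    · rw [h0 i hi, zero_smul]
      exact Submodule.zero_mem _
  exact (Submodule.finrank_mono h1).trans
    ((finrank_span_finset_le_card (σ.image g)).trans Finset.card_image_le)

namespace Simp

variable {ev : W →ₗ[ℝ] (RP3 → ℝ)} {z : RP3} {g : Fin 6 → W}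

theorem mem (h : Simp ev z g) (i : Fin 6) : g i ∈ Nf ev z := by
  rw [h.gen, cn_eq_cnS]
  exact mem_cnS g (Finset.mem_univ i)

theorem ne (h : Simp ev z g) (i : Fin 6) : g i ≠ 0 := h.ind.ne_zero i

/-- rescaling of the generators -/
theorem rescale (h : Simp ev z g) (c : Fin 6 → ℝ) (hc : ∀ i, 0 < c i) :
    Simp ev z (fun i => c i • g i) := by
  refine ⟨?_, ?_, ?_, ?_⟩
  · exact h.ind.units_smul (fun i => Units.mk0 (c i) (hc i).ne')
  · rw [h.gen, cn_eq_cnS, cn_eq_cnS, cnS_smul g c hc]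
  · intro σ hσ x hx
    rw [cnS_smul g c hc] at hx
    exact h.two σ hσ x hx
  · intro i
    obtain ⟨σ, h1, h2, h3⟩ := h.six i
    refine ⟨σ, h1, h2, fun x hx => ?_⟩
    rw [cnS_smul g c hc] at hx
    exact h3 x hx

/-- the subsets of the generators span faces -/
theorem face (h : Simp ev z g) (σ : Finset (Fin 6)) : IsFace ev (D1.cnS g σ) := by
  have hsub : D1.cnS g σ ⊆ Nf ev z := by
    rw [h.gen]
    rintro x ⟨a, ha, _, hx⟩
    exact ⟨a, ha, hx⟩
  refine ⟨fun x hx => (hsub hx).1, ⟨fun _ => 0, fun _ => le_refl _, fun _ _ => rfl, by simp⟩,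
    ?_, ?_, ?_⟩
  · rintro x ⟨a, ha, ha0, hx⟩ y ⟨b, hb, hb0, hy⟩
    refine ⟨fun i => a i + b i, fun i => add_nonneg (ha i) (hb i), fun i hi => ?_, ?_⟩
    · show a i + b i = 0
      rw [ha0 i hi, hb0 i hi, add_zero]
    · rw [hx, hy, ← Finset.sum_add_distrib]
      exact Finset.sum_congr rfl fun i _ => (add_smul _ _ _).symm
  · rintro t ht x ⟨a, ha, ha0, hx⟩
    refine ⟨fun i => t * a i, fun i => mul_nonneg ht (ha i), fun i hi => ?_, ?_⟩
    · show t * a i = 0
      rw [ha0 i hi, mul_zero]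
    · rw [hx, Finset.smul_sum]
      exact Finset.sum_congr rfl fun i _ => smul_smul _ _ _
  · intro x hx y hy hxy
    have hz : ev (x + y) z = 0 := (hsub hxy).2
    have hz' : ev x z + ev y z = 0 := by
      rw [map_add] at hz
      exact hz
    have hx0 : ev x z = 0 := by linarith [hx z, hy z]
    have hy0 : ev y z = 0 := by linarith [hx z, hy z]
    have hxN : x ∈ D1.cn g := h.gen ▸ (⟨hx, hx0⟩ : x ∈ Nf ev z)
    have hyN : y ∈ D1.cn g := h.gen ▸ (⟨hy, hy0⟩ : y ∈ Nf ev z)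
    obtain ⟨a, ha, hxa⟩ := hxN
    obtain ⟨b, hb, hyb⟩ := hyN
    obtain ⟨c, hc, hc0, hxc⟩ := hxy
    have h1 : ∀ i, a i + b i - c i = 0 := by
      have h2 : ∑ i, (a i + b i - c i) • g i = 0 := by
        have h3 : ∑ i, (a i + b i - c i) • g i =
            ∑ i, a i • g i + ∑ i, b i • g i - ∑ i, c i • g i := by
          rw [← Finset.sum_add_distrib, ← Finset.sum_sub_distrib]
          refine Finset.sum_congr rfl fun i _ => ?_
          rw [sub_smul, add_smul]
        rw [h3, ← hxa, ← hyb, ← hxc, sub_self]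
      exact fun i => Fintype.linearIndependent_iff.1 h.ind _ h2 i
    refine ⟨a, ha, fun i hi => ?_, hxa⟩
    have h4 := h1 i
    rw [hc0 i hi] at h4
    linarith [ha i, hb i]

end Simp

/-! ## Normalization -/

/-- the functions with maximum one -/
def nuS (ev : W →ₗ[ℝ] (RP3 → ℝ)) : Set W := {g | (∀ x, ev g x ≤ 1) ∧ ∃ x, ev g x = 1}

theorem exists_norm {F : Type} [Field F] {ev : W →ₗ[ℝ] (RP3 → ℝ)} (h : CSys F ev) {g : W}
    (hg : g ∈ Cn ev) (hg0 : g ≠ 0) : ∃ c : ℝ, 0 < c ∧ c • g ∈ nuS ev := by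
  have i2 := cptRP3
  obtain ⟨z, -⟩ := pj_surj (pj 0)
  obtain ⟨y, -, hy⟩ := isCompact_univ.exists_isMaxOn (⟨pj z, trivial⟩ : (Set.univ : Set RP3).Nonempty)
    (h.cont g).continuousOn
  have hy' : ∀ x, ev g x ≤ ev g y := fun x => hy (Set.mem_univ x)
  have hpos : 0 < ev g y := by
    rcases (hg y).lt_or_eq with h1 | h1
    · exact h1
    · exfalso
      apply hg0
      apply h.inj
      rw [map_zero]
      funext x
      have h2 := hy' x
      rw [← h1] at h2
      exact le_antisymm h2 (hg x)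
  refine ⟨(ev g y)⁻¹, inv_pos.2 hpos, fun x => ?_, y, ?_⟩
  · rw [map_smul]
    show (ev g y)⁻¹ * ev g x ≤ 1
    rw [inv_mul_le_iff₀ hpos, mul_one]
    exact hy' x
  · rw [map_smul]
    exact inv_mul_cancel₀ hpos.ne'

/-- the evaluation at a point -/
noncomputable def evL (ev : W →ₗ[ℝ] (RP3 → ℝ)) (y : RP3) : W →ₗ[ℝ] ℝ :=
  (LinearMap.proj y) ∘ₗ ev

theorem evL_apply (ev : W →ₗ[ℝ] (RP3 → ℝ)) (y : RP3) (g : W) : evL ev y g = ev g y := rfl

theorem even_emp : Even (∅ : Set RP3) :=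
  ⟨∅, isOpen_empty, fun x hx => by
    rw [up_empty] at hx
    exact hx.elim⟩

/-! ## The theorem -/

/-- the data of part F -/
theorem fam {F : Type} [Field F] {ev : W →ₗ[ℝ] (RP3 → ℝ)} (h : CSys F ev) (hOut : OutStmt)
    (hPos : PosPtStmt) (hd : Dense {z | Reg ev z}) (G : RP3 → Fin 6 → W)
    (hG : ∀ z, Reg ev z → Simp ev z (G z)) (hnu : ∀ z, Reg ev z → ∀ i, G z i ∈ nuS ev)
    [DecidableEq W] :
    T7.Fam (evL ev) Even {z | Reg ev z} (fun z => Finset.univ.image (G z)) (nuS ev) := by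
  have hinj : ∀ z, Reg ev z → Function.Injective (G z) := fun z hz => (hG z hz).ind.injective
  refine ⟨fun g => h.cont g, hd, even_emp, ?_, ?_, ?_, ?_, ?_, ?_, ?_, ?_, ?_, ?_⟩
  · intro z hz
    rw [Finset.card_image_of_injective _ (hinj z hz)]
    rfl
  · intro z hz
    have h1 : ∀ a : (Finset.univ.image (G z) : Finset W), ∃ i, G z i = a := fun a => by
      obtain ⟨i, -, hi⟩ := Finset.mem_image.1 a.2
      exact ⟨i, hi⟩
    choose idx hidx using h1
    have h2 : (fun a : (Finset.univ.image (G z) : Finset W) => (a : W)) = G z ∘ idx := by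
      funext a
      exact (hidx a).symm
    show LinearIndependent ℝ (fun a : (Finset.univ.image (G z) : Finset W) => (a : W))
    rw [h2]
    refine (hG z hz).ind.comp idx fun a b hab => ?_
    apply Subtype.ext
    rw [← hidx a, ← hidx b, hab]
  · intro z hz g hg y
    obtain ⟨i, -, rfl⟩ := Finset.mem_image.1 hg
    exact ((hG z hz).mem i).1 y
  · intro z hz g hg
    obtain ⟨i, -, rfl⟩ := Finset.mem_image.1 hg
    exact ((hG z hz).mem i).2
  · intro z hz g hg
    obtain ⟨i, -, rfl⟩ := Finset.mem_image.1 hg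
    exact hnu z hz i
  · rintro g ⟨hg1, x, hx⟩ c hc ⟨hcg1, y, hy⟩
    rw [map_smul] at hcg1 hy
    have h3 : c * ev g x ≤ 1 := hcg1 x
    have h4 : c * ev g y = 1 := hy
    rw [hx, mul_one] at h3
    have h5 := hg1 y
    nlinarith
  · intro z hz g hg0 hgz
    have hgN : g ∈ D1.cn (G z) := (hG z hz).gen ▸ (⟨hg0, hgz⟩ : g ∈ Nf ev z)
    obtain ⟨c, hc, hgc⟩ := hgN
    refine ⟨fun a => c (Function.invFun (G z) a), fun a => hc _, ?_⟩
    rw [Finset.sum_image fun a _ b _ hab => hinj z hz hab, hgc]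
    refine Finset.sum_congr rfl fun i _ => ?_
    show c i • G z i = c (Function.invFun (G z) (G z i)) • G z i
    rw [Function.leftInverse_invFun (hinj z hz) i]
  · intro z hz g hg g' hg'
    obtain ⟨i, -, rfl⟩ := Finset.mem_image.1 hg
    obtain ⟨j, -, rfl⟩ := Finset.mem_image.1 hg'
    have h6 : G z i + G z j ∈ D1.cnS (G z) {i, j} :=
      ((hG z hz).face {i, j}).add _ (mem_cnS _ (by simp)) _ (mem_cnS _ (by simp))
    have h7 : G z i + G z j ≠ 0 := by
      intro h8
      have h9 : G z i = -G z j := eq_neg_of_add_eq_zero_left h8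
      apply (hG z hz).ne i
      apply h.inj
      rw [map_zero]
      funext x
      have h10 := ((hG z hz).mem i).1 x
      have h11 := ((hG z hz).mem j).1 x
      have h12 : ev (G z i) x = -ev (G z j) x := by
        rw [h9, map_neg]
        rfl
      show ev (G z i) x = 0
      linarith
    exact ((hG z hz).two {i, j} Finset.card_le_two _ h6 h7).2.2.2
  · rintro z hz y ⟨g, hg, hgy⟩
    obtain ⟨i, -, rfl⟩ := Finset.mem_image.1 hg
    have h13 : y ∉ Xz ev (Nf ev z) := fun hy => hgy (hy _ ((hG z hz).mem i))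
    obtain ⟨φ, hφ, hφy, hφ0, hφT⟩ := hOut F ev h z hz y h13
    refine ⟨φ, hφ.1, hφ.2, hφy, fun hE => hφT ⟨hφ.1, hφ0, ⟨z, hφ.2⟩, hE⟩⟩
  · intro z hz g hg
    obtain ⟨i, -, rfl⟩ := Finset.mem_image.1 hg
    obtain ⟨σ, hσ, hiσ, hthin⟩ := (hG z hz).six i
    have hsub : D1.cnS (G z) σ ⊆ Nf ev z := by
      rw [(hG z hz).gen]
      rintro x ⟨a, ha, _, hx⟩
      exact ⟨a, ha, hx⟩
    obtain ⟨y, hy⟩ := hPos F ev h z hz _ ((hG z hz).face σ) hsub hthin
      ((dm_cnS_le (G z) σ).trans hσ.le)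
    refine ⟨σ.image (G z), Finset.image_subset_image (Finset.subset_univ σ), ?_, ?_, y, ?_⟩
    · intro h14
      obtain ⟨j, hj, hji⟩ := Finset.mem_image.1 h14
      exact hiσ (hinj z hz hji ▸ hj)
    · rw [Finset.card_image_of_injective _ (hinj z hz), hσ]
    · intro x hx
      obtain ⟨j, hj, rfl⟩ := Finset.mem_image.1 hx
      exact hy _ (mem_cnS _ hj) ((hG z hz).ne j)

/-- section T7 -/
theorem t7 (hOut : OutStmt) (hPos : PosPtStmt) (hFill : FillStmt) (hSep : SepStmt) {F : Type}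
    [Field F] {ev : W →ₗ[ℝ] (RP3 → ℝ)} (h : CSys F ev) {f : RP3 → EuclideanSpace ℝ (Fin 9)}
    (hf : Continuous f) (haff : LinearMap.range ev = Ver.aff f) (hd : Dense {z | Reg ev z})
    (hs : ∀ z, Reg ev z → ∃ g, Simp ev z g) : Polyhedral f := by
  classical
  have i1 := rTop.1
  have i2 := cptRP3
  -- normalized generators
  have hG : ∀ z, ∃ g : Fin 6 → W, Reg ev z → Simp ev z g ∧ ∀ i, g i ∈ nuS ev := by
    intro z
    by_cases hz : Reg ev z
    · obtain ⟨g, hg⟩ := hs z hz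
      have h1 : ∀ i, ∃ c : ℝ, 0 < c ∧ c • g i ∈ nuS ev := fun i =>
        exists_norm h (hg.mem i).1 (hg.ne i)
      choose c hc hcn using h1
      exact ⟨fun i => c i • g i, fun _ => ⟨hg.rescale c hc, hcn⟩⟩
    · exact ⟨fun _ => 0, fun hz' => (hz hz').elim⟩
  choose G hG using hG
  have hfam := fam h hOut hPos hd G (fun z hz => (hG z hz).1) (fun z hz => (hG z hz).2)
  -- values and coordinates
  have hrep : ∀ g : W, ∃ A : T7.En 9 →ᵃ[ℝ] ℝ, ∀ y, evL ev y g = A (f y) := by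
    intro g
    have h1 : ev g ∈ Ver.aff f := haff ▸ LinearMap.mem_range_self ev g
    obtain ⟨l, c, hl⟩ := h1
    refine ⟨l.toAffineMap + AffineMap.const ℝ _ c, fun y => ?_⟩
    rw [evL_apply, hl]
    rfl
  have hco : ∀ i : Fin 9, ∃ g : W, ∀ y, ev g y = f y i := by
    intro i
    have h1 : (fun y => f y i) ∈ Ver.aff f :=
      ⟨(EuclideanSpace.proj i : EuclideanSpace ℝ (Fin 9) →L[ℝ] ℝ).toLinearMap, 0, by
        funext y
        simp⟩
    rw [← haff] at h1
    obtain ⟨g, hg⟩ := h1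
    exact ⟨g, fun y => congrFun hg y⟩
  have hfinj : ∀ x y, f x = f y → x = y := by
    intro x y hxy
    refine hSep F ev h x y fun g => ?_
    obtain ⟨A, hA⟩ := hrep g
    rw [← evL_apply, ← evL_apply, hA, hA, hxy]
  refine T7.polyhedral_of rTop.2.1 hf hfam hrep fun z hz => ⟨fun x _ y _ hxy => hfinj x y hxy, ?_⟩
  -- the cell is convex
  have hS := (hG z hz).1
  have hcell : {y | ∀ g ∈ Finset.univ.image (G z), evL ev y g = 0} = Zr ev (∑ i, G z i) := by
    ext y
    have h2 : ev (∑ i, G z i) y = ∑ i, ev (G z i) y := by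
      rw [map_sum, Finset.sum_apply]
    constructor
    · intro hy
      show ev (∑ i, G z i) y = 0
      rw [h2]
      exact Finset.sum_eq_zero fun i _ => hy _ (Finset.mem_image_of_mem _ (Finset.mem_univ i))
    · intro hy g hg
      obtain ⟨i, -, rfl⟩ := Finset.mem_image.1 hg
      have h3 : ∑ i, ev (G z i) y = 0 := h2 ▸ hy
      exact (Finset.sum_eq_zero_iff_of_nonneg fun j _ => (hS.mem j).1 y).1 h3 i (Finset.mem_univ i)
  have hsumC : (∑ i, G z i) ∈ Cn ev := by
    intro x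
    rw [map_sum, Finset.sum_apply]
    exact Finset.sum_nonneg fun i _ => (hS.mem i).1 x
  have hz0 : z ∈ Zr ev (∑ i, G z i) := by
    show ev (∑ i, G z i) z = 0
    rw [map_sum, Finset.sum_apply]
    exact Finset.sum_eq_zero fun i _ => (hS.mem i).2
  have hev : Even (Zr ev (∑ i, G z i)) := by
    obtain ⟨k, hk, hkE⟩ := hz.1
    refine hkE.mono fun y hy => ?_
    have h4 : k ∈ D1.cn (G z) := hS.gen ▸ hk
    obtain ⟨c, hc, hkc⟩ := h4
    rw [← hcell] at hy
    show ev k y = 0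
    rw [hkc, map_sum, Finset.sum_apply]
    refine Finset.sum_eq_zero fun i _ => ?_
    rw [map_smul]
    show c i * ev (G z i) y = 0
    have h5 : ev (G z i) y = 0 := hy _ (Finset.mem_image_of_mem _ (Finset.mem_univ i))
    rw [h5, mul_zero]
  rw [hcell]
  rintro _ ⟨x, hx, rfl⟩ _ ⟨y, hy, rfl⟩ s t hs0 ht0 hst
  obtain ⟨w, hw, hw1⟩ := hFill F ev h _ ⟨hsumC, ⟨z, hz0⟩, hev⟩ x hx y hy s t hs0 ht0 hst
  refine ⟨w, hw, ?_⟩
  ext i
  obtain ⟨g, hg⟩ := hco i
  have h6 := hw1 g
  rw [hg, hg, hg] at h6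
  rw [h6]
  rfl

end C3

end TightRP
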